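import Pool.Agent.Y767.HC.Stm

/-! # BUMP : a function of compact support whose Fourier transform majorises a compact set -/

set_option autoImplicit false

open Complex Filter Topology MeasureTheory
open scoped FourierTransform SchwartzMap RealInnerProductSpace

namespace Pool.Agent.Y773.G.GH

section

variable {r : ℕ}

/-- a Schwartz function whose Fourier transform is `1` on `B`, `≤ 1` everywhere, of small `L²` norm -/
lemma exists_schwartz (B : Set (EuclideanSpace ℝ (Fin r))) (hB : IsCompact B) {δ : ℝ} (hδ : 0 < δ) :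
    ∃ g : 𝓢((EuclideanSpace ℝ (Fin r)), ℂ), (∀ x ∈ B, 𝓕 g x = 1) ∧ ∫ x, ‖g x‖ ^ 2 ≤ (volume B).toReal + δ := by
  have hBf : volume B ≠ ⊤ := hB.measure_lt_top.ne
  obtain ⟨U, hBU, hUo, hU⟩ := B.exists_isOpen_lt_of_lt (volume B + ENNReal.ofReal δ)
    (ENNReal.lt_add_right hBf (by simpa using hδ))
  obtain ⟨R, hR⟩ := hB.isBounded.subset_ball 0
  obtain ⟨f, hf1, hf2, hf3, hf4⟩ := exists_contMDiff_support_eq_eq_one_iff (n := ⊤)
    (modelWithCornersSelf ℝ (EuclideanSpace ℝ (Fin r))) (s := U ∩ Metric.ball 0 R) (t := B)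
    (hUo.inter Metric.isOpen_ball) hB.isClosed (Set.subset_inter hBU hR)
  have hcs : HasCompactSupport f := by
    rw [HasCompactSupport, tsupport, hf3]
    exact Metric.isCompact_of_isClosed_isBounded isClosed_closure
      ((Metric.isBounded_ball.subset Set.inter_subset_right).closure)
  have hcd' : ContDiff ℝ ((⊤ : ℕ∞) : WithTop ℕ∞) fun x => ((f x : ℝ) : ℂ) :=
    Complex.ofRealCLM.contDiff.comp hf1.contDiff
  have hcs' : HasCompactSupport fun x => ((f x : ℝ) : ℂ) :=
    hcs.comp_left (g := fun x : ℝ => (x : ℂ)) Complex.ofReal_zero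
  set F : 𝓢((EuclideanSpace ℝ (Fin r)), ℂ) := hcs'.toSchwartzMap hcd' with hF
  have hFx : ∀ x, F x = ((f x : ℝ) : ℂ) := fun x => rfl
  refine ⟨𝓕⁻ F, fun x hx => ?_, ?_⟩
  · have : 𝓕 (𝓕⁻ F) = F := by simp
    rw [this, hFx, (hf4 x).mp hx, Complex.ofReal_one]
  · rw [← SchwartzMap.integral_norm_sq_fourier (𝓕⁻ F)]
    have : 𝓕 (𝓕⁻ F) = F := by simp
    rw [this]
    have h1 : ∀ x, ‖F x‖ ^ 2 ≤ (U ∩ Metric.ball 0 R).indicator (fun _ => (1 : ℝ)) x := by
      intro x
      rw [hFx, Complex.norm_real]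
      by_cases hx : x ∈ U ∩ Metric.ball 0 R
      · rw [Set.indicator_of_mem hx]
        obtain ⟨h2, h3⟩ := hf2 ⟨x, rfl⟩
        rw [Real.norm_of_nonneg h2]
        exact pow_le_one₀ h2 h3
      · rw [Set.indicator_of_notMem hx]
        rw [← hf3, Function.notMem_support] at hx
        rw [hx]
        simp
    have hm : MeasurableSet (U ∩ Metric.ball (0 : (EuclideanSpace ℝ (Fin r))) R) :=
      (hUo.inter Metric.isOpen_ball).measurableSet
    have hle : volume (U ∩ Metric.ball (0 : (EuclideanSpace ℝ (Fin r))) R) ≤ volume B + ENNReal.ofReal δ :=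
      (measure_mono Set.inter_subset_left).trans hU.le
    have hfin : volume B + ENNReal.ofReal δ ≠ ⊤ := by
      rw [ENNReal.add_ne_top]; exact ⟨hBf, ENNReal.ofReal_ne_top⟩
    calc ∫ x, ‖F x‖ ^ 2 ≤ ∫ x, (U ∩ Metric.ball 0 R).indicator (fun _ => (1 : ℝ)) x := by
          refine integral_mono_of_nonneg (Eventually.of_forall fun x => by positivity) ?_
            (Eventually.of_forall h1)
          exact (integrable_indicator_iff hm).mpr
            (integrableOn_const (lt_of_le_of_lt hle hfin.lt_top).ne)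
      _ = (volume (U ∩ Metric.ball (0 : (EuclideanSpace ℝ (Fin r))) R)).toReal := by
          rw [integral_indicator hm, setIntegral_const, smul_eq_mul, mul_one]
          rfl
      _ ≤ (volume B + ENNReal.ofReal δ).toReal := ENNReal.toReal_mono hfin hle
      _ = _ := by
          rw [ENNReal.toReal_add hBf ENNReal.ofReal_ne_top, ENNReal.toReal_ofReal hδ.le]

/-- the cutoff -/
noncomputable def cut (R : ℝ) (z : Fin r → ℝ) : ℝ := max 0 (min 1 (R + 1 - ‖z‖))

lemma cut_cont (R : ℝ) : Continuous (cut R : (Fin r → ℝ) → ℝ) := by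
  unfold cut
  fun_prop

lemma cut_nonneg (R : ℝ) (z : Fin r → ℝ) : 0 ≤ cut R z := le_max_left _ _

lemma cut_le_one (R : ℝ) (z : Fin r → ℝ) : cut R z ≤ 1 := max_le zero_le_one (min_le_left _ _)

lemma cut_eq_one {R : ℝ} {z : Fin r → ℝ} (h : ‖z‖ ≤ R) : cut R z = 1 := by
  unfold cut
  rw [min_eq_left (by linarith), max_eq_right zero_le_one]

lemma cut_eq_zero {R : ℝ} {z : Fin r → ℝ} (h : R + 1 ≤ ‖z‖) : cut R z = 0 := by
  unfold cut
  rw [max_eq_left]
  exact (min_le_right _ _).trans (by linarith)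

end

/-- **BUMP** -/
theorem t_bump : Pool.Agent.Y767.StBump := by
  intro r B hB δ hδ
  obtain ⟨A, hA⟩ : ∃ A : ℝ, A = (volume B).toReal + δ / 4 := ⟨_, rfl⟩
  have hA0 : 0 < A := by
    rw [hA]
    have : 0 ≤ (volume B).toReal := ENNReal.toReal_nonneg
    linarith
  obtain ⟨η, hη⟩ : ∃ η : ℝ, η = min 1 (δ / (8 * A)) := ⟨_, rfl⟩
  have hη0 : 0 < η := by rw [hη]; exact lt_min one_pos (by positivity)
  have hη1 : η ≤ 1 := by rw [hη]; exact min_le_left _ _
  have hη2 : 8 * A * η ≤ δ := by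
    have : η ≤ δ / (8 * A) := by rw [hη]; exact min_le_right _ _
    rw [le_div_iff₀ (by positivity)] at this
    linarith
  have hmp := PiLp.volume_preserving_toLp (Fin r)
  have hme := (MeasurableEquiv.toLp 2 (Fin r → ℝ)).measurableEmbedding
  have hcont : Continuous (fun z : Fin r → ℝ => (WithLp.toLp 2 z : EuclideanSpace ℝ (Fin r))) :=
    PiLp.continuous_toLp 2 _
  -- the image of `B`
  obtain ⟨B', hB'⟩ : ∃ B' : Set (EuclideanSpace ℝ (Fin r)), B' = WithLp.toLp 2 '' B := ⟨_, rfl⟩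
  have hB'c : IsCompact B' := by rw [hB']; exact hB.image hcont
  have hvol : volume B' = volume B := by
    rw [← hmp.measure_preimage hB'c.measurableSet.nullMeasurableSet, hB']
    congr 1
    exact Set.preimage_image_eq _ (WithLp.toLp_injective 2)
  obtain ⟨g, hg1, hg2⟩ := exists_schwartz B' hB'c (δ := δ / 4) (by positivity)
  rw [hvol, ← hA] at hg2
  obtain ⟨G, hG⟩ : ∃ G : (Fin r → ℝ) → ℂ, G = fun z => g (WithLp.toLp 2 z) := ⟨_, rfl⟩
  have hGc : Continuous G := by rw [hG]; exact g.continuous.comp hcont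
  have hGi : Integrable G := by
    rw [hG]
    exact (hmp.integrable_comp_emb hme).mpr g.integrable
  have hG2i : Integrable (fun z => ‖G z‖ ^ 2) := by
    have h1 : Integrable (fun x : EuclideanSpace ℝ (Fin r) => ‖g x‖ ^ 2) :=
      (g.memLp 2 volume).integrable_norm_pow (by norm_num)
    rw [hG]
    exact (hmp.integrable_comp_emb hme (g := fun x => ‖g x‖ ^ 2)).mpr h1
  have hG2 : ∫ z, ‖G z‖ ^ 2 ≤ A := by
    rw [hG]
    have h1 := hmp.integral_comp hme (fun x => ‖g x‖ ^ 2)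
    refine le_trans (le_of_eq ?_) hg2
    exact h1
  have hF : ∀ θ ∈ B, ∫ z : Fin r → ℝ, G z *
      cexp (-(2 * Real.pi * I * ((∑ i, θ i * z i : ℝ) : ℂ))) = 1 := by
    intro θ hθ
    rw [← hg1 (WithLp.toLp 2 θ) (by rw [hB']; exact ⟨θ, hθ, rfl⟩), SchwartzMap.fourier_coe,
      Real.fourier_eq, hG, ← hmp.integral_comp hme]
    refine integral_congr_ae (Eventually.of_forall fun z => ?_)
    simp only
    rw [Circle.smul_def, smul_eq_mul, mul_comm]
    congr 1
    rw [Real.fourierChar_apply]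
    congr 1
    have h1 : inner ℝ (WithLp.toLp 2 z : EuclideanSpace ℝ (Fin r)) (WithLp.toLp 2 θ) =
        ∑ i, θ i * z i := by
      rw [PiLp.inner_apply]
      refine Finset.sum_congr rfl fun i _ => ?_
      simp
    rw [h1]
    push_cast
    ring
  -- the tail
  have hlim : Tendsto (fun n : ℕ => ∫ z : Fin r → ℝ, (1 - cut (n : ℝ) z) * ‖G z‖) atTop (𝓝 0) := by
    have h1 := tendsto_integral_of_dominated_convergence (μ := volume)
      (F := fun (n : ℕ) (z : Fin r → ℝ) => (1 - cut (n : ℝ) z) * ‖G z‖) (f := fun _ => (0 : ℝ))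
      (fun z => ‖G z‖)
      (fun n => ((continuous_const.sub (cut_cont _)).mul hGc.norm).aestronglyMeasurable)
      hGi.norm
      (fun n => Eventually.of_forall fun z => by
        have h2 := cut_nonneg (n : ℝ) z
        have h3 := cut_le_one (n : ℝ) z
        rw [norm_mul, norm_norm, Real.norm_of_nonneg (by linarith)]
        exact mul_le_of_le_one_left (norm_nonneg _) (by linarith))
      (Eventually.of_forall fun z => by
        refine tendsto_const_nhds.congr' ?_
        obtain ⟨n0, hn0⟩ := exists_nat_ge ‖z‖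
        filter_upwards [eventually_ge_atTop n0] with n hn
        have h2 : ‖z‖ ≤ (n : ℝ) := hn0.trans (by exact_mod_cast hn)
        rw [cut_eq_one h2]
        ring)
    simpa using h1
  obtain ⟨n, hn⟩ := (hlim.eventually_lt_const (show 0 < η / 2 by positivity)).exists
  refine ⟨(n : ℝ) + 1, fun z => ((1 + η : ℝ) : ℂ) * ((cut (n : ℝ) z : ℝ) : ℂ) * G z, ?_, ?_, ?_, ?_⟩
  · exact (continuous_const.mul (Complex.continuous_ofReal.comp (cut_cont _))).mul hGc
  · rintro z ⟨i, hi⟩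
    have h1 : |z i| ≤ ‖z‖ := norm_le_pi_norm z i
    simp only
    rw [cut_eq_zero (by linarith)]
    simp
  · intro θ hθ
    obtain ⟨E, hE⟩ : ∃ E : (Fin r → ℝ) → ℂ, E = fun z =>
      cexp (-(2 * Real.pi * I * ((∑ i, θ i * z i : ℝ) : ℂ))) := ⟨_, rfl⟩
    have hEc : Continuous E := by rw [hE]; fun_prop
    have hE1 : ∀ z, ‖E z‖ = 1 := by
      intro z
      rw [hE]
      have : -(2 * Real.pi * I * ((∑ i, θ i * z i : ℝ) : ℂ)) =
        ((-(2 * Real.pi * ∑ i, θ i * z i) : ℝ) : ℂ) * I := by push_cast; ring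
      simp only
      rw [this, Complex.norm_exp_ofReal_mul_I]
    have h1 : ∀ z, ((1 + η : ℝ) : ℂ) * ((cut (n : ℝ) z : ℝ) : ℂ) * G z * E z =
        ((1 + η : ℝ) : ℂ) * (G z * E z) -
          ((1 + η : ℝ) : ℂ) * (((1 - cut (n : ℝ) z : ℝ) : ℂ) * G z * E z) := by
      intro z
      push_cast
      ring
    have i1 : Integrable fun z => G z * E z :=
      hGi.mul_bdd hEc.aestronglyMeasurable (Eventually.of_forall fun z => (hE1 z).le)
    have i2 : Integrable fun z => ((1 - cut (n : ℝ) z : ℝ) : ℂ) * G z * E z := by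
      have h2 : Integrable fun z => ((1 - cut (n : ℝ) z : ℝ) : ℂ) * (G z * E z) := by
        refine i1.bdd_mul (c := 1) ?_ (Eventually.of_forall fun z => ?_)
        · exact (Complex.continuous_ofReal.comp (continuous_const.sub (cut_cont _))).aestronglyMeasurable
        · have h2 := cut_nonneg (n : ℝ) z
          have h3 := cut_le_one (n : ℝ) z
          rw [Complex.norm_real, Real.norm_of_nonneg (by linarith)]
          linarith
      refine h2.congr (Eventually.of_forall fun z => ?_)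
      simp only
      ring
    have h2 : ∫ z : Fin r → ℝ, ((1 + η : ℝ) : ℂ) * ((cut (n : ℝ) z : ℝ) : ℂ) * G z * E z =
        ((1 + η : ℝ) : ℂ) - ((1 + η : ℝ) : ℂ) *
          ∫ z : Fin r → ℝ, ((1 - cut (n : ℝ) z : ℝ) : ℂ) * G z * E z := by
      simp_rw [h1]
      rw [integral_sub (i1.const_mul _) (i2.const_mul _), integral_const_mul, integral_const_mul]
      congr 1
      have h3 := hF θ hθ
      have h4 : ∫ z : Fin r → ℝ, G z * E z = 1 := by rw [hE]; exact h3
      rw [h4, mul_one]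
    have h3 : ‖∫ z : Fin r → ℝ, ((1 - cut (n : ℝ) z : ℝ) : ℂ) * G z * E z‖ ≤ η / 2 := by
      refine (norm_integral_le_integral_norm _).trans ?_
      refine le_trans (le_of_eq ?_) hn.le
      refine integral_congr_ae (Eventually.of_forall fun z => ?_)
      have h4 := cut_le_one (n : ℝ) z
      simp only
      rw [norm_mul, norm_mul, hE1, mul_one, Complex.norm_real, Real.norm_of_nonneg (by linarith)]
    have h4 : 1 ≤ ‖∫ z : Fin r → ℝ, ((1 + η : ℝ) : ℂ) * ((cut (n : ℝ) z : ℝ) : ℂ) * G z * E z‖ := by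
      rw [h2]
      have h5 := norm_sub_norm_le (((1 + η : ℝ) : ℂ)) (((1 + η : ℝ) : ℂ) *
          ∫ z : Fin r → ℝ, ((1 - cut (n : ℝ) z : ℝ) : ℂ) * G z * E z)
      rw [norm_mul, Complex.norm_real, Real.norm_of_nonneg (by linarith)] at h5
      have h6 : (1 + η) * ‖∫ z : Fin r → ℝ, ((1 - cut (n : ℝ) z : ℝ) : ℂ) * G z * E z‖ ≤
          (1 + η) * (η / 2) := mul_le_mul_of_nonneg_left h3 (by linarith)
      have h7 : (1 + η) * (η / 2) ≤ η := by nlinarith
      linarith
    have h5 : (1 : ℝ) ≤ ‖∫ z : Fin r → ℝ, ((1 + η : ℝ) : ℂ) * ((cut (n : ℝ) z : ℝ) : ℂ) * G z *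
        cexp (-(2 * Real.pi * I * ((∑ i, θ i * z i : ℝ) : ℂ)))‖ := by
      rw [hE] at h4
      exact h4
    exact one_le_pow₀ h5
  · have h1 : ∀ z, ‖((1 + η : ℝ) : ℂ) * ((cut (n : ℝ) z : ℝ) : ℂ) * G z‖ ^ 2 ≤
        (1 + η) ^ 2 * ‖G z‖ ^ 2 := by
      intro z
      have h2 := cut_nonneg (n : ℝ) z
      have h3 := cut_le_one (n : ℝ) z
      rw [norm_mul, norm_mul, Complex.norm_real, Complex.norm_real,
        Real.norm_of_nonneg (by linarith), Real.norm_of_nonneg h2, mul_pow, mul_pow]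
      have h4 : cut (n : ℝ) z ^ 2 ≤ 1 := pow_le_one₀ h2 h3
      have h5 : 0 ≤ (1 + η) ^ 2 := sq_nonneg _
      have h6 : 0 ≤ ‖G z‖ ^ 2 := sq_nonneg _
      calc (1 + η) ^ 2 * cut (n : ℝ) z ^ 2 * ‖G z‖ ^ 2 ≤ (1 + η) ^ 2 * 1 * ‖G z‖ ^ 2 := by gcongr
        _ = _ := by ring
    calc ∫ z : Fin r → ℝ, ‖((1 + η : ℝ) : ℂ) * ((cut (n : ℝ) z : ℝ) : ℂ) * G z‖ ^ 2
        ≤ ∫ z : Fin r → ℝ, (1 + η) ^ 2 * ‖G z‖ ^ 2 :=
          integral_mono_of_nonneg (Eventually.of_forall fun z => by positivity)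
            (hG2i.const_mul _) (Eventually.of_forall h1)
      _ = (1 + η) ^ 2 * ∫ z : Fin r → ℝ, ‖G z‖ ^ 2 := integral_const_mul _ _
      _ ≤ (1 + η) ^ 2 * A := mul_le_mul_of_nonneg_left hG2 (sq_nonneg _)
      _ ≤ (volume B).toReal + δ := by
          have h2 : (1 + η) ^ 2 * A = A + (2 * η + η ^ 2) * A := by ring
          have h3 : η ^ 2 ≤ η := by nlinarith
          have h4 : (2 * η + η ^ 2) * A ≤ 3 * η * A := by nlinarith
          rw [h2]
          rw [hA] at *
          linarith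

end Pool.Agent.Y773.G.GH
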