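import Pool.Agent.A856.GH.GrpG

/-! # The number of the characters -/

set_option autoImplicit false
set_option linter.unusedSectionVars false

open NumberField Complex Filter Topology MeasureTheory
open NumberField.Units

namespace Pool.Agent.Y773.G.GH

open Pool.Agent.Y767 (ax ax_ne tpos_one tpos_mul tpos_of_mul Tq Tq_tp Tq_cop Mq Mq_cop Mq_ne_bot
  Tq_ne_zero pq pq_coe Mq_cancel isUnit_mk coprime_of_isUnit gq gq_coe gq_eq_iff gq_surj cls_one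
  Cls cls cls_eq cls_of_mul cls_pi cls_div ext_mon exists_lam card_dual finite_dual)
open Pool.Agent.Helper503_UI (hK)
open Pool.Agent.Y773.IQ (ne_zero_of_cop cop_mono cop_one cop_congr cop_mul)

lemma norm_char {G : Type} [CommGroup G] [Finite G] (χ : G →* ℂˣ) (g : G) :
    ‖((χ g : ℂˣ) : ℂ)‖ = 1 := by
  have h1 : ((χ g : ℂˣ) : ℂ) ^ Nat.card G = 1 := by
    rw [← Units.val_pow_eq_pow_val, ← map_pow, pow_card_eq_one', map_one, Units.val_one]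
  have h2 : ‖((χ g : ℂˣ) : ℂ)‖ ^ Nat.card G = 1 := by rw [← norm_pow, h1, norm_one]
  exact (pow_eq_one_iff_of_nonneg (norm_nonneg _) Nat.card_pos.ne').mp h2

lemma exists_angle {z : ℂ} (hz : ‖z‖ = 1) : ∃ t : ℝ, z * cexp (2 * Real.pi * I * (t : ℂ)) = 1 := by
  refine ⟨-(Complex.arg z) / (2 * Real.pi), ?_⟩
  have h1 := Complex.norm_mul_exp_arg_mul_I z
  rw [hz, Complex.ofReal_one, one_mul] at h1
  have hpi : (Real.pi : ℂ) ≠ 0 := by exact_mod_cast Real.pi_ne_zero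
  have h2 : 2 * Real.pi * I * ((-(Complex.arg z) / (2 * Real.pi) : ℝ) : ℂ) =
      -((Complex.arg z : ℂ) * I) := by
    push_cast
    field_simp
  rw [h2, Complex.exp_neg, h1]
  have hz0 : z ≠ 0 := by rw [← norm_pos_iff, hz]; exact one_pos
  exact mul_inv_cancel₀ hz0

lemma exp_int_mul (t : ℝ) (m : ℤ) : cexp (2 * Real.pi * I * ((t + m : ℝ) : ℂ)) =
    cexp (2 * Real.pi * I * (t : ℂ)) := by
  rw [Complex.exp_eq_exp_iff_exists_int]
  exact ⟨m, by push_cast; ring⟩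

section

variable {K : Type} [Field K] [NumberField K]

/-- the volume of the unit ball -/
noncomputable def UG.vol (U : UG K) : ℝ := (volume {θ | U.p θ ≤ 1}).toReal

lemma UG.vol_pos (U : UG K) : 0 < U.vol :=
  (t_lat (rank K) U.p U.p_cont U.p_add U.p_smul U.p_zero).1.2

/-- the number of the parameters -/
theorem UG.PQ_card (U : UG K) : ∃ c : ℝ, 0 ≤ c ∧ ∀ V : ℝ, c ≤ V → ∃ N : ℕ,
    Nat.card {m : Fin (rank K) → ℤ | U.p (fun i => (m i : ℝ)) ≤ V} ≤ N ∧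
    ({m : Fin (rank K) → ℤ | U.p (fun i => (m i : ℝ)) ≤ V}).Finite ∧
    ∀ 𝔮 : Ideal (𝓞 K), 𝔮 ≠ ⊥ → (U.PQ 𝔮 V).Finite ∧
      (Nat.card (GQ 𝔮) : ℝ) * ((V - c) ^ rank K * U.vol) ≤ (U.PQ 𝔮 V).ncard ∧
      (U.PQ 𝔮 V).ncard ≤ Nat.card (GQ 𝔮) * N := by
  obtain ⟨-, -, -, c, hc0, hc⟩ := t_lat (rank K) U.p U.p_cont U.p_add U.p_smul U.p_zero
  refine ⟨c, hc0, fun V hV => ?_⟩
  obtain ⟨N, hN⟩ := lat_upper U.p_cont U.p_add U.p_smul U.p_zero V
  have hN0 := hN 0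
  have hf0 := (hc 0 V hV).1
  simp only [Pi.zero_apply, zero_add] at hN0 hf0
  refine ⟨N, hN0, hf0, fun 𝔮 hbot => ?_⟩
  have hG := GQ_fin hbot
  have hD := finite_dual (GQ 𝔮)
  have := Fintype.ofFinite (GQ 𝔮 →* ℂˣ)
  choose th hth using fun (χ : GQ 𝔮 →* ℂˣ) (i : Fin (rank K)) =>
    exists_angle (norm_char χ (gQ 𝔮 (U.eT 𝔮 i)))
  have hfib : ∀ χ : GQ 𝔮 →* ℂˣ, Finite {m : Fin (rank K) → ℤ | U.p (fun i => th χ i + m i) ≤ V} :=
    fun χ => (hc (th χ) V hV).1.to_subtype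
  obtain ⟨f, hf⟩ : ∃ f : (Σ χ : (GQ 𝔮 →* ℂˣ), {m : Fin (rank K) → ℤ | U.p (fun i => th χ i + m i) ≤ V})
      → U.PQ 𝔮 V, ∀ x, ((f x : U.PQ 𝔮 V) : (GQ 𝔮 →* ℂˣ) × (Fin (rank K) → ℝ)) =
        (x.1, fun i => th x.1 i + (x.2 : Fin (rank K) → ℤ) i) := by
    refine ⟨fun x => ⟨(x.1, fun i => th x.1 i + (x.2 : Fin (rank K) → ℤ) i), fun i => ?_, x.2.2⟩,
      fun x => rfl⟩
    change ((x.1 (gQ 𝔮 (U.eT 𝔮 i)) : ℂˣ) : ℂ) *
      cexp (2 * Real.pi * I * ((th x.1 i + (x.2 : Fin (rank K) → ℤ) i : ℝ) : ℂ)) = 1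
    rw [exp_int_mul]
    exact hth x.1 i
  have hbij : Function.Bijective f := by
    constructor
    · rintro ⟨χ, m⟩ ⟨χ', m'⟩ h
      have h1 := congrArg Subtype.val h
      rw [hf, hf] at h1
      obtain ⟨h2, h3⟩ := Prod.ext_iff.mp h1
      simp only at h2 h3
      subst h2
      have h4 : (m : Fin (rank K) → ℤ) = m' := by
        funext i
        have h5 := congrFun h3 i
        have h6 : ((m : Fin (rank K) → ℤ) i : ℝ) = (m' : Fin (rank K) → ℤ) i := by linarith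
        exact_mod_cast h6
      rw [Subtype.ext h4]
    · rintro ⟨⟨χ, θ⟩, h1, h2⟩
      have h3 : ∀ i, ∃ m : ℤ, θ i = th χ i + m := by
        intro i
        have h4 := h1 i
        have h5 := hth χ i
        have h6 : cexp (2 * Real.pi * I * (θ i : ℂ)) = cexp (2 * Real.pi * I * (th χ i : ℂ)) :=
          mul_left_cancel₀ (Units.ne_zero (χ (gQ 𝔮 (U.eT 𝔮 i)))) (h4.trans h5.symm)
        rw [Complex.exp_eq_exp_iff_exists_int] at h6
        obtain ⟨m, hm⟩ := h6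
        refine ⟨m, ?_⟩
        have hpi : (2 * Real.pi * I : ℂ) ≠ 0 := by
          simp [Real.pi_ne_zero]
        have h7 : (θ i : ℂ) = (th χ i : ℂ) + m := by
          apply mul_left_cancel₀ hpi
          rw [hm]; ring
        exact_mod_cast h7
      choose m hm using h3
      have h4 : θ = fun i => th χ i + m i := funext hm
      refine ⟨⟨χ, ⟨m, ?_⟩⟩, ?_⟩
      · rw [Set.mem_ofPred_eq, ← h4]; exact h2
      · apply Subtype.ext
        rw [hf]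
        exact Prod.ext rfl h4.symm
  have hfinPQ : Finite (U.PQ 𝔮 V) := Finite.of_surjective f hbij.2
  have hcard : (U.PQ 𝔮 V).ncard = ∑ χ : (GQ 𝔮 →* ℂˣ),
      Nat.card {m : Fin (rank K) → ℤ | U.p (fun i => th χ i + m i) ≤ V} := by
    rw [← Nat.card_coe_set_eq, ← Nat.card_congr (Equiv.ofBijective f hbij), Nat.card_sigma]
  have hdc : Fintype.card (GQ 𝔮 →* ℂˣ) = Nat.card (GQ 𝔮) := by
    rw [← Nat.card_eq_fintype_card, card_dual]
  refine ⟨Set.toFinite _, ?_, ?_⟩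
  · rw [hcard]
    push_cast
    calc (Nat.card (GQ 𝔮) : ℝ) * ((V - c) ^ rank K * U.vol) =
        ∑ χ : (GQ 𝔮 →* ℂˣ), ((V - c) ^ rank K * U.vol) := by
          rw [Finset.sum_const, Finset.card_univ, hdc, nsmul_eq_mul]
      _ ≤ _ := Finset.sum_le_sum fun χ _ => (hc (th χ) V hV).2
  · rw [hcard]
    calc ∑ χ : (GQ 𝔮 →* ℂˣ), Nat.card {m : Fin (rank K) → ℤ | U.p (fun i => th χ i + m i) ≤ V} ≤
        ∑ χ : (GQ 𝔮 →* ℂˣ), N := Finset.sum_le_sum fun χ _ => hN (th χ)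
      _ = _ := by rw [Finset.sum_const, Finset.card_univ, hdc, smul_eq_mul]

lemma mem_DV_mul {𝔮 : Ideal (𝓞 K)} {V : ℝ} {F : Mq 𝔮 →* ℂˣ} (h : F ∈ DV 𝔮 V)
    (lam : Cls (pq 𝔮) →* ℂˣ) : F * lam.comp (cls (pq 𝔮)) ∈ DV 𝔮 V := by
  obtain ⟨ν, h1, h2, h3⟩ := h
  refine ⟨ν, h1, h2, fun x hx => ?_⟩
  rw [MonoidHom.mul_apply, MonoidHom.comp_apply, cls_pi, map_one, mul_one]
  exact h3 x hx

/-- the number of the characters -/
theorem UG.DV_card (U : UG K) {𝔮 : Ideal (𝓞 K)} (hbot : 𝔮 ≠ ⊥) (htop : 𝔮 ≠ ⊤) {V : ℝ} (hV : 0 ≤ V)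
    (hfin : (U.PQ 𝔮 V).Finite) :
    (DV 𝔮 V).Finite ∧ (DV 𝔮 V).ncard = (U.PQ 𝔮 V).ncard * Nat.card (Cls (pq 𝔮)) := by
  have hC := (cls_fin hbot htop).1
  have hD := finite_dual (Cls (pq 𝔮))
  have := hfin.to_subtype
  choose F hF1 hF2 using fun p : U.PQ 𝔮 V => U.exists_F htop hV p.2
  obtain ⟨f, hf⟩ : ∃ f : U.PQ 𝔮 V × (Cls (pq 𝔮) →* ℂˣ) → DV 𝔮 V, ∀ x,
      ((f x : DV 𝔮 V) : Mq 𝔮 →* ℂˣ) = F x.1 * x.2.comp (cls (pq 𝔮)) :=
    ⟨fun x => ⟨_, mem_DV_mul (hF1 x.1) x.2⟩, fun _ => rfl⟩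
  have hpi : ∀ (p : U.PQ 𝔮 V) (lam : Cls (pq 𝔮) →* ℂˣ) (x : Tq 𝔮),
      (F p * lam.comp (cls (pq 𝔮))) (pq 𝔮 x) = U.phi htop p x := by
    intro p lam x
    rw [MonoidHom.mul_apply, MonoidHom.comp_apply, cls_pi, map_one, mul_one, hF2]
  have hbij : Function.Bijective f := by
    constructor
    · rintro ⟨p, lam⟩ ⟨p', lam'⟩ h
      have h1 := congrArg Subtype.val h
      rw [hf, hf] at h1
      simp only at h1
      have h2 : p = p' := by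
        apply Subtype.ext
        apply U.par_unique hbot htop
        intro x
        rw [← hpi p lam, h1, hpi]
      subst h2
      have h3 : lam = lam' := by
        refine MonoidHom.ext fun c => ?_
        obtain ⟨𝔞, rfl⟩ := cls_rep hbot htop c
        have h4 := DFunLike.congr_fun h1 𝔞
        rw [MonoidHom.mul_apply, MonoidHom.mul_apply] at h4
        exact mul_left_cancel h4
      rw [h3]
    · rintro ⟨G, hG⟩
      obtain ⟨p, hp, h1⟩ := U.exists_par hbot htop hV hG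
      obtain ⟨lam, hlam⟩ := exists_lam (pq 𝔮) G (F ⟨p, hp⟩) (fun a => by rw [h1, hF2])
      refine ⟨(⟨p, hp⟩, lam), ?_⟩
      apply Subtype.ext
      rw [hf]
      refine MonoidHom.ext fun 𝔞 => ?_
      rw [MonoidHom.mul_apply, MonoidHom.comp_apply]
      exact (hlam 𝔞).symm
  have hfinD : Finite (DV 𝔮 V) := Finite.of_surjective f hbij.2
  refine ⟨Set.toFinite _, ?_⟩
  rw [← Nat.card_coe_set_eq, ← Nat.card_congr (Equiv.ofBijective f hbij), Nat.card_prod,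
    Nat.card_coe_set_eq, card_dual]

/-- the number of the characters of conductor `1` -/
theorem UG.DW_card (U : UG K) {𝔮 : Ideal (𝓞 K)} (hbot : 𝔮 ≠ ⊥) (htop : 𝔮 ≠ ⊤) {V : ℝ} (hV : 0 ≤ V)
    (hfin : ({m : Fin (rank K) → ℤ | U.p (fun i => (m i : ℝ)) ≤ V}).Finite) :
    (DW 𝔮 V).Finite ∧ (DW 𝔮 V).ncard ≤
      Nat.card {m : Fin (rank K) → ℤ | U.p (fun i => (m i : ℝ)) ≤ V} * Nat.card (Cls (pq 𝔮)) := by
  classical
  have hC := (cls_fin hbot htop).1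
  have hD := finite_dual (Cls (pq 𝔮))
  -- a character for every `m`
  obtain ⟨F, hF⟩ : ∃ F : (Fin (rank K) → ℤ) → (Mq 𝔮 →* ℂˣ), ∀ m,
      (∃ G : Mq 𝔮 →* ℂˣ, ∀ x : Tq 𝔮, ((G (pq 𝔮 x) : ℂˣ) : ℂ) =
        ax (U.NU (fun i => (m i : ℝ))) ((x : 𝓞 K) : K)) →
      ∀ x : Tq 𝔮, ((F m (pq 𝔮 x) : ℂˣ) : ℂ) = ax (U.NU (fun i => (m i : ℝ))) ((x : 𝓞 K) : K) := by
    refine ⟨fun m => if h : ∃ G : Mq 𝔮 →* ℂˣ, ∀ x : Tq 𝔮, ((G (pq 𝔮 x) : ℂˣ) : ℂ) =
        ax (U.NU (fun i => (m i : ℝ))) ((x : 𝓞 K) : K) then h.choose else 1, fun m h => ?_⟩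
    simp only [dif_pos h]
    exact h.choose_spec
  have hsub : DW 𝔮 V ⊆ (fun x : (Fin (rank K) → ℤ) × (Cls (pq 𝔮) →* ℂˣ) =>
      F x.1 * x.2.comp (cls (pq 𝔮))) ''
      ({m : Fin (rank K) → ℤ | U.p (fun i => (m i : ℝ)) ≤ V} ×ˢ Set.univ) := by
    rintro G ⟨ν, hν, hs, hG⟩
    set θ : Fin (rank K) → ℝ :=
      fun i => (∑ w, ν w * Real.log (w ((U.ε i : (𝓞 K)ˣ) : K))) / (2 * Real.pi) with hθ
    have hNU : U.NU θ = ν := U.NUi ν hs
    have h3 : ∀ i, ∃ m : ℤ, θ i = m := by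
      intro i
      have h1 := hG (U.eT 𝔮 i)
      have h2 : pq 𝔮 (U.eT 𝔮 i) = 1 := pq_uT 𝔮 _
      have h4 : ax (U.NU θ) (((U.eT 𝔮 i : Tq 𝔮) : 𝓞 K) : K) = cexp (2 * Real.pi * I * (θ i : ℂ)) :=
        U.ax_eps θ i
      rw [h2, map_one, Units.val_one, ← hNU, h4] at h1
      have h5 := Complex.exp_eq_one_iff.mp h1.symm
      obtain ⟨m, hm⟩ := h5
      refine ⟨m, ?_⟩
      have hpi : (2 * Real.pi * I : ℂ) ≠ 0 := by
        simp [Real.pi_ne_zero]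
      have h7 : (θ i : ℂ) = m := by
        apply mul_left_cancel₀ hpi
        rw [hm]; ring
      exact_mod_cast h7
    choose m hm using h3
    have h4 : θ = fun i => (m i : ℝ) := funext hm
    rw [h4] at hNU
    have h5 := hF m ⟨G, fun x => by rw [hNU]; exact hG x⟩
    obtain ⟨lam, hlam⟩ := exists_lam (pq 𝔮) G (F m) (fun a => by
      ext; rw [h5, hNU, hG])
    refine ⟨(m, lam), ⟨?_, Set.mem_univ _⟩, ?_⟩
    · rw [Set.mem_ofPred_eq, U.p_le _ hV, hNU]; exact hν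
    · refine MonoidHom.ext fun 𝔞 => ?_
      rw [MonoidHom.mul_apply, MonoidHom.comp_apply]
      exact (hlam 𝔞).symm
  have hf2 : ({m : Fin (rank K) → ℤ | U.p (fun i => (m i : ℝ)) ≤ V} ×ˢ
      (Set.univ : Set (Cls (pq 𝔮) →* ℂˣ))).Finite := hfin.prod Set.finite_univ
  refine ⟨(hf2.image _).subset hsub, ?_⟩
  refine (Set.ncard_le_ncard hsub (hf2.image _)).trans ?_
  refine (Set.ncard_image_le hf2).trans ?_
  rw [Set.ncard_prod, Set.ncard_univ, card_dual, Nat.card_coe_set_eq]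

end

end Pool.Agent.Y773.G.GH
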