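import Pool.Agent.Y767.HC.Unf2n
import Pool.Agent.Y773.HG.Defs

/-!
# Hecke characters of infinite order of arbitrary number fields: definitions

The same as in `Pool.Agent.Y767.HC.Defs`, except that the element `x = 0` is excluded in `ray`
(which matters for totally complex fields and conductor `1`).
-/

set_option autoImplicit false

open NumberField Complex Filter Topology

namespace Pool.Agent.Y773.G.GH

open Pool.Agent.Y767 (ax)

variable (K : Type) [Field K] [NumberField K]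

/-- `ψ` is a Hecke character modulo `𝔣` (not necessarily primitive, any signs at the real places,
trivial angular part at the complex places) of infinity type `ν`, as a function on the ideals. -/
structure IsHM (𝔣 : Ideal (𝓞 K)) (ν : InfinitePlace K → ℝ) (ψ : Ideal (𝓞 K) →*₀ ℂ) : Prop where
  ne_bot : 𝔣 ≠ ⊥
  supp : ∀ 𝔞 : Ideal (𝓞 K), 𝔞 ≠ ⊥ → (ψ 𝔞 ≠ 0 ↔ IsCoprime 𝔞 𝔣)
  ray : ∀ x : 𝓞 K, x ≠ 0 → x - 1 ∈ 𝔣 → TPos K x → ψ (Ideal.span {x}) = ax ν (x : K)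

/-- `ψ` is a primitive Hecke character of finite conductor `𝔣` and infinity type `ν`. -/
structure IsHecke (𝔣 : Ideal (𝓞 K)) (ν : InfinitePlace K → ℝ) (ψ : Ideal (𝓞 K) →*₀ ℂ) : Prop
    extends IsHM K 𝔣 ν ψ where
  prim : ∀ 𝔤 : Ideal (𝓞 K), 𝔤 ∣ 𝔣 → 𝔤 ≠ 𝔣 →
    ∃ x : 𝓞 K, x - 1 ∈ 𝔤 ∧ TPos K x ∧ IsCoprime (Ideal.span {x}) 𝔣 ∧
      ψ (Ideal.span {x}) ≠ ax ν (x : K)

/-- all primitive Hecke characters of finite conductor `𝔣`, normalised by `∑ ν_w = 0`, whose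
infinity type is in the box `|ν_w| ≤ V` -/
def HFam (𝔣 : Ideal (𝓞 K)) (V : ℝ) : Set (Ideal (𝓞 K) →*₀ ℂ) :=
  {ψ | ∃ ν : InfinitePlace K → ℝ, (∀ w, |ν w| ≤ V) ∧ ∑ w, ν w = 0 ∧ IsHecke K 𝔣 ν ψ}

end Pool.Agent.Y773.G.GH
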