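import Pool.Agent.A856.GH.CntG
import Pool.Agent.A856.GH.Bump
import Pool.Agent.Y287.HC.Bes

/-! # The large sieve inequality for the characters modulo `𝔮` of infinity type in a box -/

set_option autoImplicit false
set_option linter.unusedSectionVars false

open NumberField Complex Filter Topology MeasureTheory
open NumberField.Units

namespace Pool.Agent.Y773.G.GH

open Pool.Agent.Y767 (ax ax_ne norm_ax tpos_one tpos_mul tpos_of_mul Tq Tq_tp Tq_cop Mq Mq_cop Mq_ne_bot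
  Tq_ne_zero pq pq_coe Mq_cancel isUnit_mk coprime_of_isUnit gq gq_coe gq_eq_iff gq_surj cls_one
  Cls cls cls_eq cls_of_mul cls_pi cls_div ext_mon exists_lam card_dual finite_dual bes_cls)
open Pool.Agent.Helper503_UI (hK)
open Pool.Agent.Y773.IQ (ne_zero_of_cop cop_mono cop_one cop_congr cop_mul)

section

variable {K : Type} [Field K] [NumberField K]

lemma UG.norm_phi (U : UG K) {𝔮 : Ideal (𝓞 K)} (hbot : 𝔮 ≠ ⊥) (htop : 𝔮 ≠ ⊤)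
    (p : (GQ 𝔮 →* ℂˣ) × (Fin (rank K) → ℝ)) (x : Tq 𝔮) : ‖((U.phi htop p x : ℂˣ) : ℂ)‖ = 1 := by
  have hG := GQ_fin hbot
  rw [U.phi_coe, norm_mul, norm_char, norm_ax, one_mul]

lemma norm_F (U : UG K) {𝔮 : Ideal (𝓞 K)} (hbot : 𝔮 ≠ ⊥) (htop : 𝔮 ≠ ⊤)
    {p : (GQ 𝔮 →* ℂˣ) × (Fin (rank K) → ℝ)} {F : Mq 𝔮 →* ℂˣ}
    (hF : ∀ x : Tq 𝔮, F (pq 𝔮 x) = U.phi htop p x) (z : Mq 𝔮) : ‖((F z : ℂˣ) : ℂ)‖ = 1 := by
  have hC := (cls_fin hbot htop).1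
  have h1 : cls (pq 𝔮) (z ^ Nat.card (Cls (pq 𝔮))) = 1 := by
    rw [map_pow, pow_card_eq_one']
  obtain ⟨t, ht⟩ := cls_one htop h1
  have h2 : F z ^ Nat.card (Cls (pq 𝔮)) = U.phi htop p t := by
    rw [← map_pow, ht, hF]
  have h3 : ‖((F z : ℂˣ) : ℂ)‖ ^ Nat.card (Cls (pq 𝔮)) = 1 := by
    rw [← norm_pow, ← Units.val_pow_eq_pow_val, h2, U.norm_phi hbot htop]
  exact (pow_eq_one_iff_of_nonneg (norm_nonneg _) Nat.card_pos.ne').mp h3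

lemma absNorm_span_pos {z : 𝓞 K} (hz : z ≠ 0) : 0 < Ideal.absNorm (Ideal.span {z}) := by
  refine Nat.pos_of_ne_zero ?_
  rw [Ne, Ideal.absNorm_eq_zero_iff, Ideal.span_singleton_eq_bot]; exact hz

/-- the class of a product of units -/
lemma UG.gQ_prod (U : UG K) (𝔮 : Ideal (𝓞 K)) (m : Fin (rank K) → ℤ) :
    ∏ i, gQ 𝔮 (U.eT 𝔮 i) ^ m i = gQ 𝔮 (uT 𝔮 (∏ i, U.eU i ^ m i)) := by
  change _ = ((gQ 𝔮).comp (uT 𝔮)) (∏ i, U.eU i ^ m i)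
  rw [map_prod]
  refine Finset.prod_congr rfl fun i _ => ?_
  rw [map_zpow]
  rfl

/-- the separation -/
lemma UG.sepq (U : UG K) {ρ C M : ℝ} (hC : 1 ≤ C)
    (hsep : ∀ (x x' : 𝓞 K) (ζ : (𝓞 K)ˣ) (m : Fin (rank K) → ℤ), x ≠ 0 → x' ≠ 0 → ζ ∈ torsion K →
      (∀ i, |U.yc x i + m i - U.yc x' i| ≤ 2 * ρ) →
      (Ideal.absNorm (Ideal.span {x * ((ζ * ∏ i, U.ε i ^ m i : (𝓞 K)ˣ) : 𝓞 K) - x'}) : ℝ) ≤
        C * max (Ideal.absNorm (Ideal.span {x}) : ℝ) (Ideal.absNorm (Ideal.span {x'}) : ℝ))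
    {𝔮 : Ideal (𝓞 K)} (hbot : 𝔮 ≠ ⊥) (htop : 𝔮 ≠ ⊤) (hM : C * M < Ideal.absNorm 𝔮)
    {x x' 𝔟 : Mq 𝔮} {t t' : Tq 𝔮} (hx : (Ideal.absNorm (x : Ideal (𝓞 K)) : ℝ) ≤ M)
    (hx' : (Ideal.absNorm (x' : Ideal (𝓞 K)) : ℝ) ≤ M)
    (ht : x * 𝔟 = pq 𝔮 t) (ht' : x' * 𝔟 = pq 𝔮 t') (htt : x = x' → t = t')
    {m : Fin (rank K) → ℤ} (h1 : gQ 𝔮 t * ∏ i, gQ 𝔮 (U.eT 𝔮 i) ^ m i = gQ 𝔮 t')
    (h2 : ∀ i, |U.yc (t : 𝓞 K) i + m i - U.yc (t' : 𝓞 K) i| ≤ 2 * ρ) : x = x' ∧ m = 0 := by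
  have hcan := Mq_cancel htop
  rw [U.gQ_prod, ← map_mul] at h1
  obtain ⟨ζ, hζ1, hζ2, hζ3⟩ := gQ_eq h1
  have ht0 := Tq_ne_zero htop t
  have ht0' := Tq_ne_zero htop t'
  obtain ⟨u, hu⟩ : ∃ u : (𝓞 K)ˣ, u = ζ * ∏ i, U.ε i ^ m i := ⟨_, rfl⟩
  have h3 := hsep (t : 𝓞 K) (t' : 𝓞 K) ζ m ht0 ht0' hζ1 h2
  rw [← hu] at h3
  -- membership in `𝔮`
  have h4 : (t : 𝓞 K) * (u : 𝓞 K) - (t' : 𝓞 K) ∈ 𝔮 := by
    have e1 : ((t * uT 𝔮 (∏ i, U.eU i ^ m i) : Tq 𝔮) : 𝓞 K) * (ζ : 𝓞 K) =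
        (t : 𝓞 K) * (u : 𝓞 K) := by
      rw [Submonoid.coe_mul, uT_coe, Subgroup.val_finsetProd]
      simp only [Subgroup.coe_zpow]
      rw [hu, Units.val_mul, mul_assoc, mul_comm (ζ : 𝓞 K)]
      rfl
    rw [← e1]; exact hζ3
  have hN : ∀ {y : Mq 𝔮} {s : Tq 𝔮}, y * 𝔟 = pq 𝔮 s → (Ideal.absNorm (Ideal.span {(s : 𝓞 K)}) : ℝ) =
      Ideal.absNorm (y : Ideal (𝓞 K)) * Ideal.absNorm (𝔟 : Ideal (𝓞 K)) := by
    intro y s h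
    have h5 := congrArg Subtype.val h
    rw [pq_coe, Submonoid.coe_mul] at h5
    rw [← h5, map_mul]
    push_cast; rfl
  have hmem : ∀ {y : Mq 𝔮} {s : Tq 𝔮}, y * 𝔟 = pq 𝔮 s → (s : 𝓞 K) ∈ (𝔟 : Ideal (𝓞 K)) := by
    intro y s h
    have h5 := congrArg Subtype.val h
    rw [pq_coe, Submonoid.coe_mul] at h5
    have h6 : (s : 𝓞 K) ∈ (y : Ideal (𝓞 K)) * (𝔟 : Ideal (𝓞 K)) := by
      rw [h5]; exact Ideal.mem_span_singleton_self _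
    exact Pool.Agent.Helper503_UI.mem_r h6
  have h5 : (t : 𝓞 K) * (u : 𝓞 K) - (t' : 𝓞 K) ∈ (𝔟 : Ideal (𝓞 K)) :=
    sub_mem (Ideal.mul_mem_right _ _ (hmem ht)) (hmem ht')
  have hzero : (t : 𝓞 K) * (u : 𝓞 K) - (t' : 𝓞 K) = 0 := by
    by_contra hne
    have h6 : Ideal.span {(t : 𝓞 K) * (u : 𝓞 K) - (t' : 𝓞 K)} ≤ 𝔮 * (𝔟 : Ideal (𝓞 K)) := by
      rw [Ideal.span_singleton_le_iff_mem, ← Ideal.inf_eq_mul_of_isCoprime (Mq_cop 𝔟).symm]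
      exact ⟨h4, h5⟩
    have h7 : Ideal.absNorm 𝔮 * Ideal.absNorm (𝔟 : Ideal (𝓞 K)) ≤
        Ideal.absNorm (Ideal.span {(t : 𝓞 K) * (u : 𝓞 K) - (t' : 𝓞 K)}) := by
      rw [← map_mul]
      exact Nat.le_of_dvd (absNorm_span_pos hne) (Ideal.absNorm_dvd_absNorm_of_le h6)
    have h8 : (Ideal.absNorm 𝔮 : ℝ) * Ideal.absNorm (𝔟 : Ideal (𝓞 K)) ≤
        C * max (Ideal.absNorm (Ideal.span {(t : 𝓞 K)}) : ℝ)
          (Ideal.absNorm (Ideal.span {(t' : 𝓞 K)}) : ℝ) := by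
      refine le_trans ?_ h3
      exact_mod_cast h7
    have hb : (0 : ℝ) < Ideal.absNorm (𝔟 : Ideal (𝓞 K)) := by
      have : Ideal.absNorm (𝔟 : Ideal (𝓞 K)) ≠ 0 := by
        rw [Ne, Ideal.absNorm_eq_zero_iff]; exact Mq_ne_bot htop 𝔟
      exact_mod_cast Nat.pos_of_ne_zero this
    have h9 : max (Ideal.absNorm (Ideal.span {(t : 𝓞 K)}) : ℝ)
          (Ideal.absNorm (Ideal.span {(t' : 𝓞 K)}) : ℝ) ≤ M * Ideal.absNorm (𝔟 : Ideal (𝓞 K)) := by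
      rw [hN ht, hN ht']
      exact max_le (mul_le_mul_of_nonneg_right hx hb.le) (mul_le_mul_of_nonneg_right hx' hb.le)
    have h10 : C * max (Ideal.absNorm (Ideal.span {(t : 𝓞 K)}) : ℝ)
          (Ideal.absNorm (Ideal.span {(t' : 𝓞 K)}) : ℝ) ≤ C * (M * Ideal.absNorm (𝔟 : Ideal (𝓞 K))) :=
      mul_le_mul_of_nonneg_left h9 (by linarith)
    have h11 : C * M * Ideal.absNorm (𝔟 : Ideal (𝓞 K)) <
        Ideal.absNorm 𝔮 * Ideal.absNorm (𝔟 : Ideal (𝓞 K)) := mul_lt_mul_of_pos_right hM hb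
    linarith
  have h6 : (t : 𝓞 K) * (u : 𝓞 K) = (t' : 𝓞 K) := sub_eq_zero.mp hzero
  have hxx : x = x' := by
    have h7 : pq 𝔮 t = pq 𝔮 t' := by
      apply Subtype.ext
      rw [pq_coe, pq_coe, ← h6, Ideal.span_singleton_mul_right_unit u.isUnit]
    rw [← ht, ← ht'] at h7
    exact mul_right_cancel h7
  refine ⟨hxx, ?_⟩
  have h7 := htt hxx
  rw [← h7] at h6
  have h8 : (u : 𝓞 K) = 1 := by
    apply mul_left_cancel₀ ht0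
    rw [h6, mul_one]
  have h9 : u = 1 := Units.ext h8
  apply U.ind
  have h10 : ∏ i, U.ε i ^ m i = ζ⁻¹ := by
    rw [eq_comm, inv_eq_iff_mul_eq_one, ← hu, h9]
  rw [h10]
  exact (torsion K).inv_mem hζ1

/-- **the large sieve** -/
theorem UG.ls (U : UG K) {V : ℝ} (hV : 0 ≤ V) {δ : ℝ} (hδ : 0 < δ) : ∃ C : ℝ, 1 ≤ C ∧
    ∀ (𝔮 : Ideal (𝓞 K)) (_ : 𝔮 ≠ ⊥) (_ : 𝔮 ≠ ⊤) (Y : Finset (Mq 𝔮 →* ℂˣ)),
    (∀ F ∈ Y, F ∈ DV 𝔮 V) → ∀ (S : Finset (Mq 𝔮)) (M : ℝ),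
    (∀ x ∈ S, (Ideal.absNorm (x : Ideal (𝓞 K)) : ℝ) ≤ M) → C * M < Ideal.absNorm 𝔮 →
    ∀ a : Mq 𝔮 → ℂ, ∑ F ∈ Y, ‖∑ x ∈ S, a x * ((F x : ℂˣ) : ℂ)‖ ^ 2 ≤
      Nat.card (Cls (pq 𝔮)) * (Nat.card (GQ 𝔮) * (V ^ rank K * U.vol + δ)) *
        ∑ x ∈ S, ‖a x‖ ^ 2 := by
  obtain ⟨-, hcomp, hvol, -⟩ := t_lat (rank K) U.p U.p_cont U.p_add U.p_smul U.p_zero
  obtain ⟨ρ₀, g, hgc, hg0₀, hg1, hgI⟩ := t_bump (rank K) {θ | U.p θ ≤ V} (hcomp V hV) δ hδ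
  rw [hvol V hV] at hgI
  obtain ⟨ρ, hρ⟩ : ∃ ρ : ℝ, ρ = max ρ₀ 0 := ⟨_, rfl⟩
  have hρ0 : 0 ≤ ρ := by rw [hρ]; exact le_max_right _ _
  have hg0 : ∀ z, (∃ i, ρ < |z i|) → g z = 0 := fun z ⟨i, hi⟩ =>
    hg0₀ z ⟨i, lt_of_le_of_lt (by rw [hρ]; exact le_max_left _ _) hi⟩
  obtain ⟨C, hC, hsep⟩ := U.sep hρ0
  refine ⟨C, hC, fun 𝔮 hbot htop Y hY S M hM hCM a => ?_⟩
  classical
  have hcf := (cls_fin hbot htop).1
  have := Fintype.ofFinite (Cls (pq 𝔮))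
  have hGf := GQ_fin hbot
  have := Fintype.ofFinite (GQ 𝔮)
  have hcan := Mq_cancel htop
  choose! par hpar1 hpar2 using fun F (hF : F ∈ Y) => U.exists_par hbot htop hV (hY F hF)
  -- representatives of the classes
  choose 𝔟 h𝔟 using fun c : Cls (pq 𝔮) => cls_rep hbot htop c⁻¹
  have ht : ∀ x : Mq 𝔮, ∃ t : Tq 𝔮, x * 𝔟 (cls (pq 𝔮) x) = pq 𝔮 t := by
    intro x
    refine cls_one htop ?_
    rw [map_mul, h𝔟, mul_inv_cancel]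
  choose t ht using ht
  obtain ⟨P, hP⟩ : ∃ P : Finset ((GQ 𝔮 →* ℂˣ) × (Fin (rank K) → ℝ)), P = Y.image par := ⟨_, rfl⟩
  -- one member for every parameter
  have hmem : ∀ p ∈ P, ∃ F ∈ Y, par F = p := by
    intro p hp
    rw [hP] at hp
    exact Finset.mem_image.mp hp
  choose! Fp hFp1 hFp2 using hmem
  have hPmem : ∀ p ∈ P, p ∈ U.PQ 𝔮 V := by
    intro p hp
    rw [← hFp2 p hp]; exact hpar1 _ (hFp1 p hp)
  have hFp3 : ∀ p ∈ P, ∀ x : Tq 𝔮, Fp p (pq 𝔮 x) = U.phi htop p x := by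
    intro p hp x
    have := hpar2 (Fp p) (hFp1 p hp) x
    rwa [hFp2 p hp] at this
  rw [← Finset.sum_fiberwise_of_maps_to (g := par) (t := P) (fun F hF => by
    rw [hP]; exact Finset.mem_image_of_mem _ hF)]
  -- the fibres
  have hfib : ∀ p ∈ P, ∑ F ∈ Y.filter (fun F => par F = p), ‖∑ x ∈ S, a x * ((F x : ℂˣ) : ℂ)‖ ^ 2 ≤
      Fintype.card (Cls (pq 𝔮)) * ∑ c : Cls (pq 𝔮),
        ‖∑ x ∈ S.filter (fun x => cls (pq 𝔮) x = c), a x * ((Fp p x : ℂˣ) : ℂ)‖ ^ 2 := by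
    intro p hp
    refine bes_cls Pool.Agent.Y287.HC.t_bes (pq 𝔮) (Fp p) _ (fun F hF b => ?_) S a
    obtain ⟨h1, h2⟩ := Finset.mem_filter.mp hF
    rw [hpar2 F h1, h2, hFp3 p hp]
  refine (Finset.sum_le_sum hfib).trans ?_
  rw [← Finset.mul_sum, Finset.sum_comm, ← Nat.card_eq_fintype_card, mul_assoc]
  refine mul_le_mul_of_nonneg_left ?_ (Nat.cast_nonneg _)
  -- one class
  have hclass : ∀ c : Cls (pq 𝔮), ∑ p ∈ P, ‖∑ x ∈ S.filter (fun x => cls (pq 𝔮) x = c),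
      a x * ((Fp p x : ℂˣ) : ℂ)‖ ^ 2 ≤ (Nat.card (GQ 𝔮) * (V ^ rank K * U.vol + δ)) *
        ∑ x ∈ S.filter (fun x => cls (pq 𝔮) x = c), ‖a x‖ ^ 2 := by
    intro c
    have h1 := Pool.Agent.Y287.HC.t_bes (rank K) (GQ 𝔮) (fun i => gQ 𝔮 (U.eT 𝔮 i)) ρ g hgc hg0
      (Mq 𝔮) (S.filter (fun x => cls (pq 𝔮) x = c)) (fun x => gQ 𝔮 (t x))
      (fun x => U.yc ((t x : Tq 𝔮) : 𝓞 K)) (by
        intro x hx x' hx' m h1 h2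
        obtain ⟨hx1, hx2⟩ := Finset.mem_filter.mp hx
        obtain ⟨hx1', hx2'⟩ := Finset.mem_filter.mp hx'
        have e1 := ht x
        have e2 := ht x'
        rw [hx2] at e1
        rw [hx2'] at e2
        exact U.sepq hC hsep hbot htop hCM (hM x hx1) (hM x' hx1') e1 e2 (fun h => by rw [h]) h1 h2)
      P (fun p hp i => (hPmem p hp).1 i) a
    have h2 : ∀ p ∈ P, ‖∑ x ∈ S.filter (fun x => cls (pq 𝔮) x = c), a x * ((Fp p x : ℂˣ) : ℂ)‖ ^ 2 ≤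
        ‖∫ z : Fin (rank K) → ℝ, g z *
          cexp (-(2 * Real.pi * I * ((∑ i, p.2 i * z i : ℝ) : ℂ)))‖ ^ 2 *
        ‖∑ x ∈ S.filter (fun x => cls (pq 𝔮) x = c), a x * ((p.1 (gQ 𝔮 (t x)) : ℂˣ) : ℂ) *
          cexp (2 * Real.pi * I * ((∑ i, p.2 i * U.yc ((t x : Tq 𝔮) : 𝓞 K) i : ℝ) : ℂ))‖ ^ 2 := by
      intro p hp
      have h3 : ‖∑ x ∈ S.filter (fun x => cls (pq 𝔮) x = c), a x * ((Fp p x : ℂˣ) : ℂ)‖ =
          ‖∑ x ∈ S.filter (fun x => cls (pq 𝔮) x = c), a x * ((p.1 (gQ 𝔮 (t x)) : ℂˣ) : ℂ) *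
          cexp (2 * Real.pi * I * ((∑ i, p.2 i * U.yc ((t x : Tq 𝔮) : 𝓞 K) i : ℝ) : ℂ))‖ := by
        have h4 : (∑ x ∈ S.filter (fun x => cls (pq 𝔮) x = c), a x * ((Fp p x : ℂˣ) : ℂ)) *
            ((Fp p (𝔟 c) : ℂˣ) : ℂ) =
            ∑ x ∈ S.filter (fun x => cls (pq 𝔮) x = c), a x * ((p.1 (gQ 𝔮 (t x)) : ℂˣ) : ℂ) *
          cexp (2 * Real.pi * I * ((∑ i, p.2 i * U.yc ((t x : Tq 𝔮) : 𝓞 K) i : ℝ) : ℂ)) := by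
          rw [Finset.sum_mul]
          refine Finset.sum_congr rfl fun x hx => ?_
          have hx2 := (Finset.mem_filter.mp hx).2
          have e1 := ht x
          rw [hx2] at e1
          rw [← U.ax_yc p.2 (Tq_ne_zero htop (t x)), mul_assoc, mul_assoc, ← Units.val_mul,
            ← map_mul, e1, hFp3 p hp, U.phi_coe]
        rw [← h4, norm_mul, norm_F U hbot htop (hFp3 p hp), mul_one]
      rw [h3]
      have h5 := hg1 p.2 (hPmem p hp).2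
      exact le_mul_of_one_le_left (sq_nonneg _) h5
    refine (Finset.sum_le_sum h2).trans (h1.trans ?_)
    rw [← Nat.card_eq_fintype_card]
    refine mul_le_mul_of_nonneg_right ?_ (Finset.sum_nonneg fun _ _ => sq_nonneg _)
    exact mul_le_mul_of_nonneg_left hgI (Nat.cast_nonneg _)
  refine (Finset.sum_le_sum fun c _ => hclass c).trans (le_of_eq ?_)
  rw [← Finset.mul_sum, Finset.sum_fiberwise S (cls (pq 𝔮))]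

end

end Pool.Agent.Y773.G.GH
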