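import Pool.Agent.A856.GH.RayG
import Pool.Agent.A856.GH.LsG
import Pool.Agent.Helper503_UI.Fam

/-! # The primitive Hecke characters of conductor dividing `𝔮` and of infinity type in a box -/

set_option autoImplicit false
set_option linter.unusedSectionVars false

open NumberField Filter Topology MeasureTheory
open NumberField.Units

namespace Pool.Agent.Y773.G.GH

open Pool.Agent.Y773 (TPos VM cc)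
open Pool.Agent.Y772.DK (NN NN_finite cc_mul)
open Pool.Agent.Y767 (ax Mq Mq_cop Mq_ne_bot Mq_cancel Tq Tq_tp Tq_cop Tq_ne_zero pq pq_coe Cls cls cK)
open Pool.Agent.Helper503_UI (hK)
open Pool.Agent.Y773.IQ (ne_zero_of_cop cop_mono cop_one cop_congr cop_mul absNorm_pos'
  toM' tM card_units_le_norm dv dv_finite mem_NN IM mem_IM sum_IM
  sum_cc sq_cK sum_sq cop_of_norm)

section

variable {K : Type} [Field K] [NumberField K]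

/-- the primitive Hecke characters of finite conductor `𝔣 ∣ 𝔮`, `𝔣 ≠ 1`, and of infinity type in
the box `|ν_w| ≤ V` -/
def FamH (𝔮 : Ideal (𝓞 K)) (V : ℝ) : Set (Ideal (𝓞 K) →*₀ ℂ) :=
  {ψ | ∃ (𝔣 : Ideal (𝓞 K)) (ν : InfinitePlace K → ℝ), 𝔣 ∣ 𝔮 ∧ 𝔣 ≠ ⊤ ∧ (∀ w, |ν w| ≤ V) ∧
    ∑ w, ν w = 0 ∧ IsHecke K 𝔣 ν ψ}

lemma FamH_ne_zero {𝔮 : Ideal (𝓞 K)} {V : ℝ} (htop : 𝔮 ≠ ⊤) {ψ : Ideal (𝓞 K) →*₀ ℂ}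
    (h : ψ ∈ FamH 𝔮 V) {𝔞 : Ideal (𝓞 K)} (h𝔞 : IsCoprime 𝔞 𝔮) : ψ 𝔞 ≠ 0 := by
  obtain ⟨𝔣, ν, h1, h2, -, -, h3⟩ := h
  exact (h3.supp _ (Mq_ne_bot htop ⟨𝔞, h𝔞⟩)).mpr (cop_mono (Ideal.dvd_iff_le.mp h1) h𝔞)

lemma tM_coeH {𝔮 : Ideal (𝓞 K)} {V : ℝ} (htop : 𝔮 ≠ ⊤) {ψ : Ideal (𝓞 K) →*₀ ℂ}
    (h : ψ ∈ FamH 𝔮 V) (x : Mq 𝔮) : ((tM 𝔮 ψ x : ℂˣ) : ℂ) = ψ (x : Ideal (𝓞 K)) := by
  have h1 : ∀ x : Mq 𝔮, ψ (x : Ideal (𝓞 K)) ≠ 0 := fun x => FamH_ne_zero htop h (Mq_cop x)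
  unfold Pool.Agent.Y773.IQ.tM
  rw [dif_pos h1]
  rfl

lemma tM_memH {𝔮 : Ideal (𝓞 K)} {V : ℝ} (htop : 𝔮 ≠ ⊤)
    {ψ : Ideal (𝓞 K) →*₀ ℂ} (h : ψ ∈ FamH 𝔮 V) : tM 𝔮 ψ ∈ DV 𝔮 V := by
  obtain ⟨𝔣, ν, h1, h2, hν, hs, h3⟩ := h
  refine ⟨ν, hν, hs, fun x hx => ?_⟩
  rw [tM_coeH htop ⟨𝔣, ν, h1, h2, hν, hs, h3⟩, pq_coe]
  exact h3.ray x (Tq_ne_zero htop x) (Ideal.dvd_iff_le.mp h1 hx) (Tq_tp x)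

lemma tM_injH {𝔮 : Ideal (𝓞 K)} {V : ℝ} (hbot : 𝔮 ≠ ⊥) (htop : 𝔮 ≠ ⊤) :
    Set.InjOn (tM 𝔮) (FamH 𝔮 V) := by
  intro ψ h ψ' h' he
  have he' : ∀ 𝔞, IsCoprime 𝔞 𝔮 → ψ 𝔞 = ψ' 𝔞 := by
    intro 𝔞 h𝔞
    have h1 := tM_coeH htop h ⟨𝔞, h𝔞⟩
    have h2 := tM_coeH htop h' ⟨𝔞, h𝔞⟩
    rw [he] at h1
    exact h1.symm.trans h2
  obtain ⟨𝔣, ν, h1, h2, hν, hs, h3⟩ := h
  obtain ⟨𝔣', ν', h1', h2', hν', hs', h3'⟩ := h'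
  exact (prim_uniqueH hbot h3 h3' hs hs' h1 h1' h2 h2' he').1

lemma FamH_finite {𝔮 : Ideal (𝓞 K)} {V : ℝ} (hbot : 𝔮 ≠ ⊥) (htop : 𝔮 ≠ ⊤)
    (hf : (DV 𝔮 V).Finite) : (FamH 𝔮 V).Finite ∧ (FamH 𝔮 V).ncard ≤ (DV 𝔮 V).ncard := by
  have hm : Set.MapsTo (tM 𝔮) (FamH 𝔮 V) (DV 𝔮 V) := fun ψ h => tM_memH htop h
  exact ⟨Set.Finite.of_injOn hm (tM_injH hbot htop) hf,
    Set.ncard_le_ncard_of_injOn _ hm (tM_injH hbot htop) hf⟩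

lemma FamH_lower {𝔮 : Ideal (𝓞 K)} {V : ℝ} (hbot : 𝔮 ≠ ⊥) (htop : 𝔮 ≠ ⊤)
    (hf : (DV 𝔮 V).Finite) (hf0 : (DW 𝔮 V).Finite) :
    (DV 𝔮 V).ncard ≤ (FamH 𝔮 V).ncard + (DW 𝔮 V).ncard := by
  have hsub : DV 𝔮 V ⊆ tM 𝔮 '' FamH 𝔮 V ∪ DW 𝔮 V := by
    rintro F ⟨ν, hν, hs, hF⟩
    rcases exists_primH hbot htop F ν (fun x hx h1 h2 => hF ⟨x, h2, hx⟩ h1) with
      h | ⟨𝔣, ψ, h3, h4, h5, h6⟩
    · exact Or.inr ⟨ν, hν, hs, fun x => h x (Tq_cop x) (Tq_tp x)⟩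
    · left
      have hψ : ψ ∈ FamH 𝔮 V := ⟨𝔣, ν, h3, h4, hν, hs, h5⟩
      refine ⟨ψ, hψ, ?_⟩
      ext x
      rw [tM_coeH htop hψ, h6]
  have hfF := (FamH_finite hbot htop hf).1
  refine (Set.ncard_le_ncard hsub ((hfF.image _).union hf0)).trans ?_
  refine (Set.ncard_union_le _ _).trans ?_
  exact Nat.add_le_add_right (Set.ncard_image_le hfF) _

open Classical in
/-- the conductor of a member of the family -/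
noncomputable def cdH (𝔮 : Ideal (𝓞 K)) (V : ℝ) (ψ : Ideal (𝓞 K) →*₀ ℂ) : Ideal (𝓞 K) :=
  if h : ψ ∈ FamH 𝔮 V then h.choose else ⊤

lemma cdH_spec {𝔮 : Ideal (𝓞 K)} {V : ℝ} {ψ : Ideal (𝓞 K) →*₀ ℂ} (h : ψ ∈ FamH 𝔮 V) :
    ∃ ν : InfinitePlace K → ℝ, cdH 𝔮 V ψ ∣ 𝔮 ∧ cdH 𝔮 V ψ ≠ ⊤ ∧ (∀ w, |ν w| ≤ V) ∧
    ∑ w, ν w = 0 ∧ IsHecke K (cdH 𝔮 V ψ) ν ψ := by
  unfold cdH
  rw [dif_pos h]
  exact h.choose_spec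

lemma card_GQ_le {𝔣 : Ideal (𝓞 K)} (hbot : 𝔣 ≠ ⊥) : Nat.card (GQ 𝔣) ≤ Ideal.absNorm 𝔣 := by
  have : Finite (𝓞 K ⧸ 𝔣) := Ideal.finiteQuotientOfFreeOfNeBot 𝔣 hbot
  exact (Nat.card_le_card_of_surjective _ (mQ_surj 𝔣)).trans (card_units_le_norm hbot)

/-- few characters have a small conductor -/
lemma small_condH {V : ℝ} (N : ℕ)
    (hN : ∀ 𝔣 : Ideal (𝓞 K), 𝔣 ≠ ⊥ → 𝔣 ≠ ⊤ → (DV 𝔣 V).Finite ∧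
      (DV 𝔣 V).ncard ≤ Ideal.absNorm 𝔣 * N)
    {𝔮 : Ideal (𝓞 K)} (hbot : 𝔮 ≠ ⊥)
    (Z : ℝ) (hZ : 0 ≤ Z) (S : Finset (Ideal (𝓞 K) →*₀ ℂ))
    (hS : ∀ ψ ∈ S, ψ ∈ FamH 𝔮 V ∧ (Ideal.absNorm (cdH 𝔮 V ψ) : ℝ) ≤ Z) :
    (S.card : ℝ) ≤ (dv 𝔮).ncard * (Z * N) := by
  classical
  have h1 := Finset.card_eq_sum_card_image (cdH 𝔮 V) S
  rw [h1]
  push_cast
  have h2 : ∀ 𝔡 ∈ S.image (cdH 𝔮 V), ((S.filter (fun ψ => cdH 𝔮 V ψ = 𝔡)).card : ℝ) ≤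
      Z * N := by
    intro 𝔡 h𝔡
    obtain ⟨ψ, hψ, rfl⟩ := Finset.mem_image.mp h𝔡
    obtain ⟨h3, h4⟩ := hS ψ hψ
    obtain ⟨ν, h5, h6, hν, hs, h7⟩ := cdH_spec h3
    obtain ⟨h8, h9⟩ := hN _ h7.ne_bot h6
    obtain ⟨h8', h9'⟩ := FamH_finite h7.ne_bot h6 h8
    have h10 : (S.filter (fun ψ' => cdH 𝔮 V ψ' = cdH 𝔮 V ψ)).card ≤
        Ideal.absNorm (cdH 𝔮 V ψ) * N := by
      refine le_trans ?_ (h9'.trans h9)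
      rw [Set.ncard_eq_toFinset_card _ h8']
      refine Finset.card_le_card fun ψ' hψ' => ?_
      obtain ⟨h11, h12⟩ := Finset.mem_filter.mp hψ'
      rw [Set.Finite.mem_toFinset]
      obtain ⟨ν', h5', h6', hν', hs', h7'⟩ := cdH_spec (hS ψ' h11).1
      rw [h12] at h7' h6'
      exact ⟨_, ν', dvd_refl _, h6', hν', hs', h7'⟩
    have h13 : ((S.filter (fun ψ' => cdH 𝔮 V ψ' = cdH 𝔮 V ψ)).card : ℝ) ≤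
        (Ideal.absNorm (cdH 𝔮 V ψ) : ℝ) * N := by exact_mod_cast h10
    exact h13.trans (mul_le_mul_of_nonneg_right h4 (Nat.cast_nonneg _))
  refine (Finset.sum_le_sum h2).trans ?_
  rw [Finset.sum_const, nsmul_eq_mul]
  refine mul_le_mul_of_nonneg_right ?_ (by positivity)
  have h3 : (S.image (cdH 𝔮 V)).card ≤ (dv 𝔮).ncard := by
    rw [Set.ncard_eq_toFinset_card _ (dv_finite hbot)]
    refine Finset.card_le_card fun 𝔡 h𝔡 => ?_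
    obtain ⟨ψ, hψ, rfl⟩ := Finset.mem_image.mp h𝔡
    rw [Set.Finite.mem_toFinset]
    obtain ⟨ν, h5, -⟩ := cdH_spec (hS ψ hψ).1
    exact h5
  exact_mod_cast h3

/-- the large sieve for the coefficients -/
theorem ls_ccH {V B C : ℝ} {𝔮 : Ideal (𝓞 K)} (hbot : 𝔮 ≠ ⊥) (htop : 𝔮 ≠ ⊤)
    (hls : ∀ (Y : Finset (Mq 𝔮 →* ℂˣ)), (∀ F ∈ Y, F ∈ DV 𝔮 V) → ∀ (S : Finset (Mq 𝔮)) (M : ℝ),
      (∀ x ∈ S, (Ideal.absNorm (x : Ideal (𝓞 K)) : ℝ) ≤ M) → C * M < Ideal.absNorm 𝔮 →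
      ∀ a : Mq 𝔮 → ℂ, ∑ F ∈ Y, ‖∑ x ∈ S, a x * ((F x : ℂˣ) : ℂ)‖ ^ 2 ≤ B * ∑ x ∈ S, ‖a x‖ ^ 2)
    (hB : 0 ≤ B) (Y : Finset (Ideal (𝓞 K) →*₀ ℂ))
    (hY : ∀ ψ ∈ Y, ψ ∈ FamH 𝔮 V) {M : ℕ} (hM : C * M < Ideal.absNorm 𝔮) (b : ℕ → ℂ) :
    ∑ ψ ∈ Y, ‖∑ m ∈ Finset.Icc 1 M, b m * (if Nat.Coprime m (Ideal.absNorm 𝔮) then
      cc ψ m * (ArithmeticFunction.vonMangoldt m : ℂ) else 0)‖ ^ 2 ≤
      B * ∑ m ∈ Finset.Icc 1 M,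
          ‖b m‖ ^ 2 * (ArithmeticFunction.vonMangoldt m * ‖cK K m‖) ^ 2 := by
  classical
  obtain ⟨b', hb'⟩ : ∃ b' : ℕ → ℂ, ∀ m, b' m = if Nat.Coprime m (Ideal.absNorm 𝔮) then b m else 0 :=
    ⟨_, fun _ => rfl⟩
  set S : Finset (Mq 𝔮) := (IM K M).subtype (fun 𝔞 => 𝔞 ∈ Mq 𝔮) with hS
  set a : Mq 𝔮 → ℂ := fun x => b' (Ideal.absNorm (x : Ideal (𝓞 K))) * (VM (x : Ideal (𝓞 K)) : ℂ)
    with ha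
  have h1 : ∀ ψ ∈ Y, ∑ m ∈ Finset.Icc 1 M, b m * (if Nat.Coprime m (Ideal.absNorm 𝔮) then
      cc ψ m * (ArithmeticFunction.vonMangoldt m : ℂ) else 0) =
      ∑ x ∈ S, a x * ((tM 𝔮 ψ x : ℂˣ) : ℂ) := by
    intro ψ hψ
    have h2 : ∑ x ∈ S, a x * ((tM 𝔮 ψ x : ℂˣ) : ℂ) = ∑ x ∈ S,
        (fun 𝔞 : Ideal (𝓞 K) => (b' (Ideal.absNorm 𝔞) * (VM 𝔞 : ℂ)) * ψ 𝔞) (x : Ideal (𝓞 K)) := by
      refine Finset.sum_congr rfl fun x _ => ?_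
      rw [tM_coeH htop (hY ψ hψ)]
    rw [h2]
    refine Eq.trans ?_ (Finset.sum_subtype_eq_sum_filter
      (fun 𝔞 : Ideal (𝓞 K) => (b' (Ideal.absNorm 𝔞) * (VM 𝔞 : ℂ)) * ψ 𝔞)).symm
    rw [Finset.sum_filter_of_ne, ← sum_cc]
    · refine Finset.sum_congr rfl fun m _ => ?_
      rw [hb']
      split_ifs <;> simp
    · intro 𝔞 _ hne
      apply cop_of_norm
      by_contra hcon
      apply hne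
      rw [hb', if_neg hcon]
      ring
  rw [Finset.sum_congr rfl fun ψ hψ => by rw [h1 ψ hψ]]
  have hinj : Set.InjOn (tM 𝔮) Y := fun ψ hψ ψ' hψ' h =>
    tM_injH hbot htop (hY ψ hψ) (hY ψ' hψ') h
  have h3 := hls (Y.image (tM 𝔮)) (by
    intro F hF
    obtain ⟨ψ, hψ, rfl⟩ := Finset.mem_image.mp hF
    exact tM_memH htop (hY ψ hψ)) S M (by
    intro x hx
    have hx' := mem_IM (Finset.mem_subtype.mp hx)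
    exact_mod_cast hx'.2) hM a
  rw [Finset.sum_image hinj] at h3
  refine h3.trans (mul_le_mul_of_nonneg_left ?_ hB)
  calc ∑ x ∈ S, ‖a x‖ ^ 2
      = ∑ 𝔞 ∈ (IM K M).filter (fun 𝔞 => 𝔞 ∈ Mq 𝔮),
          ‖b' (Ideal.absNorm 𝔞) * (VM 𝔞 : ℂ)‖ ^ 2 := by
        rw [hS]
        exact Finset.sum_subtype_eq_sum_filter
          (fun 𝔞 : Ideal (𝓞 K) => ‖b' (Ideal.absNorm 𝔞) * (VM 𝔞 : ℂ)‖ ^ 2)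
    _ ≤ ∑ 𝔞 ∈ IM K M, ‖b' (Ideal.absNorm 𝔞) * (VM 𝔞 : ℂ)‖ ^ 2 :=
        Finset.sum_le_sum_of_subset_of_nonneg (Finset.filter_subset _ _)
          (fun _ _ _ => sq_nonneg _)
    _ ≤ ∑ m ∈ Finset.Icc 1 M, ‖b' m‖ ^ 2 * (ArithmeticFunction.vonMangoldt m * ‖cK K m‖) ^ 2 :=
        sum_sq M b'
    _ ≤ _ := by
        refine Finset.sum_le_sum fun m _ => mul_le_mul_of_nonneg_right ?_ (sq_nonneg _)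
        rw [hb']
        split_ifs
        · exact le_rfl
        · rw [norm_zero]
          exact (by norm_num : (0 : ℝ) ^ 2 ≤ 0).trans (sq_nonneg _)

end

end Pool.Agent.Y773.G.GH
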