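import Pool.Agent.Y767.HC.Stm2

/-! # LAT : points of a shifted lattice in a ball of a norm -/

set_option autoImplicit false

open Filter Topology MeasureTheory
open scoped Pointwise

namespace Pool.Agent.Y773.G.GH

section

variable {r : ℕ} {p : (Fin r → ℝ) → ℝ}

lemma p_zero' (hp : ∀ (t : ℝ) θ, p (t • θ) = |t| * p θ) : p 0 = 0 := by
  have := hp 0 0
  simpa using this

lemma p_neg' (hp : ∀ (t : ℝ) θ, p (t • θ) = |t| * p θ) (θ : Fin r → ℝ) : p (-θ) = p θ := by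
  have := hp (-1) θ
  simpa using this

lemma p_nonneg' (hadd : ∀ θ θ', p (θ + θ') ≤ p θ + p θ')
    (hp : ∀ (t : ℝ) θ, p (t • θ) = |t| * p θ) (θ : Fin r → ℝ) : 0 ≤ p θ := by
  have h1 := hadd θ (-θ)
  rw [add_neg_cancel, p_zero' hp, p_neg' hp] at h1
  linarith

/-- the norm is equivalent to the standard one -/
lemma exists_low (hc : Continuous p) (hadd : ∀ θ θ', p (θ + θ') ≤ p θ + p θ')
    (hp : ∀ (t : ℝ) θ, p (t • θ) = |t| * p θ) (h0 : ∀ θ, p θ = 0 → θ = 0) :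
    ∃ κ : ℝ, 0 < κ ∧ ∀ θ, κ * ‖θ‖ ≤ p θ := by
  rcases (Metric.sphere (0 : Fin r → ℝ) 1).eq_empty_or_nonempty with he | hne
  · refine ⟨1, one_pos, fun θ => ?_⟩
    have : ‖θ‖ = 0 := by
      by_contra h
      have hpos : 0 < ‖θ‖ := lt_of_le_of_ne (norm_nonneg _) (Ne.symm h)
      have : (‖θ‖⁻¹ • θ) ∈ Metric.sphere (0 : Fin r → ℝ) 1 := by
        rw [mem_sphere_zero_iff_norm, norm_smul, norm_inv, norm_norm, inv_mul_cancel₀ h]
      rw [he] at this
      exact this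
    rw [this, mul_zero]
    exact p_nonneg' hadd hp θ
  · obtain ⟨θ₀, hθ₀, hmin⟩ := (isCompact_sphere (0 : Fin r → ℝ) 1).exists_isMinOn hne hc.continuousOn
    have hθ1 : ‖θ₀‖ = 1 := mem_sphere_zero_iff_norm.mp hθ₀
    have hpos : 0 < p θ₀ := by
      refine lt_of_le_of_ne (p_nonneg' hadd hp θ₀) fun h => ?_
      rw [h0 θ₀ h.symm, norm_zero] at hθ1
      norm_num at hθ1
    refine ⟨p θ₀, hpos, fun θ => ?_⟩
    by_cases h : ‖θ‖ = 0
    · rw [h, mul_zero]; exact p_nonneg' hadd hp θ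
    · have hn : 0 < ‖θ‖ := lt_of_le_of_ne (norm_nonneg _) (Ne.symm h)
      have h1 : (‖θ‖⁻¹ • θ) ∈ Metric.sphere (0 : Fin r → ℝ) 1 := by
        rw [mem_sphere_zero_iff_norm, norm_smul, norm_inv, norm_norm, inv_mul_cancel₀ h]
      have h2 := hmin h1
      simp only [Set.mem_setOf_eq] at h2
      rw [hp, abs_of_pos (by positivity)] at h2
      calc p θ₀ * ‖θ‖ ≤ ‖θ‖⁻¹ * p θ * ‖θ‖ := mul_le_mul_of_nonneg_right h2 hn.le
        _ = p θ := by field_simp

lemma set_eq (hadd : ∀ θ θ', p (θ + θ') ≤ p θ + p θ')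
    (hp : ∀ (t : ℝ) θ, p (t • θ) = |t| * p θ) (h0 : ∀ θ, p θ = 0 → θ = 0) {V : ℝ} (hV : 0 ≤ V) :
    {θ | p θ ≤ V} = V • {θ | p θ ≤ 1} := by
  rcases eq_or_lt_of_le hV with h | h
  · rw [← h, Set.zero_smul_set ⟨0, by rw [Set.mem_setOf_eq, p_zero' hp]; exact zero_le_one⟩]
    ext θ
    rw [Set.mem_setOf_eq, Set.mem_zero]
    constructor
    · intro h1
      exact h0 θ (le_antisymm h1 (p_nonneg' hadd hp θ))
    · rintro rfl
      rw [p_zero' hp]
  · ext θ
    rw [Set.mem_smul_set_iff_inv_smul_mem₀ h.ne', Set.mem_setOf_eq, Set.mem_setOf_eq, hp,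
      abs_of_pos (by positivity), inv_mul_le_iff₀ h, mul_one]

lemma compact_ball (hc : Continuous p) (hadd : ∀ θ θ', p (θ + θ') ≤ p θ + p θ')
    (hp : ∀ (t : ℝ) θ, p (t • θ) = |t| * p θ) (h0 : ∀ θ, p θ = 0 → θ = 0) (V : ℝ) :
    IsCompact {θ | p θ ≤ V} := by
  obtain ⟨κ, hκ, hlow⟩ := exists_low hc hadd hp h0
  refine Metric.isCompact_of_isClosed_isBounded (isClosed_le hc continuous_const) ?_
  refine (Metric.isBounded_closedBall (x := (0 : Fin r → ℝ)) (r := V / κ)).subset fun θ hθ => ?_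
  rw [mem_closedBall_zero_iff, le_div_iff₀ hκ, mul_comm]
  exact (hlow θ).trans hθ

lemma lat_finite (hc : Continuous p) (hadd : ∀ θ θ', p (θ + θ') ≤ p θ + p θ')
    (hp : ∀ (t : ℝ) θ, p (t • θ) = |t| * p θ) (h0 : ∀ θ, p θ = 0 → θ = 0)
    (θ₀ : Fin r → ℝ) (V : ℝ) : {m : Fin r → ℤ | p (fun i => θ₀ i + m i) ≤ V}.Finite := by
  obtain ⟨κ, hκ, hlow⟩ := exists_low hc hadd hp h0
  refine (Set.finite_Icc (fun i => ⌊-(V / κ) - θ₀ i⌋) (fun i => ⌈V / κ - θ₀ i⌉)).subset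
    fun m hm => ?_
  have h1 : ∀ i, |θ₀ i + m i| ≤ V / κ := by
    intro i
    rw [le_div_iff₀ hκ, mul_comm]
    have h2 : |θ₀ i + m i| ≤ ‖fun i => θ₀ i + (m i : ℝ)‖ :=
      norm_le_pi_norm (fun i => θ₀ i + (m i : ℝ)) i
    calc κ * |θ₀ i + m i| ≤ κ * ‖fun i => θ₀ i + (m i : ℝ)‖ := mul_le_mul_of_nonneg_left h2 hκ.le
      _ ≤ _ := hlow _
      _ ≤ V := hm
  rw [Set.mem_Icc]
  constructor
  · intro i
    have h2 := (abs_le.mp (h1 i)).1
    have h3 : ((⌊-(V / κ) - θ₀ i⌋ : ℤ) : ℝ) ≤ (m i : ℝ) := (Int.floor_le _).trans (by linarith)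
    exact_mod_cast h3
  · intro i
    have h2 := (abs_le.mp (h1 i)).2
    have h3 : (m i : ℝ) ≤ ((⌈V / κ - θ₀ i⌉ : ℤ) : ℝ) := le_trans (by linarith) (Int.le_ceil _)
    exact_mod_cast h3

/-- a uniform upper bound for the number of the points -/
lemma lat_upper (hc : Continuous p) (hadd : ∀ θ θ', p (θ + θ') ≤ p θ + p θ')
    (hp : ∀ (t : ℝ) θ, p (t • θ) = |t| * p θ) (h0 : ∀ θ, p θ = 0 → θ = 0) (V : ℝ) :
    ∃ N : ℕ, ∀ θ₀ : Fin r → ℝ, Nat.card {m : Fin r → ℤ | p (fun i => θ₀ i + m i) ≤ V} ≤ N := by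
  have hf := lat_finite hc hadd hp h0 0 (2 * V)
  refine ⟨Nat.card {m : Fin r → ℤ | p (fun i => (0 : Fin r → ℝ) i + m i) ≤ 2 * V}, fun θ₀ => ?_⟩
  have := hf.to_subtype
  rcases (Set.eq_empty_or_nonempty {m : Fin r → ℤ | p (fun i => θ₀ i + m i) ≤ V}) with he | ⟨m₀, hm₀⟩
  · rw [he]; simp
  · refine Nat.card_le_card_of_injective (fun m => ⟨m.1 - m₀, ?_⟩) ?_
    · rw [Set.mem_setOf_eq]
      have h1 : (fun i => (0 : Fin r → ℝ) i + ((m.1 - m₀) i : ℤ)) =
          (fun i => θ₀ i + (m.1 i : ℝ)) + -(fun i => θ₀ i + (m₀ i : ℝ)) := by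
        funext i
        simp only [Pi.zero_apply, Pi.sub_apply, Pi.add_apply, Pi.neg_apply]
        push_cast
        ring
      rw [h1]
      refine (hadd _ _).trans ?_
      rw [p_neg' hp]
      have h2 := m.2
      rw [Set.mem_setOf_eq] at h2 hm₀
      linarith
    · intro m m' h
      have h1 : m.1 - m₀ = m'.1 - m₀ := congrArg Subtype.val h
      exact Subtype.ext (sub_left_injective h1)

end

/-- **LAT** -/
theorem t_lat : Pool.Agent.Y767.StLat := by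
  intro r p hc hadd hp h0
  have hcomp := compact_ball hc hadd hp h0
  have hfin : volume {θ | p θ ≤ 1} ≠ ⊤ := (hcomp 1).measure_lt_top.ne
  have hvol : ∀ V : ℝ, 0 ≤ V → (volume {θ | p θ ≤ V}).toReal =
      V ^ r * (volume {θ | p θ ≤ 1}).toReal := by
    intro V hV
    rw [set_eq hadd hp h0 hV, Measure.addHaar_smul, ENNReal.toReal_mul, Module.finrank_fin_fun,
      abs_of_nonneg (by positivity), ENNReal.toReal_ofReal (by positivity)]
  refine ⟨⟨hfin, ?_⟩, fun V _ => hcomp V, hvol, ?_⟩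
  · refine ENNReal.toReal_pos ?_ hfin
    have h1 : 0 < volume {θ | p θ < 1} := by
      refine (isOpen_lt hc continuous_const).measure_pos volume ⟨0, ?_⟩
      rw [Set.mem_setOf_eq, p_zero' hp]
      exact one_pos
    exact (h1.trans_le (measure_mono fun θ hθ => by rw [Set.mem_setOf_eq] at *; exact hθ.le)).ne'
  · -- the constant
    obtain ⟨c, hc0, hcb⟩ : ∃ c : ℝ, 0 ≤ c ∧ ∀ θ : Fin r → ℝ, (∀ i, 0 ≤ θ i ∧ θ i ≤ 1) → p θ ≤ c := by
      obtain ⟨θ₁, hθ₁, hmax⟩ := (isCompact_Icc (a := (0 : Fin r → ℝ)) (b := 1)).exists_isMaxOn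
        ⟨0, by simp⟩ hc.continuousOn
      refine ⟨p θ₁, p_nonneg' hadd hp _, fun θ hθ => ?_⟩
      exact hmax (show θ ∈ Set.Icc (0 : Fin r → ℝ) 1 from ⟨fun i => (hθ i).1, fun i => (hθ i).2⟩)
    refine ⟨c, hc0, fun θ₀ V hV => ?_⟩
    have hfin' := lat_finite hc hadd hp h0 θ₀ V
    refine ⟨hfin', ?_⟩
    rw [← hvol _ (by linarith)]
    have hcover : {θ | p θ ≤ V - c} ⊆ ⋃ m ∈ {m : Fin r → ℤ | p (fun i => θ₀ i + m i) ≤ V},
        Set.Icc (fun i => θ₀ i + (m i : ℝ)) (fun i => θ₀ i + (m i : ℝ) + 1) := by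
      intro θ hθ
      rw [Set.mem_setOf_eq] at hθ
      rw [Set.mem_iUnion₂]
      refine ⟨fun i => ⌊θ i - θ₀ i⌋, ?_, ?_, ?_⟩
      · rw [Set.mem_setOf_eq]
        have h1 : (fun i => θ₀ i + ((⌊θ i - θ₀ i⌋ : ℤ) : ℝ)) =
            θ + -(fun i => Int.fract (θ i - θ₀ i)) := by
          funext i
          simp only [Pi.add_apply, Pi.neg_apply]
          have := Int.floor_add_fract (θ i - θ₀ i)
          linarith
        rw [h1]
        refine (hadd _ _).trans ?_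
        rw [p_neg' hp]
        have := hcb (fun i => Int.fract (θ i - θ₀ i)) fun i =>
          ⟨Int.fract_nonneg _, (Int.fract_lt_one _).le⟩
        linarith
      · intro i
        have := Int.floor_le (θ i - θ₀ i)
        simp only
        linarith
      · intro i
        have := Int.lt_floor_add_one (θ i - θ₀ i)
        simp only
        linarith
    have hfs := hfin'.to_subtype
    have h1 : volume {θ | p θ ≤ V - c} ≤
        (Nat.card {m : Fin r → ℤ | p (fun i => θ₀ i + m i) ≤ V} : ENNReal) := by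
      refine (measure_mono hcover).trans ?_
      have h2 := measure_biUnion_finset_le (μ := (volume : Measure (Fin r → ℝ))) hfin'.toFinset
        (fun m => Set.Icc (fun i => θ₀ i + (m i : ℝ)) (fun i => θ₀ i + (m i : ℝ) + 1))
      simp only [Set.Finite.mem_toFinset] at h2
      refine h2.trans ?_
      have h3 : ∀ m ∈ hfin'.toFinset, volume (Set.Icc (fun i => θ₀ i + (m i : ℝ))
          (fun i => θ₀ i + (m i : ℝ) + 1)) = 1 := by
        intro m _
        rw [Real.volume_Icc_pi]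
        simp
      rw [Finset.sum_congr rfl h3, Finset.sum_const, nsmul_eq_mul, mul_one,
        Nat.card_coe_set_eq, Set.ncard_eq_toFinset_card _ hfin']
    have h2 := ENNReal.toReal_mono (ENNReal.natCast_ne_top _) h1
    rw [ENNReal.toReal_natCast] at h2
    exact h2

end Pool.Agent.Y773.G.GH
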