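import Pool.Agent.A856.GH.UnP
import Pool.Agent.A856.GH.Lat
import Pool.Agent.Helper503_UI.Cl

/-! # The group of the residue classes modulo roots of unity; the parameters of the characters -/

set_option autoImplicit false
set_option linter.unusedSectionVars false

open NumberField Complex Filter Topology MeasureTheory
open NumberField.Units

namespace Pool.Agent.Y773.G.GH

open Pool.Agent.Y767 (ax ax_ne tpos_one tpos_mul tpos_of_mul Tq Tq_tp Tq_cop Mq Mq_cop Mq_ne_bot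
  Tq_ne_zero pq pq_coe Mq_cancel isUnit_mk coprime_of_isUnit gq gq_coe gq_eq_iff gq_surj cls_one
  Cls cls cls_eq cls_of_mul cls_pi cls_div ext_mon exists_lam card_dual finite_dual)
open Pool.Agent.Helper503_UI (hK sgv tpos_of_sgv cg_eq' lift_tpos)
open Pool.Agent.Y773.IQ (ne_zero_of_cop cop_mono cop_one cop_congr cop_mul cg)

section

variable {K : Type} [Field K] [NumberField K]

/-! ## the class group -/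

lemma cls_rep {𝔮 : Ideal (𝓞 K)} (hbot : 𝔮 ≠ ⊥) (htop : 𝔮 ≠ ⊤) (c : Cls (pq 𝔮)) :
    ∃ 𝔞 : Mq 𝔮, cls (pq 𝔮) 𝔞 = c := by
  obtain ⟨a, b, hab⟩ := cls_div (pq 𝔮) c
  obtain ⟨x, 𝔠, h1, h0, h2, -⟩ := Pool.Agent.Helper503_UI.exists_compl hbot htop b
  refine ⟨a * 𝔠, ?_⟩
  have h3 : cls (pq 𝔮) (b * 𝔠) = 1 := by
    rw [← cls_pi (pq 𝔮) ⟨x, h0, cop_one h1⟩]
    congr 1
    apply Subtype.ext
    rw [pq_coe, Submonoid.coe_mul]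
    exact h2.symm
  rw [map_mul] at h3
  rw [map_mul, ← hab, mul_assoc, h3, mul_one]

theorem cls_fin {𝔮 : Ideal (𝓞 K)} (hbot : 𝔮 ≠ ⊥) (htop : 𝔮 ≠ ⊤) :
    Finite (Cls (pq 𝔮)) ∧ Nat.card (Cls (pq 𝔮)) ≤ hK K := by
  have hC := Mq_cancel htop
  choose 𝔞 h𝔞 using cls_rep hbot htop
  classical
  obtain ⟨𝔟, h𝔟⟩ : ∃ 𝔟 : ClassGroup (𝓞 K) → Mq 𝔮, ∀ 𝔠 : Mq 𝔮, cg htop (𝔟 (cg htop 𝔠)) = cg htop 𝔠 := by
    refine ⟨fun C => if h : ∃ 𝔠 : Mq 𝔮, cg htop 𝔠 = C then h.choose else 1, fun 𝔠 => ?_⟩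
    have h : ∃ 𝔠' : Mq 𝔮, cg htop 𝔠' = cg htop 𝔠 := ⟨𝔠, rfl⟩
    simp only [dif_pos h]
    exact h.choose_spec
  choose x' y' hx' hp' hy' hxy using fun c => cg_eq' hbot htop (h𝔟 (𝔞 c)).symm
  have hinj : Function.Injective (fun c => (cg htop (𝔞 c), sgv (y' c))) := by
    intro c c' h
    obtain ⟨h2, h3⟩ := Prod.ext_iff.mp h
    have h2' : cg htop (𝔞 c) = cg htop (𝔞 c') := h2
    have h3' : sgv (y' c) = sgv (y' c') := h3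
    have e1 := hxy c
    have e2 := hxy c'
    rw [← h2'] at e2
    have hy0 := ne_zero_of_cop htop (hy' c)
    have hy0' := ne_zero_of_cop htop (hy' c')
    have hp1 : TPos K (x' c * (y' c * y' c')) := tpos_mul (hp' c) (tpos_of_sgv hy0 hy0' h3')
    have hp2 : TPos K (x' c' * (y' c * y' c)) := tpos_mul (hp' c') (tpos_of_sgv hy0 hy0 rfl)
    have hc1 : IsCoprime (Ideal.span {x' c * (y' c * y' c')}) 𝔮 :=
      cop_mul (cop_one (hx' c)) (cop_mul (hy' c) (hy' c'))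
    have hc2 : IsCoprime (Ideal.span {x' c' * (y' c * y' c)}) 𝔮 :=
      cop_mul (cop_one (hx' c')) (cop_mul (hy' c) (hy' c))
    rw [← h𝔞 c, ← h𝔞 c']
    refine cls_of_mul (π := pq 𝔮) (a := ⟨x' c * (y' c * y' c'), hp1, hc1⟩)
      (b := ⟨x' c' * (y' c * y' c), hp2, hc2⟩) ?_
    apply Subtype.ext
    rw [Submonoid.coe_mul, Submonoid.coe_mul, pq_coe, pq_coe]
    change Ideal.span {x' c * (y' c * y' c')} * (𝔞 c : Ideal (𝓞 K)) =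
      Ideal.span {x' c' * (y' c * y' c)} * (𝔞 c' : Ideal (𝓞 K))
    simp only [← Ideal.span_singleton_mul_span_singleton]
    calc Ideal.span {x' c} * (Ideal.span {y' c} * Ideal.span {y' c'}) * (𝔞 c : Ideal (𝓞 K)) =
        (Ideal.span {x' c} * (𝔞 c : Ideal (𝓞 K))) * (Ideal.span {y' c} * Ideal.span {y' c'}) := by
          ring
      _ = (Ideal.span {y' c} * (𝔟 (cg htop (𝔞 c)) : Ideal (𝓞 K))) *
          (Ideal.span {y' c} * Ideal.span {y' c'}) := by rw [e1]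
      _ = (Ideal.span {y' c'} * (𝔟 (cg htop (𝔞 c)) : Ideal (𝓞 K))) *
          (Ideal.span {y' c} * Ideal.span {y' c}) := by ring
      _ = (Ideal.span {x' c'} * (𝔞 c' : Ideal (𝓞 K))) *
          (Ideal.span {y' c} * Ideal.span {y' c}) := by rw [e2]
      _ = _ := by ring
  refine ⟨Finite.of_injective _ hinj, ?_⟩
  unfold hK
  rw [← Nat.card_prod]
  exact Nat.card_le_card_of_injective _ hinj

/-! ## the residue classes modulo the totally positive roots of unity -/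

/-- the classes of the totally positive roots of unity -/
noncomputable def Wq (𝔮 : Ideal (𝓞 K)) : Subgroup (𝓞 K ⧸ 𝔮)ˣ :=
  Subgroup.map (Units.map (Ideal.Quotient.mk 𝔮 : 𝓞 K →* 𝓞 K ⧸ 𝔮)) (torsion K ⊓ tpU K)

/-- the residue classes prime to `𝔮` modulo the totally positive roots of unity -/
def GQ (𝔮 : Ideal (𝓞 K)) : Type := (𝓞 K ⧸ 𝔮)ˣ ⧸ Wq 𝔮

noncomputable instance (𝔮 : Ideal (𝓞 K)) : CommGroup (GQ 𝔮) :=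
  inferInstanceAs (CommGroup ((𝓞 K ⧸ 𝔮)ˣ ⧸ Wq 𝔮))

/-- the projection -/
noncomputable def mQ (𝔮 : Ideal (𝓞 K)) : (𝓞 K ⧸ 𝔮)ˣ →* GQ 𝔮 := QuotientGroup.mk' (Wq 𝔮)

lemma mQ_surj (𝔮 : Ideal (𝓞 K)) : Function.Surjective (mQ 𝔮) := QuotientGroup.mk'_surjective _

lemma mQ_eq {𝔮 : Ideal (𝓞 K)} {x y : (𝓞 K ⧸ 𝔮)ˣ} (h : mQ 𝔮 x = mQ 𝔮 y) : x⁻¹ * y ∈ Wq 𝔮 :=
  QuotientGroup.eq.mp h

lemma mQ_one {𝔮 : Ideal (𝓞 K)} {x : (𝓞 K ⧸ 𝔮)ˣ} (h : x ∈ Wq 𝔮) : mQ 𝔮 x = 1 :=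
  (QuotientGroup.eq_one_iff _).mpr h

/-- the class of a totally positive integer prime to `𝔮` -/
noncomputable def gQ (𝔮 : Ideal (𝓞 K)) : Tq 𝔮 →* GQ 𝔮 := (mQ 𝔮).comp (gq 𝔮)

lemma gQ_surj {𝔮 : Ideal (𝓞 K)} (hbot : 𝔮 ≠ ⊥) : Function.Surjective (gQ 𝔮) := by
  unfold gQ
  rw [MonoidHom.coe_comp]
  exact (mQ_surj _).comp (gq_surj hbot)

lemma gQ_of_gq {𝔮 : Ideal (𝓞 K)} {x y : Tq 𝔮} (h : gq 𝔮 x = gq 𝔮 y) : gQ 𝔮 x = gQ 𝔮 y := by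
  unfold gQ
  rw [MonoidHom.comp_apply, MonoidHom.comp_apply, h]

lemma gQ_eq {𝔮 : Ideal (𝓞 K)} {x y : Tq 𝔮} (h : gQ 𝔮 x = gQ 𝔮 y) :
    ∃ ζ : (𝓞 K)ˣ, ζ ∈ torsion K ∧ TPos K (ζ : 𝓞 K) ∧ (x : 𝓞 K) * (ζ : 𝓞 K) - (y : 𝓞 K) ∈ 𝔮 := by
  unfold gQ at h
  rw [MonoidHom.comp_apply, MonoidHom.comp_apply] at h
  obtain ⟨ζ, hζ, h1⟩ := mQ_eq h
  obtain ⟨h2, h3⟩ := Subgroup.mem_inf.mp hζ
  refine ⟨ζ, h2, h3, ?_⟩
  have h4 : gq 𝔮 x * Units.map (Ideal.Quotient.mk 𝔮 : 𝓞 K →* 𝓞 K ⧸ 𝔮) ζ = gq 𝔮 y := by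
    rw [h1, mul_inv_cancel_left]
  have h5 := congrArg (fun u : (𝓞 K ⧸ 𝔮)ˣ => (u : 𝓞 K ⧸ 𝔮)) h4
  simp only [Units.val_mul] at h5
  rw [gq_coe, gq_coe] at h5
  rw [← Ideal.Quotient.eq, map_mul]
  exact h5

lemma GQ_fin {𝔮 : Ideal (𝓞 K)} (hbot : 𝔮 ≠ ⊥) : Finite (GQ 𝔮) := by
  have : Finite (𝓞 K ⧸ 𝔮) := Ideal.finiteQuotientOfFreeOfNeBot 𝔮 hbot
  exact Finite.of_surjective _ (mQ_surj 𝔮)

/-- the order of the group -/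
lemma card_GQ {𝔮 : Ideal (𝓞 K)} (hbot : 𝔮 ≠ ⊥) :
    Nat.card (𝓞 K ⧸ 𝔮)ˣ ≤ Nat.card (torsion K) * Nat.card (GQ 𝔮) := by
  have : Finite (𝓞 K ⧸ 𝔮) := Ideal.finiteQuotientOfFreeOfNeBot 𝔮 hbot
  have h1 : Nat.card (𝓞 K ⧸ 𝔮)ˣ = Nat.card (GQ 𝔮) * Nat.card (Wq 𝔮) :=
    Subgroup.card_eq_card_quotient_mul_card_subgroup (Wq 𝔮)
  rw [h1, mul_comm]
  refine Nat.mul_le_mul_right _ ?_
  have h2 : Nat.card (Wq 𝔮) ≤ Nat.card ((torsion K ⊓ tpU K : Subgroup (𝓞 K)ˣ)) := by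
    have : Finite (torsion K ⊓ tpU K : Subgroup (𝓞 K)ˣ) :=
      Finite.of_injective (fun x : (torsion K ⊓ tpU K : Subgroup (𝓞 K)ˣ) =>
        (⟨x.1, (Subgroup.mem_inf.mp x.2).1⟩ : torsion K)) (by
        intro x y h
        have := congrArg (fun z : torsion K => (z : (𝓞 K)ˣ)) h
        exact Subtype.ext this)
    refine Nat.card_le_card_of_surjective (fun x : (torsion K ⊓ tpU K : Subgroup (𝓞 K)ˣ) =>
      (⟨_, Subgroup.mem_map_of_mem _ x.2⟩ : Wq 𝔮)) ?_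
    rintro ⟨_, y, hy, rfl⟩
    exact ⟨⟨y, hy⟩, rfl⟩
  refine h2.trans ?_
  exact Nat.card_le_card_of_injective (fun x : (torsion K ⊓ tpU K : Subgroup (𝓞 K)ˣ) =>
    (⟨x.1, (Subgroup.mem_inf.mp x.2).1⟩ : torsion K)) (by
    intro x y h
    have := congrArg (fun z : torsion K => (z : (𝓞 K)ˣ)) h
    exact Subtype.ext this)

/-- a totally positive unit as an element of the monoid -/
def uT (𝔮 : Ideal (𝓞 K)) : tpU K →* Tq 𝔮 where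
  toFun u := ⟨((u : (𝓞 K)ˣ) : 𝓞 K), u.2, by
    rw [Ideal.span_singleton_eq_top.mpr (u : (𝓞 K)ˣ).isUnit, ← Ideal.one_eq_top]
    exact isCoprime_one_left⟩
  map_one' := rfl
  map_mul' _ _ := rfl

lemma uT_coe (𝔮 : Ideal (𝓞 K)) (u : tpU K) : ((uT 𝔮 u : Tq 𝔮) : 𝓞 K) = ((u : (𝓞 K)ˣ) : 𝓞 K) := rfl

lemma pq_uT (𝔮 : Ideal (𝓞 K)) (u : tpU K) : pq 𝔮 (uT 𝔮 u) = 1 := by
  apply Subtype.ext
  rw [pq_coe, uT_coe, Ideal.span_singleton_eq_top.mpr (u : (𝓞 K)ˣ).isUnit]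
  exact Ideal.one_eq_top.symm

/-- the `i`-th basis unit -/
def UG.eU (U : UG K) (i : Fin (rank K)) : tpU K := ⟨U.ε i, U.tp i⟩

/-- the unit `ε_i` as an element of the monoid -/
def UG.eT (U : UG K) (𝔮 : Ideal (𝓞 K)) (i : Fin (rank K)) : Tq 𝔮 := uT 𝔮 (U.eU i)

lemma gQ_tor {𝔮 : Ideal (𝓞 K)} {ζ : tpU K} (h : (ζ : (𝓞 K)ˣ) ∈ torsion K) : gQ 𝔮 (uT 𝔮 ζ) = 1 := by
  unfold gQ
  rw [MonoidHom.comp_apply]
  apply mQ_one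
  refine ⟨(ζ : (𝓞 K)ˣ), Subgroup.mem_inf.mpr ⟨h, ζ.2⟩, ?_⟩
  ext
  rfl

/-- `ax` as a homomorphism -/
noncomputable def axh {𝔮 : Ideal (𝓞 K)} (htop : 𝔮 ≠ ⊤) (ν : InfinitePlace K → ℝ) : Tq 𝔮 →* ℂˣ where
  toFun x := Units.mk0 (ax ν ((x : 𝓞 K) : K)) (ax_ne _ _)
  map_one' := by
    ext
    rw [Units.val_mk0, Submonoid.coe_one, Units.val_one]
    have : ((1 : 𝓞 K) : K) = 1 := map_one _
    rw [this, Pool.Agent.Y767.ax_one]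
  map_mul' x y := by
    ext
    rw [Units.val_mk0, Units.val_mul, Units.val_mk0, Units.val_mk0, Submonoid.coe_mul,
      ax_coe_mul ν (Tq_ne_zero htop x) (Tq_ne_zero htop y)]

lemma axh_coe {𝔮 : Ideal (𝓞 K)} (htop : 𝔮 ≠ ⊤) (ν : InfinitePlace K → ℝ) (x : Tq 𝔮) :
    ((axh htop ν x : ℂˣ) : ℂ) = ax ν ((x : 𝓞 K) : K) := rfl

/-- the characters of infinity type in the box modulo `𝔮` -/
def DV (𝔮 : Ideal (𝓞 K)) (V : ℝ) : Set (Mq 𝔮 →* ℂˣ) :=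
  {F | ∃ ν : InfinitePlace K → ℝ, (∀ w, |ν w| ≤ V) ∧ ∑ w, ν w = 0 ∧
    ∀ x : Tq 𝔮, (x : 𝓞 K) - 1 ∈ 𝔮 → ((F (pq 𝔮 x) : ℂˣ) : ℂ) = ax ν ((x : 𝓞 K) : K)}

/-- the characters of conductor `1` -/
def DW (𝔮 : Ideal (𝓞 K)) (V : ℝ) : Set (Mq 𝔮 →* ℂˣ) :=
  {F | ∃ ν : InfinitePlace K → ℝ, (∀ w, |ν w| ≤ V) ∧ ∑ w, ν w = 0 ∧
    ∀ x : Tq 𝔮, ((F (pq 𝔮 x) : ℂˣ) : ℂ) = ax ν ((x : 𝓞 K) : K)}

/-- the parameters -/
def UG.PQ (U : UG K) (𝔮 : Ideal (𝓞 K)) (V : ℝ) :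
    Set ((GQ 𝔮 →* ℂˣ) × (Fin (rank K) → ℝ)) :=
  {p | (∀ i, ((p.1 (gQ 𝔮 (U.eT 𝔮 i)) : ℂˣ) : ℂ) * cexp (2 * Real.pi * I * (p.2 i : ℂ)) = 1) ∧
    U.p p.2 ≤ V}

/-- the character with given parameters, on the totally positive integers -/
noncomputable def UG.phi (U : UG K) {𝔮 : Ideal (𝓞 K)} (htop : 𝔮 ≠ ⊤)
    (p : (GQ 𝔮 →* ℂˣ) × (Fin (rank K) → ℝ)) : Tq 𝔮 →* ℂˣ :=
  (p.1.comp (gQ 𝔮)) * axh htop (U.NU p.2)

lemma UG.phi_coe (U : UG K) {𝔮 : Ideal (𝓞 K)} (htop : 𝔮 ≠ ⊤)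
    (p : (GQ 𝔮 →* ℂˣ) × (Fin (rank K) → ℝ)) (x : Tq 𝔮) :
    ((U.phi htop p x : ℂˣ) : ℂ) = ((p.1 (gQ 𝔮 x) : ℂˣ) : ℂ) * ax (U.NU p.2) ((x : 𝓞 K) : K) := by
  unfold UG.phi
  rw [MonoidHom.mul_apply, Units.val_mul, MonoidHom.comp_apply, axh_coe]

/-- the parameters of a character -/
theorem UG.exists_par (U : UG K) {𝔮 : Ideal (𝓞 K)} (hbot : 𝔮 ≠ ⊥) (htop : 𝔮 ≠ ⊤) {V : ℝ}
    (hV : 0 ≤ V) {F : Mq 𝔮 →* ℂˣ} (hF : F ∈ DV 𝔮 V) :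
    ∃ p ∈ U.PQ 𝔮 V, ∀ x : Tq 𝔮, F (pq 𝔮 x) = U.phi htop p x := by
  obtain ⟨ν, hν, hs, hray⟩ := hF
  obtain ⟨φ, hφ⟩ : ∃ φ : Tq 𝔮 →* ℂˣ, φ = (F.comp (pq 𝔮)) / axh htop ν := ⟨_, rfl⟩
  have hφ1 : ∀ x, φ x = F (pq 𝔮 x) / axh htop ν x := fun x => by rw [hφ]; rfl
  have hone : ∀ x : Tq 𝔮, (x : 𝓞 K) - 1 ∈ 𝔮 → φ x = 1 := by
    intro x hx
    rw [hφ1, div_eq_one]
    ext
    rw [hray x hx, axh_coe]
  have hcong : ∀ x y : Tq 𝔮, gq 𝔮 x = gq 𝔮 y → φ x = φ y := by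
    intro x y hxy
    obtain ⟨z, hz⟩ := gq_surj hbot (gq 𝔮 x)⁻¹
    have h1 : gq 𝔮 (x * z) = gq 𝔮 1 := by rw [map_mul, hz, mul_inv_cancel, map_one]
    have h2 : gq 𝔮 (y * z) = gq 𝔮 1 := by rw [map_mul, hz, hxy, mul_inv_cancel, map_one]
    have h3 := hone (x * z) ((gq_eq_iff _ _).mp h1)
    have h4 := hone (y * z) ((gq_eq_iff _ _).mp h2)
    rw [map_mul] at h3 h4
    exact mul_right_cancel (h3.trans h4.symm)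
  have htor : ∀ ζ : tpU K, (ζ : (𝓞 K)ˣ) ∈ torsion K → φ (uT 𝔮 ζ) = 1 := by
    intro ζ hζ
    rw [hφ1, pq_uT, map_one, one_div, inv_eq_one]
    ext
    rw [axh_coe, uT_coe, ax_torsion hζ, Units.val_one]
  have hwd : ∀ x y : Tq 𝔮, gQ 𝔮 x = gQ 𝔮 y → φ x = φ y := by
    intro x y hxy
    obtain ⟨ζ, hζ1, hζ2, hζ3⟩ := gQ_eq hxy
    have h1 : φ (x * uT 𝔮 ⟨ζ, hζ2⟩) = φ y := hcong _ _ ((gq_eq_iff _ _).mpr hζ3)
    rw [map_mul, htor ⟨ζ, hζ2⟩ hζ1, mul_one] at h1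
    exact h1
  obtain ⟨χ, hχ⟩ : ∃ χ : GQ 𝔮 →* ℂˣ, ∀ a, χ (gQ 𝔮 a) = φ a := ext_mon (gQ 𝔮) φ hwd
  set θ : Fin (rank K) → ℝ :=
    fun i => (∑ w, ν w * Real.log (w ((U.ε i : (𝓞 K)ˣ) : K))) / (2 * Real.pi) with hθ
  have hNU : U.NU θ = ν := U.NUi ν hs
  have hval : ∀ x : Tq 𝔮, F (pq 𝔮 x) = U.phi htop (χ, θ) x := by
    intro x
    unfold UG.phi
    rw [MonoidHom.mul_apply, MonoidHom.comp_apply]
    change F (pq 𝔮 x) = χ (gQ 𝔮 x) * axh htop (U.NU θ) x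
    rw [hχ, hφ1, hNU, div_mul_cancel]
  refine ⟨(χ, θ), ⟨fun i => ?_, ?_⟩, hval⟩
  · have h1 := hval (U.eT 𝔮 i)
    have h2 : pq 𝔮 (U.eT 𝔮 i) = 1 := pq_uT 𝔮 _
    rw [h2, map_one] at h1
    have h3 := congrArg (fun u : ℂˣ => (u : ℂ)) h1
    simp only [Units.val_one] at h3
    rw [U.phi_coe] at h3
    have h4 : ax (U.NU θ) (((U.eT 𝔮 i : Tq 𝔮) : 𝓞 K) : K) = cexp (2 * Real.pi * I * (θ i : ℂ)) :=
      U.ax_eps θ i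
    rw [h4] at h3
    exact h3.symm
  · rw [U.p_le _ hV, hNU]; exact hν

lemma UG.phi_unit (U : UG K) {𝔮 : Ideal (𝓞 K)} (htop : 𝔮 ≠ ⊤) {V : ℝ}
    {p : (GQ 𝔮 →* ℂˣ) × (Fin (rank K) → ℝ)} (hp : p ∈ U.PQ 𝔮 V) (u : tpU K) :
    U.phi htop p (uT 𝔮 u) = 1 := by
  obtain ⟨ζ, m, hζ, hu⟩ := U.gen (u : (𝓞 K)ˣ) u.2
  have hζp : ζ ∈ tpU K := by
    have h1 : ζ = (u : (𝓞 K)ˣ) * (∏ i, U.ε i ^ m i)⁻¹ := by rw [hu]; group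
    rw [h1]
    refine (tpU K).mul_mem u.2 ((tpU K).inv_mem ((tpU K).prod_mem fun i _ =>
      (tpU K).zpow_mem (U.tp i) _))
  have h2 : u = ⟨ζ, hζp⟩ * ∏ i, U.eU i ^ m i := by
    apply Subtype.ext
    rw [Subgroup.coe_mul, Subgroup.val_finsetProd]
    simp only [Subgroup.coe_zpow]
    exact hu
  have h3 : ((U.phi htop p).comp (uT 𝔮)) ⟨ζ, hζp⟩ = 1 := by
    rw [MonoidHom.comp_apply]
    ext
    rw [U.phi_coe, gQ_tor hζ, map_one, Units.val_one, one_mul, uT_coe, ax_torsion hζ]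
  have h4 : ∀ i, ((U.phi htop p).comp (uT 𝔮)) (U.eU i) = 1 := by
    intro i
    rw [MonoidHom.comp_apply]
    ext
    rw [U.phi_coe, Units.val_one]
    have h5 : ax (U.NU p.2) (((uT 𝔮 (U.eU i) : Tq 𝔮) : 𝓞 K) : K) =
        cexp (2 * Real.pi * I * (p.2 i : ℂ)) := U.ax_eps p.2 i
    rw [h5]
    exact hp.1 i
  rw [← MonoidHom.comp_apply, h2, map_mul, h3, one_mul, map_prod]
  refine Finset.prod_eq_one fun i _ => ?_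
  rw [map_zpow, h4, one_zpow]

/-- the extension to the ideals -/
theorem UG.exists_F (U : UG K) {𝔮 : Ideal (𝓞 K)} (htop : 𝔮 ≠ ⊤) {V : ℝ} (hV : 0 ≤ V)
    {p : (GQ 𝔮 →* ℂˣ) × (Fin (rank K) → ℝ)} (hp : p ∈ U.PQ 𝔮 V) :
    ∃ F ∈ DV 𝔮 V, ∀ x : Tq 𝔮, F (pq 𝔮 x) = U.phi htop p x := by
  have := Mq_cancel htop
  obtain ⟨F, hF⟩ := ext_mon (pq 𝔮) (U.phi htop p) (by
    intro x y hxy
    have h1 := congrArg Subtype.val hxy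
    rw [pq_coe, pq_coe, Ideal.span_singleton_eq_span_singleton] at h1
    obtain ⟨u, hu⟩ := h1
    have hup : TPos K (u : 𝓞 K) := tpos_of_mul (Tq_tp x) (by rw [hu]; exact Tq_tp y)
    have h2 : x * uT 𝔮 ⟨u, hup⟩ = y := Subtype.ext hu
    rw [← h2, map_mul, U.phi_unit htop hp, mul_one])
  refine ⟨F, ⟨U.NU p.2, (U.p_le _ hV).mp hp.2, U.NUs _, fun x hx => ?_⟩, hF⟩
  rw [hF, U.phi_coe]
  have h1 : gQ 𝔮 x = 1 := by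
    rw [← map_one (gQ 𝔮)]
    exact gQ_of_gq ((gq_eq_iff x 1).mpr hx)
  rw [h1, map_one, Units.val_one, one_mul]

/-- the parameters are determined by the values -/
theorem UG.par_unique (U : UG K) {𝔮 : Ideal (𝓞 K)} (hbot : 𝔮 ≠ ⊥) (htop : 𝔮 ≠ ⊤)
    {p p' : (GQ 𝔮 →* ℂˣ) × (Fin (rank K) → ℝ)}
    (h : ∀ x : Tq 𝔮, U.phi htop p x = U.phi htop p' x) : p = p' := by
  have h1 : U.NU p.2 - U.NU p'.2 = 0 := by
    refine uniq hbot (by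
      simp only [Pi.sub_apply, Finset.sum_sub_distrib, U.NUs, sub_self]) ?_
    intro x hx0 hx1 hxp
    obtain ⟨y, hy⟩ : ∃ y : Tq 𝔮, y = ⟨x, hxp, cop_one hx1⟩ := ⟨_, rfl⟩
    have hyx : (y : 𝓞 K) = x := by rw [hy]
    have h2 : ((U.phi htop p y : ℂˣ) : ℂ) = U.phi htop p' y := by rw [h y]
    rw [U.phi_coe, U.phi_coe] at h2
    have h3 : gQ 𝔮 y = 1 := by
      rw [← map_one (gQ 𝔮)]
      exact gQ_of_gq ((gq_eq_iff y 1).mpr (by rw [hyx]; exact hx1))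
    rw [h3, map_one, map_one, Units.val_one, one_mul, one_mul, hyx] at h2
    have h4 : ax (U.NU p.2 - U.NU p'.2) (x : K) = ax (U.NU p.2) (x : K) / ax (U.NU p'.2) (x : K) := by
      unfold ax
      rw [← Complex.exp_sub, ← mul_sub, ← Complex.ofReal_sub, ← Finset.sum_sub_distrib]
      congr 3
      exact Finset.sum_congr rfl fun w _ => by rw [Pi.sub_apply]; ring
    rw [h4, h2, div_self (ax_ne _ _)]
  have h2 : p.2 = p'.2 := U.NU_inj (sub_eq_zero.mp h1)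
  refine Prod.ext ?_ h2
  refine MonoidHom.ext fun g => ?_
  obtain ⟨x, rfl⟩ := gQ_surj hbot g
  have h3 : ((U.phi htop p x : ℂˣ) : ℂ) = U.phi htop p' x := by rw [h x]
  rw [U.phi_coe, U.phi_coe, h2] at h3
  ext
  exact mul_right_cancel₀ (ax_ne _ _) h3

end

end Pool.Agent.Y773.G.GH
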