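import Pool.Agent.A856.GH.FamG
import Pool.Agent.Y773.IQ.Num

/-! # The size of the family, the average of the conductors, the large sieve with constant `D` -/

set_option autoImplicit false
set_option linter.unusedSectionVars false

open NumberField Filter Topology MeasureTheory
open NumberField.Units

namespace Pool.Agent.Y773.G.GH

open Pool.Agent.Y773 (TPos VM cc)
open Pool.Agent.Y767 (ax Mq Mq_cop Mq_ne_bot Mq_cancel Tq Tq_tp Tq_cop Tq_ne_zero pq pq_coe Cls cls cK)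
open Pool.Agent.Helper503_UI (hK)
open Pool.Agent.Y773.IQ (absNorm_pos' dv dv_finite divisor_bound norm_le_tau_phi exists_ge)

section

variable (K : Type) [Field K] [NumberField K]

lemma one_le_norm {𝔮 : Ideal (𝓞 K)} (h : 𝔮 ≠ ⊥) : (1 : ℝ) ≤ (Ideal.absNorm 𝔮 : ℝ) := by
  exact_mod_cast Pool.Agent.Y773.IQ.absNorm_pos' h

/-- the numbers of characters -/
structure Pack (V : ℝ) (N : ℕ) (κ : ℝ) : Prop where
  pos : 0 < κ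
  num : ∀ 𝔮 : Ideal (𝓞 K), 𝔮 ≠ ⊥ → 𝔮 ≠ ⊤ → (DV 𝔮 V).Finite ∧ (DW 𝔮 V).Finite ∧
    (Nat.card (Cls (pq 𝔮)) : ℝ) * (Nat.card (GQ 𝔮) * κ) ≤ (DV 𝔮 V).ncard ∧
    (DV 𝔮 V).ncard ≤ Ideal.absNorm 𝔮 * N ∧
    (DW 𝔮 V).ncard ≤ Nat.card (Cls (pq 𝔮)) * N

variable {K}

theorem exists_pack (U : UG K) : ∃ c : ℝ, 0 ≤ c ∧ ∀ V : ℝ, c < V → ∃ N : ℕ,
    Pack K V N ((V - c) ^ rank K * U.vol) := by
  obtain ⟨c, hc0, hc⟩ := U.PQ_card
  refine ⟨c, hc0, fun V hV => ?_⟩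
  obtain ⟨N, hN1, hN2, hN3⟩ := hc V hV.le
  have hV0 : 0 ≤ V := hc0.trans hV.le
  have hh : 0 < hK K := by
    unfold hK
    exact Nat.mul_pos Nat.card_pos Nat.card_pos
  refine ⟨N * hK K, ⟨mul_pos (pow_pos (by linarith) _) U.vol_pos, fun 𝔮 hbot htop => ?_⟩⟩
  obtain ⟨h1, h2, h3⟩ := hN3 𝔮 hbot
  obtain ⟨h4, h5⟩ := U.DV_card hbot htop hV0 h1
  obtain ⟨h6, h7⟩ := U.DW_card hbot htop hV0 hN2
  obtain ⟨h8, h9⟩ := cls_fin hbot htop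
  refine ⟨h4, h6, ?_, ?_, ?_⟩
  · rw [h5]
    push_cast
    rw [mul_comm]
    exact mul_le_mul_of_nonneg_right h2 (Nat.cast_nonneg _)
  · rw [h5]
    calc (U.PQ 𝔮 V).ncard * Nat.card (Cls (pq 𝔮)) ≤ (Nat.card (GQ 𝔮) * N) * hK K :=
          Nat.mul_le_mul h3 h9
      _ ≤ (Ideal.absNorm 𝔮 * N) * hK K :=
          Nat.mul_le_mul_right _ (Nat.mul_le_mul_right _ (card_GQ_le hbot))
      _ = _ := by ring
  · calc (DW 𝔮 V).ncard ≤ _ := h7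
      _ ≤ N * Nat.card (Cls (pq 𝔮)) := Nat.mul_le_mul_right _ hN1
      _ ≤ Nat.card (Cls (pq 𝔮)) * (N * hK K) := by
          rw [mul_comm]
          exact Nat.mul_le_mul_left _ (Nat.le_mul_of_pos_right _ hh)

lemma cls_pos {𝔮 : Ideal (𝓞 K)} (hbot : 𝔮 ≠ ⊥) (htop : 𝔮 ≠ ⊤) :
    (1 : ℝ) ≤ Nat.card (Cls (pq 𝔮)) := by
  have := (cls_fin hbot htop).1
  have h : 0 < Nat.card (Cls (pq 𝔮)) := Nat.card_pos
  exact_mod_cast h

/-- the family is at least the difference -/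
lemma Pack.lower {V κ : ℝ} {N : ℕ} (P : Pack K V N κ) {𝔮 : Ideal (𝓞 K)} (hbot : 𝔮 ≠ ⊥)
    (htop : 𝔮 ≠ ⊤) : (Nat.card (Cls (pq 𝔮)) : ℝ) * (Nat.card (GQ 𝔮) * κ - N) ≤
      (FamH 𝔮 V).ncard := by
  obtain ⟨h1, h2, h3, -, h5⟩ := P.num 𝔮 hbot htop
  have h6 := FamH_lower hbot htop h1 h2
  have h7 : ((DV 𝔮 V).ncard : ℝ) ≤ (FamH 𝔮 V).ncard + (DW 𝔮 V).ncard := by exact_mod_cast h6
  have h8 : ((DW 𝔮 V).ncard : ℝ) ≤ Nat.card (Cls (pq 𝔮)) * N := by exact_mod_cast h5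
  rw [mul_sub]
  linarith

variable (K) in
/-- the group of the residue classes is large -/
theorem GQ_big {ε : ℝ} (hε : 0 < ε) : ∃ c : ℝ, 0 < c ∧
    ∀ 𝔮 : Ideal (𝓞 K), 𝔮 ≠ ⊥ → 𝔮 ≠ ⊤ → c * (Ideal.absNorm 𝔮 : ℝ) ^ (1 - ε) ≤
      (Nat.card (GQ 𝔮) : ℝ) := by
  obtain ⟨C, hC, hdiv⟩ := divisor_bound K hε
  have hw : (0 : ℝ) < Nat.card (torsion K) := by exact_mod_cast Nat.card_pos
  refine ⟨1 / (C * Nat.card (torsion K)), by positivity, fun 𝔮 hbot htop => ?_⟩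
  have hN1 := one_le_norm K hbot
  have a1 := norm_le_tau_phi hbot
  have a2 := card_GQ (K := K) hbot
  have a4 := hdiv 𝔮 hbot
  have b1 : (Ideal.absNorm 𝔮 : ℝ) ≤ (dv 𝔮).ncard * Nat.card (𝓞 K ⧸ 𝔮)ˣ := by exact_mod_cast a1
  have b2 : (Nat.card (𝓞 K ⧸ 𝔮)ˣ : ℝ) ≤ Nat.card (torsion K) * Nat.card (GQ 𝔮) := by
    exact_mod_cast a2
  have hN0 : (0 : ℝ) < Ideal.absNorm 𝔮 := by linarith
  have e1 : (Ideal.absNorm 𝔮 : ℝ) ^ (1 - ε) * (Ideal.absNorm 𝔮 : ℝ) ^ ε = Ideal.absNorm 𝔮 := by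
    rw [← Real.rpow_add hN0, sub_add_cancel, Real.rpow_one]
  have hp : 0 < (Ideal.absNorm 𝔮 : ℝ) ^ ε := Real.rpow_pos_of_pos hN0 _
  rw [one_div, inv_mul_le_iff₀ (by positivity)]
  refine le_of_mul_le_mul_right ?_ hp
  rw [e1]
  calc (Ideal.absNorm 𝔮 : ℝ) ≤ (dv 𝔮).ncard * Nat.card (𝓞 K ⧸ 𝔮)ˣ := b1
    _ ≤ (C * (Ideal.absNorm 𝔮 : ℝ) ^ ε) * (Nat.card (torsion K) * Nat.card (GQ 𝔮)) :=
        mul_le_mul a4 b2 (Nat.cast_nonneg _) (by positivity)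
    _ = _ := by ring

/-- the group is larger than any constant -/
theorem GQ_big' (B : ℝ) : ∃ N0 : ℝ, 1 ≤ N0 ∧ ∀ 𝔮 : Ideal (𝓞 K), 𝔮 ≠ ⊥ → 𝔮 ≠ ⊤ →
    N0 ≤ (Ideal.absNorm 𝔮 : ℝ) → B ≤ (Nat.card (GQ 𝔮) : ℝ) := by
  obtain ⟨c, hc, h⟩ := GQ_big K (ε := 1 / 2) (by norm_num)
  obtain ⟨N0, hN0, h0⟩ := exists_ge (1 - 1 / 2) (B / c) (by norm_num)
  refine ⟨N0, hN0, fun 𝔮 hbot htop hN => ?_⟩
  have h1 := h 𝔮 hbot htop
  have h2 := h0 _ hN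
  rw [div_le_iff₀ hc] at h2
  linarith

/-- the family is large -/
theorem Pack.big {V κ : ℝ} {N : ℕ} (P : Pack K V N κ) {ε : ℝ} (hε : 0 < ε) :
    ∃ c N0 : ℝ, 0 < c ∧ 1 ≤ N0 ∧
    ∀ 𝔮 : Ideal (𝓞 K), 𝔮 ≠ ⊥ → 𝔮 ≠ ⊤ → N0 ≤ (Ideal.absNorm 𝔮 : ℝ) →
      c * (Ideal.absNorm 𝔮 : ℝ) ^ (1 - ε) ≤ ((FamH 𝔮 V).ncard : ℝ) := by
  obtain ⟨c, hc, h⟩ := GQ_big K hε
  obtain ⟨N0, hN0, h0⟩ := GQ_big' (K := K) (2 * N / κ)
  have hκ := P.pos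
  refine ⟨c * κ / 2, N0, by positivity, hN0, fun 𝔮 hbot htop hN => ?_⟩
  have h1 := h 𝔮 hbot htop
  have h2 := h0 𝔮 hbot htop hN
  rw [div_le_iff₀ hκ] at h2
  have h3 := P.lower hbot htop
  have h4 := cls_pos hbot htop
  have h5 : 0 ≤ Nat.card (GQ 𝔮) * κ - N := by
    have : (0 : ℝ) ≤ N := Nat.cast_nonneg _
    linarith
  have h6 : (Nat.card (GQ 𝔮) : ℝ) * κ - N ≤ (FamH 𝔮 V).ncard := by
    refine le_trans ?_ h3
    exact le_mul_of_one_le_left h5 h4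
  have h7 : c * (Ideal.absNorm 𝔮 : ℝ) ^ (1 - ε) * κ ≤ Nat.card (GQ 𝔮) * κ :=
    mul_le_mul_of_nonneg_right h1 hκ.le
  linarith

/-- the average of the logarithms of the conductors -/
theorem Pack.cond {V κ : ℝ} {N : ℕ} (P : Pack K V N κ) {δ : ℝ} (hδ : 0 < δ) : ∃ N0 : ℝ, 1 ≤ N0 ∧
    ∀ (𝔮 : Ideal (𝓞 K)) (_ : 𝔮 ≠ ⊥) (_ : 𝔮 ≠ ⊤) (S : Finset (Ideal (𝓞 K) →*₀ ℂ)),
      (∀ ψ, ψ ∈ S ↔ ψ ∈ FamH 𝔮 V) → N0 ≤ (Ideal.absNorm 𝔮 : ℝ) →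
      ∑ ψ ∈ S, (Real.log (Ideal.absNorm 𝔮) - Real.log (Ideal.absNorm (cdH 𝔮 V ψ))) ≤
        δ * Real.log (Ideal.absNorm 𝔮) * S.card := by
  classical
  obtain ⟨δ', hδ'⟩ : ∃ δ' : ℝ, δ' = min δ 1 := ⟨_, rfl⟩
  have hd0 : 0 < δ' := by rw [hδ']; exact lt_min hδ one_pos
  have hd1 : δ' ≤ 1 := by rw [hδ']; exact min_le_right _ _
  have hdd : δ' ≤ δ := by rw [hδ']; exact min_le_left _ _
  obtain ⟨C, hC, hdiv⟩ := divisor_bound K (ε := δ' / 8) (by positivity)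
  obtain ⟨c, N0, hc, hN0, hbig⟩ := P.big (ε := δ' / 8) (by positivity)
  obtain ⟨h, hh⟩ : ∃ h : ℝ, h = (N : ℝ) := ⟨_, rfl⟩
  have hh0 : 0 ≤ h := by rw [hh]; exact Nat.cast_nonneg _
  obtain ⟨N1, hN1, h1⟩ := exists_ge (δ' / 4) (2 * C * h / (c * δ')) (by positivity)
  refine ⟨max N0 N1, le_max_of_le_left hN0, fun 𝔮 hbot htop S hS hNq => ?_⟩
  have k1 := hbig 𝔮 hbot htop ((le_max_left _ _).trans hNq)
  have k2 := h1 _ ((le_max_right _ _).trans hNq)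
  obtain ⟨Q, hQd⟩ : ∃ Q : ℝ, Q = (Ideal.absNorm 𝔮 : ℝ) := ⟨_, rfl⟩
  have hQge : 1 ≤ Q := by rw [hQd]; exact one_le_norm K hbot
  have hQp : 0 < Q := by linarith
  have hL : 0 ≤ Real.log Q := Real.log_nonneg hQge
  have hSc : (S.card : ℝ) = ((FamH 𝔮 V).ncard : ℝ) := by
    have : (FamH 𝔮 V) = (S : Set _) := by
      ext ψ; rw [Finset.mem_coe, hS]
    rw [this, Set.ncard_coe_finset]
  rw [← hSc] at k1
  rw [← hQd] at k1 k2 ⊢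
  obtain ⟨Z, hZ⟩ : ∃ Z : ℝ, Z = Q ^ (1 - δ' / 2) := ⟨_, rfl⟩
  have hZ0 : 0 < Z := by rw [hZ]; exact Real.rpow_pos_of_pos hQp _
  have hlogZ : Real.log Z = (1 - δ' / 2) * Real.log Q := by rw [hZ, Real.log_rpow hQp]
  obtain ⟨S1, hS1⟩ : ∃ S1 : Finset (Ideal (𝓞 K) →*₀ ℂ),
      S1 = S.filter (fun ψ => (Ideal.absNorm (cdH 𝔮 V ψ) : ℝ) ≤ Z) := ⟨_, rfl⟩
  have m1 := small_condH N (fun 𝔣 hb ht => ⟨(P.num 𝔣 hb ht).1, (P.num 𝔣 hb ht).2.2.2.1⟩)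
    hbot Z hZ0.le S1 (by
    intro ψ hψ
    rw [hS1] at hψ
    obtain ⟨u1, u2⟩ := Finset.mem_filter.mp hψ
    exact ⟨(hS ψ).mp u1, u2⟩)
  have m2 : (S1.card : ℝ) ≤ δ' / 2 * S.card := by
    have v1 := hdiv 𝔮 hbot
    rw [← hQd] at v1
    rw [← hh] at m1
    have v2 : Q ^ (δ' / 8) * Z * Q ^ (δ' / 4) = Q ^ (1 - δ' / 8) := by
      rw [hZ, ← Real.rpow_add hQp, ← Real.rpow_add hQp]
      congr 1; ring
    rw [div_le_iff₀ (by positivity)] at k2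
    have v3 : 0 < Q ^ (δ' / 8) * Z := mul_pos (Real.rpow_pos_of_pos hQp _) hZ0
    calc (S1.card : ℝ) ≤ (dv 𝔮).ncard * (Z * h) := m1
      _ ≤ (C * Q ^ (δ' / 8)) * (Z * h) := mul_le_mul_of_nonneg_right v1 (by positivity)
      _ = (Q ^ (δ' / 8) * Z) * (C * h) := by ring
      _ ≤ (Q ^ (δ' / 8) * Z) * (Q ^ (δ' / 4) * (c * δ') / 2) := by
          refine mul_le_mul_of_nonneg_left ?_ v3.le
          linarith
      _ = δ' / 2 * (c * (Q ^ (δ' / 8) * Z * Q ^ (δ' / 4))) := by ring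
      _ ≤ δ' / 2 * S.card := by
          rw [v2]
          exact mul_le_mul_of_nonneg_left k1 (by positivity)
  have m3 : ∀ ψ ∈ S, Real.log Q - Real.log (Ideal.absNorm (cdH 𝔮 V ψ)) ≤
      δ' / 2 * Real.log Q + (if ψ ∈ S1 then Real.log Q else 0) := by
    intro ψ hψ
    obtain ⟨ν, -, -, -, -, w1⟩ := cdH_spec ((hS ψ).mp hψ)
    have w2 : (1 : ℝ) ≤ (Ideal.absNorm (cdH 𝔮 V ψ) : ℝ) := one_le_norm K w1.ne_bot
    have w3 : 0 ≤ Real.log (Ideal.absNorm (cdH 𝔮 V ψ)) := Real.log_nonneg w2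
    split_ifs with hmem
    · have : 0 ≤ δ' / 2 * Real.log Q := by positivity
      linarith
    · have w4 : Z < (Ideal.absNorm (cdH 𝔮 V ψ) : ℝ) := by
        by_contra hcon
        apply hmem
        rw [hS1]
        exact Finset.mem_filter.mpr ⟨hψ, not_lt.mp hcon⟩
      have w5 := Real.log_le_log hZ0 w4.le
      rw [hlogZ] at w5
      linarith
  refine (Finset.sum_le_sum m3).trans ?_
  rw [Finset.sum_add_distrib, Finset.sum_const, nsmul_eq_mul, ← Finset.sum_filter, Finset.sum_const,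
    nsmul_eq_mul]
  have m4 : ((S.filter (fun ψ => ψ ∈ S1)).card : ℝ) ≤ S1.card := by
    have : (S.filter (fun ψ => ψ ∈ S1)).card ≤ S1.card :=
      Finset.card_le_card fun ψ h => (Finset.mem_filter.mp h).2
    exact_mod_cast this
  have m5 : ((S.filter (fun ψ => ψ ∈ S1)).card : ℝ) * Real.log Q ≤ δ' / 2 * S.card * Real.log Q :=
    mul_le_mul_of_nonneg_right (m4.trans m2) hL
  have m6 : δ' * (Real.log Q * S.card) ≤ δ * (Real.log Q * S.card) :=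
    mul_le_mul_of_nonneg_right hdd (by positivity)
  nlinarith

/-- `V^r ≤ (1 + x) (V - c)^r` for large `V` -/
lemma pow_ratio (r : ℕ) {c x : ℝ} (hc : 0 ≤ c) (hx : 0 < x) : ∃ V₀ : ℝ, 1 ≤ V₀ ∧ c < V₀ ∧
    ∀ V : ℝ, V₀ ≤ V → V ^ r ≤ (1 + x) * (V - c) ^ r := by
  refine ⟨max (c + 1) (r * c * (1 + x) / x), le_max_of_le_left (by linarith),
    lt_max_of_lt_left (by linarith), fun V hV => ?_⟩
  have h1 : c + 1 ≤ V := (le_max_left _ _).trans hV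
  have h2 : r * c * (1 + x) / x ≤ V := (le_max_right _ _).trans hV
  have hV0 : 0 < V := by linarith
  rw [div_le_iff₀ hx] at h2
  have h3 : -2 ≤ -(c / V) := by
    have : c / V ≤ 1 := by rw [div_le_one hV0]; linarith
    linarith
  have h4 := one_add_mul_le_pow h3 r
  have h5 : (V - c) ^ r = V ^ r * (1 + -(c / V)) ^ r := by
    rw [← mul_pow]
    congr 1
    field_simp
    ring
  rw [h5]
  have h6 : 1 ≤ (1 + x) * (1 + (r : ℝ) * -(c / V)) := by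
    have h7 : (1 + x) * (1 + (r : ℝ) * -(c / V)) = (1 + x) - (r * c * (1 + x)) / V := by
      field_simp
      ring
    rw [h7]
    have h8 : (r * c * (1 + x)) / V ≤ x := by
      rw [div_le_iff₀ hV0]; linarith
    linarith
  have h9 : 1 ≤ (1 + x) * (1 + -(c / V)) ^ r :=
    h6.trans (mul_le_mul_of_nonneg_left h4 (by linarith))
  calc V ^ r = V ^ r * 1 := (mul_one _).symm
    _ ≤ V ^ r * ((1 + x) * (1 + -(c / V)) ^ r) := mul_le_mul_of_nonneg_left h9 (by positivity)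
    _ = _ := by ring

/-- **the large sieve for the family with constant `D`** -/
theorem fam_lsH (U : UG K) {D : ℝ} (hD : 1 < D) : ∃ V₀ : ℝ, 1 ≤ V₀ ∧ ∀ V : ℝ, V₀ ≤ V →
    (∃ (N : ℕ) (κ : ℝ), Pack K V N κ) ∧
    ∀ ε0 : ℝ, 0 < ε0 → ∃ N0 : ℝ, 1 ≤ N0 ∧ ∀ (𝔮 : Ideal (𝓞 K)) (_ : 𝔮 ≠ ⊥) (_ : 𝔮 ≠ ⊤)
      (S : Finset (Ideal (𝓞 K) →*₀ ℂ)), (∀ ψ, ψ ∈ S ↔ ψ ∈ FamH 𝔮 V) →
      N0 ≤ (Ideal.absNorm 𝔮 : ℝ) →
      ∀ M : ℕ, (M : ℝ) ≤ (Ideal.absNorm 𝔮 : ℝ) ^ (1 - ε0) → ∀ b : ℕ → ℂ,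
      ∑ ψ ∈ S, ‖∑ m ∈ Finset.Icc 1 M, b m * (if Nat.Coprime m (Ideal.absNorm 𝔮) then
        Pool.Agent.Y773.cc ψ m * (ArithmeticFunction.vonMangoldt m : ℂ) else 0)‖ ^ 2 ≤
      D * S.card * ∑ m ∈ Finset.Icc 1 M,
          ‖b m‖ ^ 2 * (ArithmeticFunction.vonMangoldt m * ‖Pool.Agent.Y767.cK K m‖) ^ 2 := by
  obtain ⟨c, hc, hpack⟩ := exists_pack U
  obtain ⟨x, hx⟩ : ∃ x : ℝ, x = min 1 ((D - 1) / 7) := ⟨_, rfl⟩
  have hx0 : 0 < x := by rw [hx]; exact lt_min one_pos (by linarith)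
  have hx1 : x ≤ 1 := by rw [hx]; exact min_le_left _ _
  have hx7 : x ≤ (D - 1) / 7 := by rw [hx]; exact min_le_right _ _
  have hxD : (1 + x) ^ 3 ≤ D := by nlinarith [mul_nonneg hx0.le hx0.le]
  obtain ⟨V₀, hV1, hVc, hV₀⟩ := pow_ratio (rank K) hc hx0
  have hv := U.vol_pos
  refine ⟨V₀, hV1, fun V hV => ?_⟩
  have hVcV : c < V := hVc.trans_le hV
  have hV0 : 0 ≤ V := by linarith
  have hVone : 1 ≤ V := hV1.trans hV
  obtain ⟨N, P⟩ := hpack V hVcV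
  refine ⟨⟨N, _, P⟩, fun ε0 hε0 => ?_⟩
  obtain ⟨C, hC, hls⟩ := U.ls hV0 (δ := x * U.vol) (by positivity)
  obtain ⟨κ, hκ⟩ : ∃ κ : ℝ, κ = (V - c) ^ rank K * U.vol := ⟨_, rfl⟩
  rw [← hκ] at P
  have hκ0 := P.pos
  obtain ⟨N1, hN1, h1⟩ := GQ_big' (K := K) (N * (1 + x) / (x * κ))
  obtain ⟨N2, hN2, h2⟩ := exists_ge ε0 (C + 1) hε0
  refine ⟨max N1 N2, le_max_of_le_left hN1, fun 𝔮 hbot htop S hS hNq M hM b => ?_⟩
  have k1 := h1 𝔮 hbot htop ((le_max_left _ _).trans hNq)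
  have k2 := h2 _ ((le_max_right _ _).trans hNq)
  have hNp : (0 : ℝ) < Ideal.absNorm 𝔮 := by linarith [one_le_norm K hbot]
  have hSc : (S.card : ℝ) = ((FamH 𝔮 V).ncard : ℝ) := by
    have : (FamH 𝔮 V) = (S : Set _) := by
      ext ψ; rw [Finset.mem_coe, hS]
    rw [this, Set.ncard_coe_finset]
  have hM4 : C * M < Ideal.absNorm 𝔮 := by
    have e1 : (Ideal.absNorm 𝔮 : ℝ) ^ (1 - ε0) * (Ideal.absNorm 𝔮 : ℝ) ^ ε0 = Ideal.absNorm 𝔮 := by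
      rw [← Real.rpow_add hNp, sub_add_cancel, Real.rpow_one]
    have e2 : 0 < (Ideal.absNorm 𝔮 : ℝ) ^ (1 - ε0) := Real.rpow_pos_of_pos hNp _
    nlinarith
  obtain ⟨B, hB⟩ : ∃ B : ℝ, B = Nat.card (Cls (pq 𝔮)) *
      (Nat.card (GQ 𝔮) * (V ^ rank K * U.vol + x * U.vol)) := ⟨_, rfl⟩
  have hB0 : 0 ≤ B := by rw [hB]; positivity
  have k3 := ls_ccH hbot htop (V := V) (B := B) (C := C) (fun Y hY S' M' hM' hCM a => by
    rw [hB]; exact hls 𝔮 hbot htop Y hY S' M' hM' hCM a) hB0 S (fun ψ hψ => (hS ψ).mp hψ) hM4 b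
  refine k3.trans (mul_le_mul_of_nonneg_right ?_ ?_)
  · -- `B ≤ D * card`
    have m1 := P.lower hbot htop
    rw [← hSc] at m1
    obtain ⟨h, hh⟩ : ∃ h : ℝ, h = (Nat.card (Cls (pq 𝔮)) : ℝ) := ⟨_, rfl⟩
    obtain ⟨g, hg⟩ : ∃ g : ℝ, g = (Nat.card (GQ 𝔮) : ℝ) := ⟨_, rfl⟩
    have hh1 : 1 ≤ h := by rw [hh]; exact cls_pos hbot htop
    have hg0 : 0 ≤ g := by rw [hg]; exact Nat.cast_nonneg _
    rw [← hh, ← hg] at m1 hB
    rw [← hg] at k1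
    have m2 : V ^ rank K * U.vol + x * U.vol ≤ (1 + x) ^ 2 * κ := by
      have n1 := hV₀ V hV
      have n2 : (1 : ℝ) ≤ V ^ rank K := one_le_pow₀ hVone
      have n3 : V ^ rank K * U.vol + x * U.vol ≤ (1 + x) * (V ^ rank K * U.vol) := by
        have : x * U.vol ≤ x * (V ^ rank K * U.vol) :=
          mul_le_mul_of_nonneg_left (le_mul_of_one_le_left hv.le n2) hx0.le
        linarith
      have n4 : V ^ rank K * U.vol ≤ (1 + x) * κ := by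
        rw [hκ, ← mul_assoc]
        exact mul_le_mul_of_nonneg_right n1 hv.le
      calc _ ≤ (1 + x) * (V ^ rank K * U.vol) := n3
        _ ≤ (1 + x) * ((1 + x) * κ) := mul_le_mul_of_nonneg_left n4 (by linarith)
        _ = _ := by ring
    have m3 : g * κ ≤ (1 + x) * (g * κ - N) := by
      rw [div_le_iff₀ (by positivity)] at k1
      have : (1 + x) * (g * κ - N) = g * κ + (g * (x * κ) - N * (1 + x)) := by ring
      rw [this]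
      linarith
    rw [hB]
    calc h * (g * (V ^ rank K * U.vol + x * U.vol)) ≤ h * (g * ((1 + x) ^ 2 * κ)) :=
          mul_le_mul_of_nonneg_left (mul_le_mul_of_nonneg_left m2 hg0) (by linarith)
      _ = (1 + x) ^ 2 * (h * (g * κ)) := by ring
      _ ≤ (1 + x) ^ 2 * (h * ((1 + x) * (g * κ - N))) := by
          refine mul_le_mul_of_nonneg_left (mul_le_mul_of_nonneg_left m3 (by linarith)) (by positivity)
      _ = (1 + x) ^ 3 * (h * (g * κ - N)) := by ring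
      _ ≤ (1 + x) ^ 3 * S.card := mul_le_mul_of_nonneg_left m1 (by positivity)
      _ ≤ D * S.card := mul_le_mul_of_nonneg_right hxD (Nat.cast_nonneg _)
  · exact Finset.sum_nonneg fun m _ => by positivity

end

end Pool.Agent.Y773.G.GH
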