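import Pool.Agent.A856.GH.Famn

/-! # The integral of the phase over the cube vanishes (adapted from `Pool.Agent.Y767.HC.Ph0`) -/

set_option autoImplicit false
set_option linter.unusedSectionVars false

open NumberField Complex Filter Topology MeasureTheory Set
open NumberField.Units NumberField.Units.dirichletUnitTheorem

namespace Pool.Agent.Y773.G.GH

open Pool.Agent.Y767

variable {K : Type} [Field K] [NumberField K]

/-- `∑_w ν_w log |ε_i|_w` -/
noncomputable def ell (K : Type) [Field K] [NumberField K] (ν : InfinitePlace K → ℝ)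
    (i : Fin (rank K)) : ℝ :=
  ∑ w, ν w * Real.log (w ((fundSystem K i : (𝓞 K)ˣ) : K))

lemma sum_el_eq (ν : InfinitePlace K → ℝ) (θ : Fin (rank K) → ℝ) :
    ∑ w, ν w * el K (0, θ) w = 2 * ∑ i, θ i * ell K ν i := by
  unfold ell
  simp only [el, LinearMap.coe_mk, AddHom.coe_mk, zero_add]
  simp_rw [Finset.mul_sum]
  rw [Finset.sum_comm]
  refine Finset.sum_congr rfl fun i _ => Finset.sum_congr rfl fun w _ => ?_
  ring

lemma ph_eq_prod (ν : InfinitePlace K → ℝ) (θ : Fin (rank K) → ℝ) :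
    ph ν (el K (0, θ)) = ∏ i, cexp (-(I * ell K ν i) * θ i) := by
  unfold ph
  rw [sum_el_eq, ← Complex.exp_sum]
  congr 1
  have h1 : ((2 * ∑ i, θ i * ell K ν i : ℝ) : ℂ) = 2 * ∑ i, (θ i : ℂ) * (ell K ν i : ℂ) := by
    push_cast
    rfl
  rw [h1]
  have h2 : ∑ i, -(I * (ell K ν i : ℂ)) * (θ i : ℂ) = -(I * ∑ i, (θ i : ℂ) * (ell K ν i : ℂ)) := by
    rw [Finset.mul_sum, ← Finset.sum_neg_distrib]
    exact Finset.sum_congr rfl fun i _ => by ring
  rw [h2]
  ring

lemma int_exp_zero {l : ℝ} (hl : l ≠ 0) (h : cexp (-(I * l)) = 1) :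
    ∫ x in Icc (0 : ℝ) 1, cexp (-(I * l) * x) = 0 := by
  rw [integral_Icc_eq_integral_Ioc, ← intervalIntegral.integral_of_le zero_le_one]
  have hc : -(I * (l : ℂ)) ≠ 0 := neg_ne_zero.mpr (mul_ne_zero I_ne_zero (by exact_mod_cast hl))
  rw [integral_exp_mul_complex hc]
  simp [h]

lemma Ph_zero {ν : InfinitePlace K → ℝ} {i : Fin (rank K)} (hl : ell K ν i ≠ 0)
    (h : cexp (-(I * ell K ν i)) = 1) : Ph K ν = 0 := by
  unfold Ph
  simp_rw [ph_eq_prod]
  have h1 : (volume : Measure (Fin (rank K) → ℝ)).restrict (Icc (0 : Fin (rank K) → ℝ) 1) =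
      Measure.pi fun i => (volume : Measure ℝ).restrict (Icc 0 1) := by
    rw [← Set.pi_univ_Icc, volume_pi, Measure.restrict_pi_pi]
    rfl
  rw [h1, integral_fintype_prod_eq_prod (fun (i : Fin (rank K)) (x : ℝ) =>
    cexp (-(I * ell K ν i) * x))]
  exact Finset.prod_eq_zero (Finset.mem_univ i) (int_exp_zero hl h)

/-- a type with all `ell = 0` and sum zero is zero -/
lemma eq_zero_of_ell {ν : InfinitePlace K → ℝ} (hν : ∑ w, ν w = 0) (h : ∀ i, ell K ν i = 0) :
    ν = 0 := by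
  have h1 : ∀ p : PP K, ∑ w, ν w * el K p w = 0 := by
    intro p
    obtain ⟨τ, θ⟩ := p
    have h2 : ∑ w, ν w * el K (τ, θ) w = τ * ∑ w, ν w + ∑ w, ν w * el K (0, θ) w := by
      rw [Finset.mul_sum, ← Finset.sum_add_distrib]
      refine Finset.sum_congr rfl fun w _ => ?_
      simp only [el, LinearMap.coe_mk, AddHom.coe_mk]
      ring
    rw [h2, hν, sum_el_eq]
    simp [h]
  obtain ⟨p, hp⟩ := (elE K).surjective ν
  have h2 := h1 p
  rw [← elE_apply, hp] at h2
  have h3 : ∀ w ∈ Finset.univ, ν w * ν w = 0 :=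
    (Finset.sum_eq_zero_iff_of_nonneg fun w _ => mul_self_nonneg _).mp h2
  funext w
  exact mul_self_eq_zero.mp (h3 w (Finset.mem_univ w))

/-- either some unit moves, or the integral of the phase is zero -/
lemma unit_or_Ph {ν : InfinitePlace K → ℝ} (hν : ∑ w, ν w = 0) (h0 : ν ≠ 0) :
    (∃ u : (𝓞 K)ˣ, ax ν ((u : 𝓞 K) : K) ≠ 1) ∨ Ph K (fun w => -ν w) = 0 := by
  by_contra hcon
  push Not at hcon
  obtain ⟨h1, h2⟩ := hcon
  have : ∃ i, ell K ν i ≠ 0 := by
    by_contra h3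
    push Not at h3
    exact h0 (eq_zero_of_ell hν h3)
  obtain ⟨i, hi⟩ := this
  apply h2
  have h4 : ell K (fun w => -ν w) i = -ell K ν i := by
    unfold ell
    rw [← Finset.sum_neg_distrib]
    exact Finset.sum_congr rfl fun w _ => by ring
  refine Ph_zero (i := i) ?_ ?_
  · rw [h4]; exact neg_ne_zero.mpr hi
  · rw [h4]
    have h5 := h1 (fundSystem K i)
    unfold ax at h5
    rw [← h5]
    congr 1
    unfold ell
    push_cast
    ring

end Pool.Agent.Y773.G.GH
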