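import Pool.Agent.A856.GH.GrpG

/-! # Primitive Hecke characters with a given infinity type

Adapted from `Pool.Agent.Helper503_UI.Ray`, where the infinity type is trivial. -/

set_option autoImplicit false
set_option linter.unusedSectionVars false

open NumberField Complex Filter Topology MeasureTheory
open NumberField.Units

namespace Pool.Agent.Y773.G.GH

open Pool.Agent.Y767 (ax ax_ne norm_ax tpos_one tpos_mul tpos_of_mul Tq Tq_tp Tq_cop Mq Mq_cop Mq_ne_bot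
  Tq_ne_zero pq pq_coe Mq_cancel isUnit_mk coprime_of_isUnit gq gq_coe gq_eq_iff gq_surj cls_one
  Cls cls cls_eq cls_of_mul cls_pi cls_div ext_mon exists_lam card_dual finite_dual)
open Pool.Agent.Helper503_UI (hK lift_tpos T1 T1_mem T1_pos T1_cop pi1 pi1_coe pi2 pi2_coe)
open Pool.Agent.Y773.IQ (ne_zero_of_cop cop_mono cop_one cop_congr cop_mul exists_cop_lift
  exists_inv ofM' ofM'_pos ofM'_supp absNorm_pos' absNorm_lt)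

section

variable {K : Type} [Field K] [NumberField K]

/-- a character depends only on the residue class and the signs, up to the infinity type -/
lemma hm_congr {𝔣 : Ideal (𝓞 K)} {ν : InfinitePlace K → ℝ} {ψ : Ideal (𝓞 K) →*₀ ℂ}
    (h : IsHM K 𝔣 ν ψ) (ht : 𝔣 ≠ ⊤) {x y : 𝓞 K} (hxy : x - y ∈ 𝔣)
    (hx0 : TPos K x) (hy0 : TPos K y)
    (hy : IsCoprime (Ideal.span {y}) 𝔣) :
    ψ (Ideal.span {x}) * ax ν (y : K) = ψ (Ideal.span {y}) * ax ν (x : K) := by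
  have hx := cop_congr hxy hy
  obtain ⟨w0, hw0⟩ := exists_inv hx
  obtain ⟨w, w1, w1', w2⟩ := lift_tpos h.ne_bot w0
  have hw : w * x - 1 ∈ 𝔣 := by
    have : w * x - 1 = (w - w0) * x + (w0 * x - 1) := by ring
    rw [this]; exact add_mem (Ideal.mul_mem_right _ _ w2) hw0
  have hw' : w * y - 1 ∈ 𝔣 := by
    have : w * y - 1 = (w * x - 1) - w * (x - y) := by ring
    rw [this]; exact sub_mem hw (Ideal.mul_mem_left _ _ hxy)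
  have h1 := h.ray (w * x) (ne_zero_of_cop ht (cop_one hw)) hw (tpos_mul w1 hx0)
  have h2 := h.ray (w * y) (ne_zero_of_cop ht (cop_one hw')) hw' (tpos_mul w1 hy0)
  rw [← Ideal.span_singleton_mul_span_singleton, map_mul,
    ax_coe_mul ν w1' (ne_zero_of_cop ht hx)] at h1
  rw [← Ideal.span_singleton_mul_span_singleton, map_mul,
    ax_coe_mul ν w1' (ne_zero_of_cop ht hy)] at h2
  have h3 : ψ (Ideal.span {w}) ≠ 0 := by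
    intro h4; rw [h4, zero_mul] at h1
    exact mul_ne_zero (ax_ne ν _) (ax_ne ν _) h1.symm
  have h4 : ax ν (w : K) ≠ 0 := ax_ne ν _
  apply mul_left_cancel₀ (mul_ne_zero h3 h4)
  calc ψ (Ideal.span {w}) * ax ν (w : K) * (ψ (Ideal.span {x}) * ax ν (y : K)) =
      (ψ (Ideal.span {w}) * ψ (Ideal.span {x})) * (ax ν (w : K) * ax ν (y : K)) := by ring
    _ = (ax ν (w : K) * ax ν (x : K)) * (ψ (Ideal.span {w}) * ψ (Ideal.span {y})) := by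
        rw [h1, h2]
    _ = _ := by ring

/-- the infinity type is determined by the values prime to `𝔮` -/
lemma type_unique {𝔮 𝔣 𝔣' : Ideal (𝓞 K)} {ν ν' : InfinitePlace K → ℝ} {ψ ψ' : Ideal (𝓞 K) →*₀ ℂ}
    (hq : 𝔮 ≠ ⊥) (h : IsHM K 𝔣 ν ψ) (h' : IsHM K 𝔣' ν' ψ') (hs : ∑ w, ν w = 0)
    (hs' : ∑ w, ν' w = 0) (hd : 𝔣 ∣ 𝔮) (hd' : 𝔣' ∣ 𝔮)
    (he : ∀ 𝔞, IsCoprime 𝔞 𝔮 → ψ 𝔞 = ψ' 𝔞) : ν = ν' := by
  have h1 : ν - ν' = 0 := by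
    refine uniq hq (by simp only [Pi.sub_apply, Finset.sum_sub_distrib, hs, hs', sub_self]) ?_
    intro x hx0 hx1 hxp
    have h2 := h.ray x hx0 (Ideal.dvd_iff_le.mp hd hx1) hxp
    have h3 := h'.ray x hx0 (Ideal.dvd_iff_le.mp hd' hx1) hxp
    rw [he _ (cop_one hx1), h3] at h2
    have h4 : ax (ν - ν') (x : K) = ax ν (x : K) / ax ν' (x : K) := by
      unfold ax
      rw [← Complex.exp_sub, ← mul_sub, ← Complex.ofReal_sub, ← Finset.sum_sub_distrib]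
      congr 3
      exact Finset.sum_congr rfl fun w _ => by rw [Pi.sub_apply]; ring
    rw [h4, h2, div_self (ax_ne _ _)]
  exact sub_eq_zero.mp h1

lemma cond_leH {𝔮 𝔣 𝔣' : Ideal (𝓞 K)} {ν : InfinitePlace K → ℝ} {ψ ψ' : Ideal (𝓞 K) →*₀ ℂ}
    (hq : 𝔮 ≠ ⊥) (h : IsHecke K 𝔣 ν ψ)
    (h' : IsHecke K 𝔣' ν ψ') (hd : 𝔣 ∣ 𝔮) (hd' : 𝔣' ∣ 𝔮)
    (ht : 𝔣 ≠ ⊤) (ht' : 𝔣' ≠ ⊤) (he : ∀ 𝔞, IsCoprime 𝔞 𝔮 → ψ 𝔞 = ψ' 𝔞) : 𝔣' ≤ 𝔣 := by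
  have hqf := Ideal.dvd_iff_le.mp hd
  have hqf' := Ideal.dvd_iff_le.mp hd'
  by_contra hcon
  have hne : 𝔣 ⊔ 𝔣' ≠ 𝔣 := fun h1 => hcon (h1 ▸ le_sup_right)
  obtain ⟨x, hx1, hx0, hx2, hx3⟩ := h.prim (𝔣 ⊔ 𝔣') (Ideal.dvd_iff_le.mpr le_sup_left) hne
  obtain ⟨f, hf, f', hf', hff⟩ := Submodule.mem_sup.mp hx1
  apply hx3
  have hz : x - f = 1 + f' := by linear_combination -hff
  have hz1 : IsCoprime (Ideal.span {x - f}) 𝔣 := cop_congr (by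
    have : x - f - x = -f := by ring
    rw [this]; exact neg_mem hf) hx2
  have hz2 : IsCoprime (Ideal.span {x - f}) 𝔣' := by
    rw [hz]; exact cop_one (by rw [add_sub_cancel_left]; exact hf')
  have hz3 : IsCoprime (Ideal.span {x - f}) (𝔣 ⊓ 𝔣') :=
    cop_mono Ideal.mul_le_inf (IsCoprime.mul_right hz1 hz2)
  obtain ⟨z0, hz40, hz50⟩ := exists_cop_lift (le_inf hqf hqf') hq hz3
  obtain ⟨z', k1, -, k2⟩ := lift_tpos hq z0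
  have hz4 : IsCoprime (Ideal.span {z'}) 𝔮 := cop_congr k2 hz40
  have hz5 : z' - (x - f) ∈ 𝔣 ⊓ 𝔣' := by
    have : z' - (x - f) = (z' - z0) + (z0 - (x - f)) := by ring
    rw [this]; exact add_mem (le_inf hqf hqf' k2) hz50
  have hz6 : z' - x ∈ 𝔣 := by
    have : z' - x = (z' - (x - f)) - f := by ring
    rw [this]; exact sub_mem (inf_le_left (b := 𝔣') hz5) hf
  have hz7 : z' - 1 ∈ 𝔣' := by
    have : z' - 1 = (z' - (x - f)) + f' := by rw [hz]; ring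
    rw [this]; exact add_mem (inf_le_right (a := 𝔣) hz5) hf'
  have e1 := hm_congr h.toIsHM ht hz6 k1 hx0 hx2
  have e2 := h'.ray z' (ne_zero_of_cop ht' (cop_one hz7)) hz7 k1
  rw [he _ hz4, e2, mul_comm] at e1
  exact (mul_right_cancel₀ (ax_ne ν _) e1).symm

/-- **a primitive character is determined by its values on the ideals prime to a multiple of its
conductor** -/
theorem prim_uniqueH {𝔮 𝔣 𝔣' : Ideal (𝓞 K)} {ν ν' : InfinitePlace K → ℝ}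
    {ψ ψ' : Ideal (𝓞 K) →*₀ ℂ}
    (hq : 𝔮 ≠ ⊥) (h : IsHecke K 𝔣 ν ψ) (h' : IsHecke K 𝔣' ν' ψ') (hs : ∑ w, ν w = 0)
    (hs' : ∑ w, ν' w = 0) (hd : 𝔣 ∣ 𝔮) (hd' : 𝔣' ∣ 𝔮)
    (ht : 𝔣 ≠ ⊤) (ht' : 𝔣' ≠ ⊤) (he : ∀ 𝔞, IsCoprime 𝔞 𝔮 → ψ 𝔞 = ψ' 𝔞) :
    ψ = ψ' ∧ 𝔣 = 𝔣' ∧ ν = ν' := by
  obtain rfl := type_unique hq h.toIsHM h'.toIsHM hs hs' hd hd' he
  have h1 := cond_leH hq h h' hd hd' ht ht' he
  have h2 := cond_leH hq h' h hd' hd ht' ht (fun 𝔞 ha => (he 𝔞 ha).symm)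
  obtain rfl : 𝔣 = 𝔣' := le_antisymm h2 h1
  refine ⟨?_, rfl, rfl⟩
  have hqf := Ideal.dvd_iff_le.mp hd
  ext 𝔞
  by_cases h0 : 𝔞 = ⊥
  · rw [h0, ← Ideal.zero_eq_bot, map_zero, map_zero]
  by_cases hc : IsCoprime 𝔞 𝔣
  · obtain ⟨x, 𝔠, hx1, hx0, hx2, hx3⟩ := Pool.Agent.Helper503_UI.mem_one_pos h.ne_bot ht hc
    have h𝔠 : 𝔠 ≠ ⊥ := by
      rintro rfl
      rw [Ideal.isCoprime_iff_sup_eq, bot_sup_eq] at hx3
      exact ht hx3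
    obtain ⟨y, 𝔟, hy1, hy0, hy2, hy3⟩ := Pool.Agent.Helper503_UI.moving_pos hqf hq h𝔠 hx3
    have e1 : ∀ (φ : Ideal (𝓞 K) →*₀ ℂ), IsHecke K 𝔣 ν φ →
        φ 𝔞 * ax ν (y : K) = φ 𝔟 * ax ν (x : K) := by
      intro φ hφ
      have h3 := hφ.ray x (ne_zero_of_cop ht (cop_one hx1)) hx1 hx0
      have h4 := hφ.ray y (ne_zero_of_cop ht (cop_one hy1)) hy1 hy0
      rw [hx2, map_mul] at h3
      rw [hy2, map_mul] at h4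
      rw [← h3, ← h4]
      ring
    have e2 := e1 ψ h
    have e3 := e1 ψ' h'
    rw [he 𝔟 hy3, ← e3] at e2
    exact mul_right_cancel₀ (ax_ne ν _) e2
  · have h3 : ψ 𝔞 = 0 := by
      by_contra h4; exact hc ((h.supp 𝔞 h0).mp h4)
    have h5 : ψ' 𝔞 = 0 := by
      by_contra h4; exact hc ((h'.supp 𝔞 h0).mp h4)
    rw [h3, h5]

/-- the key step: two ideals prime to `𝔮` in the same ray class modulo `𝔣` -/
lemma key_stepH {𝔮 𝔣 : Ideal (𝓞 K)} (hqf : 𝔮 ≤ 𝔣) (hq : 𝔮 ≠ ⊥) (hf : 𝔣 ≠ ⊤) {𝔞 𝔟 : Ideal (𝓞 K)}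
    (h𝔞 : IsCoprime 𝔞 𝔮) (h𝔟 : IsCoprime 𝔟 𝔮) {x y : 𝓞 K} (hx : x - 1 ∈ 𝔣) (hy : y - 1 ∈ 𝔣)
    (hx0 : TPos K x) (hy0 : TPos K y)
    (hab : 𝔞 * Ideal.span {x} = 𝔟 * Ideal.span {y}) :
    ∃ x' y' : 𝓞 K, x' - 1 ∈ 𝔮 ∧ TPos K x' ∧ IsCoprime (Ideal.span {y'}) 𝔮 ∧ y' - 1 ∈ 𝔣 ∧
      TPos K y' ∧ 𝔞 * Ideal.span {x'} = 𝔟 * Ideal.span {y'} ∧ y' * x = x' * y := by
  have hqt : 𝔮 ≠ ⊤ := fun h => hf (top_le_iff.mp (h ▸ hqf))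
  obtain ⟨x', 𝔠, hx1, hx1p, hx2, hx3⟩ := Pool.Agent.Helper503_UI.mem_one_pos hq hqt h𝔟
  have h2 : 𝔞 * 𝔠 * Ideal.span {x} = Ideal.span {x' * y} := by
    rw [← Ideal.span_singleton_mul_span_singleton, hx2, mul_right_comm, hab]
    ring
  have h3 : x' * y ∈ Ideal.span {x} := by
    have h4 : Ideal.span {x' * y} ≤ Ideal.span {x} := by
      rw [← h2]; exact Ideal.mul_le_right
    exact h4 (Ideal.mem_span_singleton_self _)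
  obtain ⟨y', hy'⟩ := Ideal.mem_span_singleton'.mp h3
  have hxne : x ≠ 0 := ne_zero_of_cop hf (cop_one hx)
  have h5 : 𝔞 * 𝔠 = Ideal.span {y'} := by
    apply mul_right_cancel₀ (b := Ideal.span {x})
    · rw [Ne, Ideal.zero_eq_bot, Ideal.span_singleton_eq_bot]; exact hxne
    · rw [h2, Ideal.span_singleton_mul_span_singleton, hy']
  refine ⟨x', y', hx1, hx1p, ?_, ?_, ?_, ?_, hy'⟩
  · rw [← h5]; exact IsCoprime.mul_left h𝔞 hx3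
  · have e1 := (Ideal.Quotient.eq (I := 𝔣)).mpr hx
    have e2 := (Ideal.Quotient.eq (I := 𝔣)).mpr hy
    have e3 := (Ideal.Quotient.eq (I := 𝔣)).mpr (hqf hx1)
    rw [← Ideal.Quotient.eq]
    have e4 := congrArg (Ideal.Quotient.mk 𝔣) hy'
    rw [map_mul, map_mul, e1, e2, e3, map_one, mul_one, mul_one] at e4
    rw [e4, map_one]
  · apply tpos_of_mul hx0
    rw [mul_comm, hy']
    exact tpos_mul hx1p hy0
  · rw [hx2, ← h5]; ring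

/-- `ax` on the integers congruent to one -/
noncomputable def ax1 {𝔣 : Ideal (𝓞 K)} (hf : 𝔣 ≠ ⊤) (ν : InfinitePlace K → ℝ) : T1 hf →* ℂˣ where
  toFun x := Units.mk0 (ax ν ((x : 𝓞 K) : K)) (ax_ne _ _)
  map_one' := by
    ext
    rw [Units.val_mk0, Submonoid.coe_one, Units.val_one]
    have : ((1 : 𝓞 K) : K) = 1 := map_one _
    rw [this, Pool.Agent.Y767.ax_one]
  map_mul' x y := by
    ext
    rw [Units.val_mk0, Units.val_mul, Units.val_mk0, Units.val_mk0, Submonoid.coe_mul,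
      ax_coe_mul ν (ne_zero_of_cop hf (T1_cop x)) (ne_zero_of_cop hf (T1_cop y))]

lemma ax1_coe {𝔣 : Ideal (𝓞 K)} (hf : 𝔣 ≠ ⊤) (ν : InfinitePlace K → ℝ) (x : T1 hf) :
    ((ax1 hf ν x : ℂˣ) : ℂ) = ax ν ((x : 𝓞 K) : K) := rfl

theorem exists_extH {𝔮 𝔣 : Ideal (𝓞 K)} (hqf : 𝔮 ≤ 𝔣) (hq : 𝔮 ≠ ⊥) (htop : 𝔮 ≠ ⊤) (hf : 𝔣 ≠ ⊤)
    (ν : InfinitePlace K → ℝ) (F : Mq 𝔮 →* ℂˣ)
    (h1 : ∀ (x : 𝓞 K) (hx : IsCoprime (Ideal.span {x}) 𝔮), x - 1 ∈ 𝔣 → TPos K x →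
      ((F ⟨Ideal.span {x}, hx⟩ : ℂˣ) : ℂ) = ax ν (x : K)) :
    ∃ F' : Mq 𝔣 →* ℂˣ, ∀ p : Mq 𝔮 × T1 hf, F' (pi2 hqf hf p) = F p.1 * ax1 hf ν p.2 := by
  have := Mq_cancel hf
  refine ext_mon (pi2 hqf hf) (F.coprod (ax1 hf ν)) ?_
  rintro ⟨𝔞, x⟩ ⟨𝔟, y⟩ hab
  rw [MonoidHom.coprod_apply, MonoidHom.coprod_apply]
  have hab' := congrArg Subtype.val hab
  rw [pi2_coe, pi2_coe] at hab'
  obtain ⟨x', y', hx1, hx0, hy1, hy2, hy0, hxy, hxy2⟩ :=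
    key_stepH hqf hq hf (Mq_cop 𝔞) (Mq_cop 𝔟) (T1_mem x) (T1_mem y) (T1_pos x) (T1_pos y) hab'
  have h6 := h1 y' hy1 hy2 hy0
  have h7 := h1 x' (cop_one hx1) (hqf hx1) hx0
  have h8 : 𝔞 * ⟨Ideal.span {x'}, cop_one hx1⟩ = 𝔟 * ⟨Ideal.span {y'}, hy1⟩ := by
    apply Subtype.ext
    rw [Submonoid.coe_mul, Submonoid.coe_mul]
    exact hxy
  have h9 : ((F 𝔞 : ℂˣ) : ℂ) * ax ν (x' : K) = ((F 𝔟 : ℂˣ) : ℂ) * ax ν (y' : K) := by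
    rw [← h6, ← h7, ← Units.val_mul, ← Units.val_mul, ← map_mul, ← map_mul, h8]
  have hx'0 : x' ≠ 0 := ne_zero_of_cop htop (cop_one hx1)
  have hy'0 : y' ≠ 0 := ne_zero_of_cop htop hy1
  have hx00 : (x : 𝓞 K) ≠ 0 := ne_zero_of_cop hf (T1_cop x)
  have hy00 : (y : 𝓞 K) ≠ 0 := ne_zero_of_cop hf (T1_cop y)
  have h10 : ax ν (y' : K) * ax ν ((x : 𝓞 K) : K) = ax ν (x' : K) * ax ν ((y : 𝓞 K) : K) := by
    rw [← ax_coe_mul ν hy'0 hx00, ← ax_coe_mul ν hx'0 hy00, hxy2]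
  ext
  rw [Units.val_mul, Units.val_mul, ax1_coe, ax1_coe]
  apply mul_right_cancel₀ (mul_ne_zero (ax_ne ν (x' : K)) (ax_ne ν (y' : K)))
  calc ((F 𝔞 : ℂˣ) : ℂ) * ax ν ((x : 𝓞 K) : K) * (ax ν (x' : K) * ax ν (y' : K)) =
      (((F 𝔞 : ℂˣ) : ℂ) * ax ν (x' : K)) * (ax ν (y' : K) * ax ν ((x : 𝓞 K) : K)) := by ring
    _ = (((F 𝔟 : ℂˣ) : ℂ) * ax ν (y' : K)) * (ax ν (x' : K) * ax ν ((y : 𝓞 K) : K)) := by
        rw [h9, h10]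
    _ = _ := by ring

/-- **every Hecke character modulo `𝔮` which does not have conductor `1` is induced by a primitive
character of conductor `≠ 1`** -/
theorem exists_primH {𝔮 : Ideal (𝓞 K)} (hbot : 𝔮 ≠ ⊥) (htop : 𝔮 ≠ ⊤) (F : Mq 𝔮 →* ℂˣ)
    (ν : InfinitePlace K → ℝ)
    (hF : ∀ (x : 𝓞 K) (hx : IsCoprime (Ideal.span {x}) 𝔮), x - 1 ∈ 𝔮 → TPos K x →
      ((F ⟨Ideal.span {x}, hx⟩ : ℂˣ) : ℂ) = ax ν (x : K)) :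
    (∀ (x : 𝓞 K) (hx : IsCoprime (Ideal.span {x}) 𝔮), TPos K x →
      ((F ⟨Ideal.span {x}, hx⟩ : ℂˣ) : ℂ) = ax ν (x : K)) ∨
    ∃ (𝔣 : Ideal (𝓞 K)) (ψ : Ideal (𝓞 K) →*₀ ℂ), 𝔣 ∣ 𝔮 ∧ 𝔣 ≠ ⊤ ∧
      IsHecke K 𝔣 ν ψ ∧ ∀ x : Mq 𝔮, ψ (x : Ideal (𝓞 K)) = ((F x : ℂˣ) : ℂ) := by
  obtain ⟨P, hP⟩ : ∃ P : Set (Ideal (𝓞 K)), ∀ 𝔣, 𝔣 ∈ P ↔ (𝔣 ∣ 𝔮 ∧ ∀ (x : 𝓞 K)
    (hx : IsCoprime (Ideal.span {x}) 𝔮), x - 1 ∈ 𝔣 → TPos K x →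
      ((F ⟨Ideal.span {x}, hx⟩ : ℂˣ) : ℂ) = ax ν (x : K)) :=
    ⟨{𝔣 | _}, fun 𝔣 => Iff.rfl⟩
  have hne : P.Nonempty := ⟨𝔮, (hP 𝔮).mpr ⟨dvd_refl _, hF⟩⟩
  obtain ⟨𝔣, h𝔣, hmin⟩ := (measure (fun 𝔣 : Ideal (𝓞 K) => Ideal.absNorm 𝔣)).wf.has_min P hne
  obtain ⟨hd, h1⟩ := (hP 𝔣).mp h𝔣
  by_cases hf : 𝔣 = ⊤
  · left
    intro x hx hx0
    exact h1 x hx (by rw [hf]; exact Submodule.mem_top) hx0
  right
  have hqf := Ideal.dvd_iff_le.mp hd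
  have hfb : 𝔣 ≠ ⊥ := by
    rintro rfl
    exact hbot (le_bot_iff.mp hqf)
  obtain ⟨F', hF'⟩ := exists_extH hqf hbot htop hf ν F h1
  have hres : ∀ x : Mq 𝔮, ∀ h : IsCoprime (x : Ideal (𝓞 K)) 𝔣, F' ⟨(x : Ideal (𝓞 K)), h⟩ = F x := by
    intro x h
    have h2 := hF' (x, 1)
    rw [map_one, mul_one] at h2
    rw [← h2]
    congr 1
    apply Subtype.ext
    rw [pi2_coe, Submonoid.coe_one, Ideal.span_singleton_one, ← Ideal.one_eq_top, mul_one]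
  refine ⟨𝔣, ofM' hf F', hd, hf, ⟨⟨hfb, fun 𝔞 _ => ofM'_supp hf F' 𝔞, ?_⟩, ?_⟩, ?_⟩
  · intro x hx0 hx1 hxp
    rw [ofM'_pos hf F' (cop_one hx1)]
    have h2 := hF' (1, ⟨x, hx1, hxp⟩)
    have h3 : pi2 hqf hf (1, ⟨x, hx1, hxp⟩) = ⟨Ideal.span {x}, cop_one hx1⟩ := by
      apply Subtype.ext
      rw [pi2_coe, Submonoid.coe_one, one_mul]
    rw [h3, map_one, one_mul] at h2
    rw [h2, ax1_coe]
  · intro 𝔤 hg hgne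
    have hnP : ¬ 𝔤 ∈ P := fun hP' => hmin 𝔤 hP' (absNorm_lt hfb hg hgne)
    rw [hP, not_and] at hnP
    have h2 := hnP (hg.trans hd)
    push Not at h2
    obtain ⟨x, hx, hx1, hxp, hx2⟩ := h2
    have hxf := cop_mono hqf hx
    refine ⟨x, hx1, hxp, hxf, ?_⟩
    rw [ofM'_pos hf F' hxf, hres ⟨Ideal.span {x}, hx⟩ hxf]
    exact hx2
  · intro x
    have hxf := cop_mono hqf (Mq_cop x)
    rw [ofM'_pos hf F' hxf, hres x hxf]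

end

end Pool.Agent.Y773.G.GH
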