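import Pool.Agent.A856.GH.Defs
import Pool.Agent.A856.GH.FEkn
import Pool.Agent.Y772.HG.Sgn

/-! # The signature of a Hecke character; passage to the data of the functional equation
(adapted from `Pool.Agent.Y767.HC.Sig` and `Pool.Agent.Y772.HG.Sgn`) -/

set_option autoImplicit false
set_option linter.unusedSectionVars false

open NumberField Complex Filter Topology

namespace Pool.Agent.Y773.G.GH

open Pool.Agent.Y767 (ax ax_mul ax_one ax_neg_mul norm_ax FEn)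
open Pool.Agent.Y772.G (rl_ne tpos_iff rl_pos_cpx isReal_or exists_neg)

theorem sig_gen {K : Type} [Field K] [NumberField K] {𝔣 : Ideal (𝓞 K)}
    (hf : 𝔣 ≠ ⊥) {f : 𝓞 K → ℂ} (f1 : f 1 = 1)
    (hfm : ∀ x y : 𝓞 K, x ≠ 0 → y ≠ 0 → f (x * y) = f x * f y)
    (hψ : ∀ x : 𝓞 K, x ≠ 0 → x - 1 ∈ 𝔣 → TPos K x → f x = 1) :
    ∃ e : InfinitePlace K → ℕ, (∀ w, e w ≤ 1) ∧ (∀ w : InfinitePlace K, w.IsComplex → e w = 0) ∧
      ∀ x : 𝓞 K, x ≠ 0 → x - 1 ∈ 𝔣 → f x = sg e (x : K) := by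
  classical
  choose z hz0 hz1 hz2 hz3 using fun w : InfinitePlace K => exists_neg hf w
  -- congruences
  have hmul : ∀ x y : 𝓞 K, x - 1 ∈ 𝔣 → y - 1 ∈ 𝔣 → x * y - 1 ∈ 𝔣 := by
    intro x y hx hy
    have h1 := 𝔣.add_mem (𝔣.mul_mem_left y hx) hy
    have h2 : y * (x - 1) + (y - 1) = x * y - 1 := by ring
    rwa [h2] at h1
  have hprod : ∀ (s : Finset (InfinitePlace K)), (∏ w ∈ s, z w) - 1 ∈ 𝔣 := by
    intro s
    induction s using Finset.induction_on with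
    | empty => simp
    | insert a s ha ih => rw [Finset.prod_insert ha]; exact hmul _ _ (hz1 a) ih
  have hp0 : ∀ s : Finset (InfinitePlace K), ∏ w ∈ s, z w ≠ 0 := fun s =>
    Finset.prod_ne_zero_iff.2 fun w _ => hz0 w
  have hψp : ∀ (s : Finset (InfinitePlace K)), f (∏ w ∈ s, z w) = ∏ w ∈ s, f (z w) := by
    intro s
    induction s using Finset.induction_on with
    | empty => rw [Finset.prod_empty, Finset.prod_empty, f1]
    | insert a s ha ih =>
      rw [Finset.prod_insert ha, hfm _ _ (hz0 a) (hp0 s), ih, Finset.prod_insert ha]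
  have hsq : ∀ x : 𝓞 K, x ≠ 0 → x - 1 ∈ 𝔣 → f x ^ 2 = 1 := by
    intro x hx0 hx
    rw [pow_two, ← hfm x x hx0 hx0]
    refine hψ _ (mul_ne_zero hx0 hx0) (hmul _ _ hx hx)
      ((tpos_iff (mul_ne_zero hx0 hx0)).2 fun w => ?_)
    push_cast
    rw [map_mul]
    have : rl w (x : K) ≠ 0 := rl_ne (by simpa using hx0)
    exact mul_self_pos.2 this
  -- at the complex places, `ψ(z_w) = 1`
  have hcpx : ∀ w : InfinitePlace K, w.IsComplex → f (z w) = 1 := by
    intro w hw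
    refine hψ _ (hz0 w) (hz1 w) ((tpos_iff (hz0 w)).2 fun v => hz3 w v fun hv h => ?_)
    rw [h] at hv
    exact InfinitePlace.not_isReal_iff_isComplex.2 hw hv
  refine ⟨fun w => if f (z w) = 1 then 0 else 1, fun w => ?_, fun w hw => ?_,
    fun x hx0 hx => ?_⟩
  · simp only
    split_ifs <;> norm_num
  · simp only
    rw [if_pos (hcpx w hw)]
  · have hzv : ∀ w, f (z w) = (-1 : ℂ) ^ (if f (z w) = 1 then 0 else 1) := by
      intro w
      split_ifs with h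
      · rw [h, pow_zero]
      · rw [pow_one]
        have h1 := hsq _ (hz0 w) (hz1 w)
        rw [pow_two] at h1
        exact (mul_self_eq_one_iff.1 h1).resolve_left h
    set S : Finset (InfinitePlace K) := Finset.univ.filter fun w => rl w (x : K) < 0 with hS
    have hx0' : (x : K) ≠ 0 := by simpa using hx0
    have hSr : ∀ w ∈ S, w.IsReal := by
      intro w hw
      rw [hS, Finset.mem_filter] at hw
      rcases isReal_or w with h | h
      · exact h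
      · exact absurd hw.2 (not_lt.2 (rl_pos_cpx h hx0').le)
    have hpr0 : (∏ w ∈ S, z w) ≠ 0 := Finset.prod_ne_zero_iff.2 fun w _ => hz0 w
    have htp : TPos K (x * ∏ w ∈ S, z w) := by
      rw [tpos_iff (mul_ne_zero hx0 hpr0)]
      intro w
      push_cast
      rw [map_mul, map_prod]
      by_cases hw : w ∈ S
      · rw [← Finset.mul_prod_erase _ _ hw]
        have h1 : rl w (x : K) < 0 := by
          rw [hS, Finset.mem_filter] at hw
          exact hw.2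
        have h2 : 0 < ∏ v ∈ S.erase w, rl w ((algebraMap (𝓞 K) K) (z v)) :=
          Finset.prod_pos fun v hv => hz3 v w fun _ => (Finset.ne_of_mem_erase hv).symm
        have h3 := hz2 w (hSr w hw)
        have h4 : 0 < rl w (x : K) * rl w (z w : K) := mul_pos_of_neg_of_neg h1 h3
        calc 0 < rl w (x : K) * rl w (z w : K) *
              ∏ v ∈ S.erase w, rl w ((algebraMap (𝓞 K) K) (z v)) := mul_pos h4 h2
          _ = _ := by ring
      · have h1 : 0 < rl w (x : K) := by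
          rw [hS, Finset.mem_filter] at hw
          have h2 : ¬ rl w (x : K) < 0 := fun h => hw ⟨Finset.mem_univ _, h⟩
          exact lt_of_le_of_ne (not_lt.1 h2) (rl_ne hx0').symm
        refine mul_pos h1 (Finset.prod_pos fun v hv => hz3 v w fun _ => ?_)
        rintro rfl
        exact hw hv
    have h1 := hψ _ (mul_ne_zero hx0 hpr0) (hmul _ _ hx (hprod S)) htp
    rw [hfm _ _ hx0 hpr0, hψp] at h1
    have h2 : (∏ w ∈ S, f (z w)) ^ 2 = 1 := by
      rw [← hψp]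
      exact hsq _ hpr0 (hprod S)
    have h3 : f x = ∏ w ∈ S, f (z w) := by
      have h4 : f x * (∏ w ∈ S, f (z w)) ^ 2 =
          ∏ w ∈ S, f (z w) := by
        rw [pow_two, ← mul_assoc, h1, one_mul]
      rwa [h2, mul_one] at h4
    rw [h3]
    unfold sg
    rw [hS, Finset.prod_filter]
    refine Finset.prod_congr rfl fun w _ => ?_
    by_cases h4 : rl w (x : K) < 0
    · rw [if_pos h4, sign_neg h4]
      have := hzv w
      rw [this]
      congr 1
      simp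
    · have h6 : 0 < rl w (x : K) := lt_of_le_of_ne (not_lt.1 h4) (rl_ne hx0').symm
      rw [if_neg h4, sign_pos h6]
      simp

variable {K : Type} [Field K] [NumberField K]

lemma ax_coe_mul (ν : InfinitePlace K → ℝ) {x y : 𝓞 K} (hx : x ≠ 0) (hy : y ≠ 0) :
    ax ν ((x * y : 𝓞 K) : K) = ax ν (x : K) * ax ν (y : K) := by
  have h1 : ((x * y : 𝓞 K) : K) = (x : K) * (y : K) := map_mul (algebraMap (𝓞 K) K) x y
  rw [h1, ax_mul ν (by simpa using hx) (by simpa using hy)]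

lemma ray_gen {𝔣 : Ideal (𝓞 K)} {ν : InfinitePlace K → ℝ} {ψ : Ideal (𝓞 K) →*₀ ℂ} (hf : 𝔣 ≠ ⊥)
    (hψ : ∀ x : 𝓞 K, x ≠ 0 → x - 1 ∈ 𝔣 → TPos K x → ψ (Ideal.span {x}) = ax ν (x : K)) :
    ∃ e : InfinitePlace K → ℕ, (∀ w, e w ≤ 1) ∧ (∀ w : InfinitePlace K, w.IsComplex → e w = 0) ∧
      ∀ x : 𝓞 K, x ≠ 0 → x - 1 ∈ 𝔣 → ψ (Ideal.span {x}) * ax (fun w => -ν w) (x : K) =
        sg e (x : K) := by
  refine sig_gen (f := fun x => ψ (Ideal.span {x}) * ax (fun w => -ν w) (x : K)) hf ?_ ?_ ?_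
  · rw [Ideal.span_singleton_one, ← Ideal.one_eq_top, map_one, one_mul]
    have : ((1 : 𝓞 K) : K) = 1 := map_one _
    rw [this, ax_one]
  · intro x y hx hy
    rw [ax_coe_mul _ hx hy, ← Ideal.span_singleton_mul_span_singleton, map_mul]
    ring
  · intro x hx0 hx1 hxp
    rw [hψ x hx0 hx1 hxp, mul_comm, ax_neg_mul]

/-- passage to the data of the functional equation -/
theorem IsHM.isModK {𝔣 : Ideal (𝓞 K)} {ν : InfinitePlace K → ℝ} {ψ : Ideal (𝓞 K) →*₀ ℂ}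
    (h : IsHM K 𝔣 ν ψ) (hν : ∑ w, ν w = 0) (htop : 𝔣 ≠ ⊤) :
    ∃ e : InfinitePlace K → ℕ, (∀ w, e w ≤ 1) ∧ (∀ w : InfinitePlace K, w.IsComplex → e w = 0) ∧
      IsModK 𝔣 (kk e ν) ψ := by
  obtain ⟨e, he, hc, h1⟩ := ray_gen h.ne_bot h.ray
  refine ⟨e, he, hc, ⟨kap_kk e hν, h.ne_bot, htop, fun 𝔞 => ?_, fun x hx hx1 => ?_⟩⟩
  · by_cases h𝔞 : 𝔞 = ⊥
    · rw [h𝔞]
      constructor
      · intro h2
        exact absurd (by rw [← Ideal.zero_eq_bot, map_zero]) h2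
      · intro h2
        rw [Ideal.isCoprime_iff_sup_eq, bot_sup_eq] at h2
        exact absurd h2 htop
    · exact h.supp 𝔞 h𝔞
  · unfold kk
    rw [mul_comm (sg e (x : K)), ← mul_assoc, h1 x hx hx1]
    exact sg_sq e (by simpa using hx)

theorem IsHecke.primK {𝔣 : Ideal (𝓞 K)} {ν : InfinitePlace K → ℝ} {ψ : Ideal (𝓞 K) →*₀ ℂ}
    (h : IsHecke K 𝔣 ν ψ) (htop : 𝔣 ≠ ⊤) (e : InfinitePlace K → ℕ) : PrimK 𝔣 (kk e ν) ψ := by
  intro 𝔤 h1 h2
  obtain ⟨x, hx1, hxp, hxc, hx⟩ := h.prim 𝔤 h1 h2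
  have hx0 : x ≠ 0 := by
    rintro rfl
    rw [Ideal.span_singleton_eq_bot.mpr rfl, Ideal.isCoprime_iff_sup_eq, bot_sup_eq] at hxc
    exact htop hxc
  refine ⟨x, hx1, hxc, fun h3 => hx ?_⟩
  unfold kk at h3
  rw [sg_TPos e hx0 hxp, one_mul] at h3
  calc ψ (Ideal.span {x}) = ψ (Ideal.span {x}) * (ax (fun w => -ν w) (x : K) * ax ν (x : K)) := by
        rw [ax_neg_mul, mul_one]
    _ = (ψ (Ideal.span {x}) * ax (fun w => -ν w) (x : K)) * ax ν (x : K) := by ring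
    _ = _ := by rw [h3, one_mul]

/-- the functional equation for Hecke characters -/
theorem IsHecke.fe {𝔣 : Ideal (𝓞 K)} {ν : InfinitePlace K → ℝ} {ψ : Ideal (𝓞 K) →*₀ ℂ}
    (h : IsHecke K 𝔣 ν ψ) (hν : ∑ w, ν w = 0) (htop : 𝔣 ≠ ⊤) :
    ∃ (e : InfinitePlace K → ℕ) (F : ℂ → ℂ),
      FEn (((Ideal.absNorm 𝔣 * Ideal.absNorm (differentIdeal ℤ (𝓞 K)) : ℕ) : ℝ)) (ex e)
      (vn ν) F ∧ ∀ s : ℂ, 1 < s.re → F s = LI ψ s := by
  obtain ⟨e, he, hc, hM⟩ := h.toIsHM.isModK hν htop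
  obtain ⟨F, h1, h2⟩ := fe_primn he hc hν (h.primK htop e) hM
  exact ⟨e, F, h1, h2⟩

end Pool.Agent.Y773.G.GH
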