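import Pool.Agent.A856.GH.Uni
import Pool.Agent.Y767.HC.Grp

/-! # A basis of the totally positive units modulo torsion, and the coordinates -/

set_option autoImplicit false
set_option linter.unusedSectionVars false

open NumberField Complex Filter Topology MeasureTheory
open NumberField.Units NumberField.Units.dirichletUnitTheorem

namespace Pool.Agent.Y773.G.GH

open Pool.Agent.Y767 (ax tpos_one tpos_mul tpos_of_mul)

section lattice

variable (K : Type) [Field K] [NumberField K]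

/-- the totally positive units -/
def tpU : Subgroup (𝓞 K)ˣ where
  carrier := {u | TPos K (u : 𝓞 K)}
  mul_mem' {u v} hu hv := by
    change TPos K ((u * v : (𝓞 K)ˣ) : 𝓞 K)
    rw [Units.val_mul]
    exact tpos_mul hu hv
  one_mem' := by
    change TPos K ((1 : (𝓞 K)ˣ) : 𝓞 K)
    rw [Units.val_one]
    exact tpos_one
  inv_mem' {u} hu := by
    change TPos K ((u⁻¹ : (𝓞 K)ˣ) : 𝓞 K)
    refine tpos_of_mul (x := (u : 𝓞 K)) hu ?_
    rw [Units.mul_inv]
    exact tpos_one

variable {K} in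
lemma mem_tpU {u : (𝓞 K)ˣ} : u ∈ tpU K ↔ TPos K (u : 𝓞 K) := Iff.rfl

variable {K} in
lemma sq_mem_tpU (u : (𝓞 K)ˣ) : u ^ 2 ∈ tpU K := by
  rw [mem_tpU]
  intro σ
  have e : (((u ^ 2 : (𝓞 K)ˣ) : 𝓞 K) : K) = ((u : 𝓞 K) : K) ^ 2 := by
    rw [Units.val_pow_eq_pow_val]
    exact map_pow (algebraMap (𝓞 K) K) _ _
  rw [e, map_pow]
  have h : σ ((u : 𝓞 K) : K) ≠ 0 := by
    rw [Ne, map_eq_zero]
    exact coe_ne_zero u
  positivity

/-- the lattice of the totally positive units -/
noncomputable def posLattice : Submodule ℤ (logSpace K) :=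
  AddSubgroup.toIntSubmodule ((tpU K).toAddSubgroup.map (logEmbedding K))

variable {K} in
lemma mem_posLattice {x : logSpace K} : x ∈ posLattice K ↔
    ∃ u : (𝓞 K)ˣ, TPos K (u : 𝓞 K) ∧ logEmbedding K (Additive.ofMul u) = x := by
  unfold posLattice
  change x ∈ ((tpU K).toAddSubgroup.map (logEmbedding K)) ↔ _
  rw [AddSubgroup.mem_map]
  constructor
  · rintro ⟨u, hu, rfl⟩
    exact ⟨Additive.toMul u, hu, rfl⟩
  · rintro ⟨u, hu, rfl⟩
    exact ⟨Additive.ofMul u, hu, rfl⟩

lemma posLattice_le : posLattice K ≤ unitLattice K := by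
  intro x hx
  obtain ⟨u, -, rfl⟩ := mem_posLattice.mp hx
  exact ⟨Additive.ofMul u, trivial, rfl⟩

instance : DiscreteTopology (posLattice K) := by
  have h1 : DiscreteTopology (unitLattice K : Set (logSpace K)) := instDiscrete_unitLattice K
  exact DiscreteTopology.of_subset h1 (posLattice_le K)

open scoped Classical in
instance : IsZLattice ℝ (posLattice K) where
  span_top := by
    rw [eq_top_iff, ← unitLattice_span_eq_top K, Submodule.span_le]
    rintro x ⟨u, -, rfl⟩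
    have h1 : (2 : ℝ) • (logEmbedding K).toIntLinearMap u ∈
        Submodule.span ℝ (posLattice K : Set (logSpace K)) := by
      apply Submodule.subset_span
      rw [SetLike.mem_coe, mem_posLattice]
      refine ⟨(Additive.toMul u) ^ 2, sq_mem_tpU _, ?_⟩
      rw [ofMul_pow, map_nsmul, ofMul_toMul]
      rw [AddMonoidHom.coe_toIntLinearMap, two_nsmul, two_smul]
    have h2 := Submodule.smul_mem _ (1 / 2 : ℝ) h1
    rw [smul_smul] at h2
    norm_num at h2
    exact h2

end lattice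

/-- a basis of the totally positive units modulo torsion and the coordinates -/
structure UG (K : Type) [Field K] [NumberField K] where
  ε : Fin (rank K) → (𝓞 K)ˣ
  tp : ∀ i, TPos K ((ε i : (𝓞 K)ˣ) : 𝓞 K)
  gen : ∀ u : (𝓞 K)ˣ, TPos K (u : 𝓞 K) → ∃ (ζ : (𝓞 K)ˣ) (m : Fin (rank K) → ℤ),
    ζ ∈ torsion K ∧ u = ζ * ∏ i, ε i ^ m i
  ind : ∀ m : Fin (rank K) → ℤ, ∏ i, ε i ^ m i ∈ torsion K → m = 0
  NU : (Fin (rank K) → ℝ) →ₗ[ℝ] (InfinitePlace K → ℝ)
  NUs : ∀ θ, ∑ w, NU θ w = 0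
  NUl : ∀ θ i, ∑ w, NU θ w * Real.log (w ((ε i : (𝓞 K)ˣ) : K)) = 2 * Real.pi * θ i
  NUi : ∀ ν : InfinitePlace K → ℝ, ∑ w, ν w = 0 →
    NU (fun i => (∑ w, ν w * Real.log (w ((ε i : (𝓞 K)ˣ) : K))) / (2 * Real.pi)) = ν
  yc : 𝓞 K → Fin (rank K) → ℝ
  ycs : ∀ x : 𝓞 K, x ≠ 0 → ∀ w : InfinitePlace K, Real.log (w (x : K)) -
      Real.log (Ideal.absNorm (Ideal.span {x})) / (Module.finrank ℚ K : ℝ) =
        ∑ i, yc x i * Real.log (w ((ε i : (𝓞 K)ˣ) : K))

section

variable {K : Type} [Field K] [NumberField K]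

lemma sum_mult_log {x : 𝓞 K} (hx : x ≠ 0) :
    ∑ w : InfinitePlace K, (w.mult : ℝ) * Real.log (w (x : K)) =
    Real.log (Ideal.absNorm (Ideal.span {x})) := by
  have h := InfinitePlace.prod_eq_abs_norm (x : K)
  have hx' : (x : K) ≠ 0 := by simpa using hx
  have h1 : ((Ideal.absNorm (Ideal.span {x}) : ℕ) : ℝ) = |((Algebra.norm ℚ (x : K) : ℚ) : ℝ)| := by
    rw [Ideal.absNorm_span_singleton]
    have h2 : ((Algebra.norm ℤ x : ℤ) : ℚ) = Algebra.norm ℚ (x : K) := Algebra.coe_norm_int x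
    rw [← h2, Nat.cast_natAbs]
    push_cast
    rfl
  have h2 : ∀ w : InfinitePlace K, (w.mult : ℝ) * Real.log (w (x : K)) =
      Real.log ((w (x : K)) ^ w.mult) := fun w => by rw [Real.log_pow]
  simp only [h2]
  rw [← Real.log_prod (fun w _ => ?_), h, h1]
  · push_cast
    rfl
  · exact pow_ne_zero _ (InfinitePlace.pos_iff.mpr hx').ne'

lemma sum_mult : ∑ w : InfinitePlace K, (w.mult : ℝ) = Module.finrank ℚ K := by
  have h := InfinitePlace.sum_mult_eq (K := K)
  rw [← h]; push_cast; rfl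

lemma unit_sum_log (u : (𝓞 K)ˣ) :
    ∑ w : InfinitePlace K, (w.mult : ℝ) * Real.log (w ((u : 𝓞 K) : K)) = 0 := by
  rw [sum_mult_log (Units.ne_zero u), Ideal.span_singleton_eq_top.mpr u.isUnit, Ideal.absNorm_top]
  simp

variable (K) in
lemma exists_basis : ∃ ε : Fin (rank K) → (𝓞 K)ˣ, (∀ i, TPos K ((ε i : (𝓞 K)ˣ) : 𝓞 K)) ∧
    (∀ u : (𝓞 K)ˣ, TPos K (u : 𝓞 K) → ∃ (ζ : (𝓞 K)ˣ) (m : Fin (rank K) → ℤ),
      ζ ∈ torsion K ∧ u = ζ * ∏ i, ε i ^ m i) ∧
    (∀ m : Fin (rank K) → ℤ, ∏ i, ε i ^ m i ∈ torsion K → m = 0) ∧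
    (∀ v : InfinitePlace K → ℝ, ∑ w, (w.mult : ℝ) * v w = 0 → ∃ y : Fin (rank K) → ℝ,
      ∀ w, v w = ∑ i, y i * Real.log (w ((ε i : (𝓞 K)ˣ) : K))) := by
  classical
  have hfree : Module.Free ℤ (posLattice K) := ZLattice.module_free ℝ (posLattice K)
  have hfin : Module.Finite ℤ (posLattice K) := ZLattice.module_finite ℝ (posLattice K)
  have hrk : Module.finrank ℤ (posLattice K) = rank K := by
    rw [ZLattice.rank ℝ (posLattice K), Units.finrank_eq_rank]
  obtain ⟨b⟩ : Nonempty (Module.Basis (Fin (rank K)) ℤ (posLattice K)) :=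
    ⟨Module.finBasisOfFinrankEq ℤ (posLattice K) hrk⟩
  choose ε hε1 hε2 using fun i => mem_posLattice.mp (b i).2
  have hlog : ∀ m : Fin (rank K) → ℤ, logEmbedding K (Additive.ofMul (∏ i, ε i ^ m i)) =
      ((∑ i, m i • b i : posLattice K) : logSpace K) := by
    intro m
    rw [ofMul_prod, map_sum, Submodule.coe_sum]
    refine Finset.sum_congr rfl fun i _ => ?_
    rw [ofMul_zpow, map_zsmul, hε2, Submodule.coe_smul]
  refine ⟨ε, hε1, ?_, ?_, ?_⟩
  · intro u hu
    have h1 : logEmbedding K (Additive.ofMul u) ∈ posLattice K := mem_posLattice.mpr ⟨u, hu, rfl⟩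
    refine ⟨u * (∏ i, ε i ^ (b.repr ⟨_, h1⟩ i))⁻¹, fun i => b.repr ⟨_, h1⟩ i, ?_, by group⟩
    rw [← logEmbedding_eq_zero_iff, ofMul_mul, ofMul_inv, map_add, map_neg,
      hlog (fun i => b.repr ⟨_, h1⟩ i), b.sum_repr, add_neg_cancel]
  · intro m hm
    rw [← logEmbedding_eq_zero_iff, hlog m] at hm
    have h2 : ∑ i, m i • b i = 0 := Subtype.ext hm
    have h3 := Fintype.linearIndependent_iff.mp b.linearIndependent m h2
    funext i
    exact h3 i
  · intro v hv
    obtain ⟨B, hB⟩ : ∃ B : Module.Basis (Fin (rank K)) ℝ (logSpace K), ∀ i, B i = b i :=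
      ⟨b.ofZLatticeBasis ℝ (posLattice K), fun i => b.ofZLatticeBasis_apply ℝ (posLattice K) i⟩
    obtain ⟨x, hx⟩ : ∃ x : logSpace K, ∀ w, x w = (w.1.mult : ℝ) * v w.1 := ⟨fun w => _, fun _ => rfl⟩
    refine ⟨fun i => B.repr x i, ?_⟩
    have hne : ∀ w : {w : InfinitePlace K // w ≠ w₀},
        v w.1 = ∑ i, B.repr x i * Real.log (w.1 ((ε i : (𝓞 K)ˣ) : K)) := by
      intro w
      have h1 := congrArg (fun z : logSpace K => z w) (B.sum_repr x)
      simp only [Finset.sum_apply, Pi.smul_apply, smul_eq_mul] at h1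
      rw [hx] at h1
      have h2 : ∀ i, (B i : logSpace K) w = (w.1.mult : ℝ) * Real.log (w.1 ((ε i : (𝓞 K)ˣ) : K)) := by
        intro i
        rw [hB, ← hε2 i, logEmbedding_component]
      simp only [h2] at h1
      have h3 : (w.1.mult : ℝ) ≠ 0 := by
        have := InfinitePlace.mult_pos (w := w.1)
        positivity
      apply mul_left_cancel₀ h3
      rw [← h1, Finset.mul_sum]
      exact Finset.sum_congr rfl fun i _ => by ring
    intro w
    by_cases hw : w = w₀
    · subst hw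
      have h1 : ∀ f : InfinitePlace K → ℝ, ∑ w, f w = f w₀ +
          ∑ w : {w : InfinitePlace K // w ≠ w₀}, f w.1 := by
        intro f
        have := Fintype.sum_eq_add_sum_subtype_ne f (w₀ : InfinitePlace K)
        exact this
      have h2 := h1 (fun w => (w.mult : ℝ) * v w)
      have h3 := h1 (fun w => (w.mult : ℝ) * ∑ i, B.repr x i * Real.log (w ((ε i : (𝓞 K)ˣ) : K)))
      have h4 : ∑ w : InfinitePlace K, (w.mult : ℝ) * ∑ i, B.repr x i *
          Real.log (w ((ε i : (𝓞 K)ˣ) : K)) = 0 := by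
        simp_rw [Finset.mul_sum]
        rw [Finset.sum_comm]
        refine Finset.sum_eq_zero fun i _ => ?_
        have h5 := unit_sum_log (ε i)
        calc ∑ w : InfinitePlace K, (w.mult : ℝ) * (B.repr x i * Real.log (w ((ε i : (𝓞 K)ˣ) : K))) =
            B.repr x i * ∑ w : InfinitePlace K, (w.mult : ℝ) *
              Real.log (w ((ε i : (𝓞 K)ˣ) : K)) := by
              rw [Finset.mul_sum]
              exact Finset.sum_congr rfl fun w _ => by ring
          _ = 0 := by rw [h5, mul_zero]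
      have h6 : ∑ w : {w : InfinitePlace K // w ≠ w₀}, ((w.1.mult : ℝ) * v w.1) =
          ∑ w : {w : InfinitePlace K // w ≠ w₀}, (w.1.mult : ℝ) *
            ∑ i, B.repr x i * Real.log (w.1 ((ε i : (𝓞 K)ˣ) : K)) :=
        Finset.sum_congr rfl fun w _ => by rw [hne w]
      rw [hv] at h2
      rw [h4] at h3
      rw [h6] at h2
      have h7 : ((w₀ : InfinitePlace K).mult : ℝ) * v w₀ = (w₀ : InfinitePlace K).mult *
          ∑ i, B.repr x i * Real.log ((w₀ : InfinitePlace K) ((ε i : (𝓞 K)ˣ) : K)) := by linarith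
      have h8 : ((w₀ : InfinitePlace K).mult : ℝ) ≠ 0 := by
        have := InfinitePlace.mult_pos (w := (w₀ : InfinitePlace K))
        positivity
      exact mul_left_cancel₀ h8 h7
    · exact hne ⟨w, hw⟩

variable (K) in
theorem exists_UG : Nonempty (UG K) := by
  classical
  obtain ⟨ε, h1, h2, h3, h7⟩ := exists_basis K
  have hn : (Module.finrank ℚ K : ℝ) ≠ 0 := by
    have := Module.finrank_pos (R := ℚ) (M := K)
    exact_mod_cast this.ne'
  -- the coordinates
  have h8 : ∀ x : 𝓞 K, ∃ y : Fin (rank K) → ℝ, x ≠ 0 → ∀ w : InfinitePlace K,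
      Real.log (w (x : K)) -
      Real.log (Ideal.absNorm (Ideal.span {x})) / (Module.finrank ℚ K : ℝ) =
        ∑ i, y i * Real.log (w ((ε i : (𝓞 K)ˣ) : K)) := by
    intro x
    by_cases hx : x = 0
    · exact ⟨0, fun h => absurd hx h⟩
    obtain ⟨y, hy⟩ := h7 (fun w => Real.log (w (x : K)) -
      Real.log (Ideal.absNorm (Ideal.span {x})) / (Module.finrank ℚ K : ℝ)) (by
        simp_rw [mul_sub]
        rw [Finset.sum_sub_distrib, sum_mult_log hx, ← Finset.sum_mul, sum_mult,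
          mul_div_cancel₀ _ hn, sub_self])
    exact ⟨y, fun _ => hy⟩
  choose yc hyc using h8
  -- the linear map
  have hpi : (2 * Real.pi : ℝ) ≠ 0 := by positivity
  obtain ⟨Tm, hT⟩ : ∃ Tm : (InfinitePlace K → ℝ) →ₗ[ℝ] (ℝ × (Fin (rank K) → ℝ)), ∀ ν,
      Tm ν = (∑ w, ν w, fun i => (∑ w, ν w * Real.log (w ((ε i : (𝓞 K)ˣ) : K))) / (2 * Real.pi)) := by
    refine ⟨{ toFun := fun ν => (∑ w, ν w,
        fun i => (∑ w, ν w * Real.log (w ((ε i : (𝓞 K)ˣ) : K))) / (2 * Real.pi))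
              map_add' := ?_
              map_smul' := ?_ }, fun ν => rfl⟩
    · intro ν ν'
      refine Prod.ext ?_ ?_
      · simp [Finset.sum_add_distrib]
      · funext i
        simp only [Pi.add_apply, Prod.mk_add_mk, add_mul, Finset.sum_add_distrib, add_div]
    · intro c ν
      refine Prod.ext ?_ ?_
      · simp [Finset.mul_sum]
      · funext i
        simp only [Pi.smul_apply, smul_eq_mul, RingHom.id_apply, Prod.smul_mk, mul_assoc,
          ← Finset.mul_sum, mul_div_assoc]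
  have hinj : Function.Injective Tm := by
    rw [injective_iff_map_eq_zero]
    intro ν hν
    rw [hT] at hν
    obtain ⟨a1, a2⟩ := Prod.ext_iff.mp hν
    simp only [Prod.fst_zero] at a1
    have a3 : ∀ i, ∑ w, ν w * Real.log (w ((ε i : (𝓞 K)ˣ) : K)) = 0 := by
      intro i
      have := congrFun a2 i
      simp only [Prod.snd_zero, Pi.zero_apply, div_eq_zero_iff] at this
      exact this.resolve_right hpi
    -- ν is orthogonal to every v with ∑ mult v = 0
    have a4 : ∀ v : InfinitePlace K → ℝ, ∑ w, (w.mult : ℝ) * v w = 0 → ∑ w, ν w * v w = 0 := by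
      intro v hv
      obtain ⟨y, hy⟩ := h7 v hv
      simp_rw [hy, Finset.mul_sum]
      rw [Finset.sum_comm]
      refine Finset.sum_eq_zero fun i _ => ?_
      calc ∑ w, ν w * (y i * Real.log (w ((ε i : (𝓞 K)ˣ) : K))) =
          y i * ∑ w, ν w * Real.log (w ((ε i : (𝓞 K)ˣ) : K)) := by
            rw [Finset.mul_sum]; exact Finset.sum_congr rfl fun w _ => by ring
        _ = 0 := by rw [a3, mul_zero]
    -- take v w = ν w - c mult w / mult w ...
    have hm : ∀ w : InfinitePlace K, (0 : ℝ) < w.mult := fun w => by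
      have := InfinitePlace.mult_pos (w := w)
      positivity
    have a5 := a4 (fun w => ν w / w.mult) (by
      rw [← a1]
      exact Finset.sum_congr rfl fun w _ => mul_div_cancel₀ _ (hm w).ne')
    have a6 : ∀ w ∈ (Finset.univ : Finset (InfinitePlace K)), ν w * (ν w / w.mult) = 0 := by
      refine (Finset.sum_eq_zero_iff_of_nonneg fun w _ => ?_).mp a5
      rw [← mul_div_assoc]
      exact div_nonneg (mul_self_nonneg _) (hm w).le
    funext w
    have a7 := a6 w (Finset.mem_univ _)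
    rw [Pi.zero_apply]
    rcases mul_eq_zero.mp a7 with a8 | a8
    · exact a8
    · rw [div_eq_zero_iff] at a8
      exact a8.resolve_right (hm w).ne'
  have hdim : Module.finrank ℝ (InfinitePlace K → ℝ) = Module.finrank ℝ (ℝ × (Fin (rank K) → ℝ)) := by
    rw [Module.finrank_prod, Module.finrank_fintype_fun_eq_card, Module.finrank_self,
      Module.finrank_fin_fun]
    have : 0 < Fintype.card (InfinitePlace K) := Fintype.card_pos
    unfold Units.rank
    omega
  obtain ⟨e, he⟩ : ∃ e : (InfinitePlace K → ℝ) ≃ₗ[ℝ] (ℝ × (Fin (rank K) → ℝ)), ∀ ν, e ν = Tm ν :=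
    ⟨LinearEquiv.ofInjectiveOfFinrankEq Tm hinj hdim, fun ν => rfl⟩
  have hes : ∀ θ : Fin (rank K) → ℝ, Tm (e.symm (0, θ)) = (0, θ) := by
    intro θ
    rw [← he, LinearEquiv.apply_symm_apply]
  refine ⟨⟨ε, h1, h2, h3, e.symm.toLinearMap.comp (LinearMap.inr ℝ ℝ (Fin (rank K) → ℝ)),
    ?_, ?_, ?_, yc, hyc⟩⟩
  · intro θ
    have h4 := hes θ
    rw [hT] at h4
    exact (Prod.ext_iff.mp h4).1
  · intro θ i
    have h4 := hes θ
    rw [hT] at h4
    have h5 := congrFun (Prod.ext_iff.mp h4).2 i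
    simp only at h5
    rw [div_eq_iff hpi] at h5
    have h6 : ((e.symm.toLinearMap.comp (LinearMap.inr ℝ ℝ (Fin (rank K) → ℝ))) θ) =
        e.symm (0, θ) := rfl
    rw [h6, h5]
    ring
  · intro ν hν
    have h6 : ∀ θ : Fin (rank K) → ℝ,
        ((e.symm.toLinearMap.comp (LinearMap.inr ℝ ℝ (Fin (rank K) → ℝ))) θ) =
        e.symm (0, θ) := fun θ => rfl
    rw [h6, LinearEquiv.symm_apply_eq, he, hT, hν]

end

end Pool.Agent.Y773.G.GH
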