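import Pool.Agent.A856.GH.UnG

/-! # The parameters of the characters; separation of totally positive integers -/

set_option autoImplicit false
set_option linter.unusedSectionVars false

open NumberField Complex Filter Topology MeasureTheory
open NumberField.Units

namespace Pool.Agent.Y773.G.GH

open Pool.Agent.Y767 (ax tpos_one tpos_mul tpos_of_mul)

section

variable {K : Type} [Field K] [NumberField K]

lemma UG.ax_yc (U : UG K) (θ : Fin (rank K) → ℝ) {x : 𝓞 K} (hx : x ≠ 0) :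
    ax (U.NU θ) (x : K) = cexp (2 * Real.pi * I * ((∑ i, θ i * U.yc x i : ℝ) : ℂ)) := by
  have h1 : ∑ w, U.NU θ w * Real.log (w (x : K)) = 2 * Real.pi * ∑ i, θ i * U.yc x i := by
    have h2 : ∀ w : InfinitePlace K, Real.log (w (x : K)) = Real.log (Ideal.absNorm (Ideal.span {x})) /
        (Module.finrank ℚ K : ℝ) + ∑ i, U.yc x i * Real.log (w ((U.ε i : (𝓞 K)ˣ) : K)) := fun w => by
      rw [← U.ycs x hx w]; ring
    simp_rw [h2, mul_add]
    rw [Finset.sum_add_distrib, ← Finset.sum_mul, U.NUs, zero_mul, zero_add]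
    simp_rw [Finset.mul_sum]
    rw [Finset.sum_comm]
    refine Finset.sum_congr rfl fun i _ => ?_
    have h3 := U.NUl θ i
    calc ∑ w, U.NU θ w * (U.yc x i * Real.log (w ((U.ε i : (𝓞 K)ˣ) : K))) =
        U.yc x i * ∑ w, U.NU θ w * Real.log (w ((U.ε i : (𝓞 K)ˣ) : K)) := by
          rw [Finset.mul_sum]
          exact Finset.sum_congr rfl fun w _ => by ring
      _ = _ := by rw [h3]; ring
  unfold ax
  rw [h1]
  congr 1
  push_cast
  ring

lemma UG.ax_eps (U : UG K) (θ : Fin (rank K) → ℝ) (i : Fin (rank K)) :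
    ax (U.NU θ) (((U.ε i : (𝓞 K)ˣ) : 𝓞 K) : K) = cexp (2 * Real.pi * I * (θ i : ℂ)) := by
  unfold ax
  congr 1
  have h1 := U.NUl θ i
  have h2 : ∑ w, U.NU θ w * Real.log (w (((U.ε i : (𝓞 K)ˣ) : 𝓞 K) : K)) = 2 * Real.pi * θ i := h1
  rw [h2]
  push_cast
  ring

/-- the norm of the parameter -/
noncomputable def UG.p (U : UG K) (θ : Fin (rank K) → ℝ) : ℝ := ‖U.NU θ‖

lemma UG.p_le (U : UG K) (θ : Fin (rank K) → ℝ) {V : ℝ} (hV : 0 ≤ V) :
    U.p θ ≤ V ↔ ∀ w, |U.NU θ w| ≤ V := by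
  unfold UG.p
  rw [pi_norm_le_iff_of_nonneg hV]
  rfl

lemma UG.p_cont (U : UG K) : Continuous U.p := by
  unfold UG.p
  exact (LinearMap.continuous_of_finiteDimensional U.NU).norm

lemma UG.p_add (U : UG K) (θ θ' : Fin (rank K) → ℝ) : U.p (θ + θ') ≤ U.p θ + U.p θ' := by
  unfold UG.p
  rw [map_add]; exact norm_add_le _ _

lemma UG.p_smul (U : UG K) (t : ℝ) (θ : Fin (rank K) → ℝ) : U.p (t • θ) = |t| * U.p θ := by
  unfold UG.p
  rw [map_smul, norm_smul, Real.norm_eq_abs]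

lemma UG.NU_inj (U : UG K) {θ θ' : Fin (rank K) → ℝ} (h : U.NU θ = U.NU θ') : θ = θ' := by
  funext i
  have h1 := U.NUl θ i
  rw [h, U.NUl θ' i] at h1
  have hpi := Real.pi_pos
  nlinarith

lemma UG.p_zero (U : UG K) (θ : Fin (rank K) → ℝ) (h : U.p θ = 0) : θ = 0 := by
  unfold UG.p at h
  rw [norm_eq_zero] at h
  apply U.NU_inj
  rw [h, map_zero]

/-- the places of a root of unity -/
lemma place_torsion {ζ : (𝓞 K)ˣ} (h : ζ ∈ torsion K) (w : InfinitePlace K) :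
    w ((ζ : 𝓞 K) : K) = 1 := (mem_torsion K).mp h w

lemma ax_torsion {ζ : (𝓞 K)ˣ} (h : ζ ∈ torsion K) (ν : InfinitePlace K → ℝ) :
    ax ν ((ζ : 𝓞 K) : K) = 1 := by
  unfold ax
  simp only [place_torsion h, Real.log_one, mul_zero, Finset.sum_const_zero]
  simp

lemma log_unit (U : UG K) {ζ : (𝓞 K)ˣ} (h : ζ ∈ torsion K) (m : Fin (rank K) → ℤ)
    (w : InfinitePlace K) :
    Real.log (w (((ζ * ∏ i, U.ε i ^ m i : (𝓞 K)ˣ) : 𝓞 K) : K)) =
      ∑ i, (m i : ℝ) * Real.log (w ((U.ε i : (𝓞 K)ˣ) : K)) := by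
  have e : (((ζ * ∏ i, U.ε i ^ m i : (𝓞 K)ˣ) : 𝓞 K) : K) =
      ((ζ : 𝓞 K) : K) * ∏ i, (((U.ε i : (𝓞 K)ˣ) : 𝓞 K) : K) ^ m i := by
    have h1 : ∀ u : (𝓞 K)ˣ, ((u : 𝓞 K) : K) =
        ((Units.map (algebraMap (𝓞 K) K : 𝓞 K →* K) u : Kˣ) : K) := fun u => rfl
    rw [h1, map_mul, map_prod]
    simp only [map_zpow, Units.val_mul, Units.coe_prod, Units.val_zpow_eq_zpow_val]
    rfl
  rw [e, map_mul, map_prod, place_torsion h, one_mul, Real.log_prod]
  · refine Finset.sum_congr rfl fun i _ => ?_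
    rw [map_zpow₀, Real.log_zpow]
  · intro i _
    rw [map_ne_zero]
    exact zpow_ne_zero _ (coe_ne_zero _)

/-- **SEP** -/
theorem UG.sep (U : UG K) {ρ : ℝ} (hρ : 0 ≤ ρ) : ∃ C : ℝ, 1 ≤ C ∧ ∀ (x x' : 𝓞 K) (ζ : (𝓞 K)ˣ)
    (m : Fin (rank K) → ℤ), x ≠ 0 → x' ≠ 0 → ζ ∈ torsion K →
    (∀ i, |U.yc x i + m i - U.yc x' i| ≤ 2 * ρ) →
    (Ideal.absNorm (Ideal.span {x * ((ζ * ∏ i, U.ε i ^ m i : (𝓞 K)ˣ) : 𝓞 K) - x'}) : ℝ) ≤
      C * max (Ideal.absNorm (Ideal.span {x}) : ℝ) (Ideal.absNorm (Ideal.span {x'}) : ℝ) := by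
  obtain ⟨n, hn⟩ : ∃ n : ℕ, n = Module.finrank ℚ K := ⟨_, rfl⟩
  have hn0 : 0 < n := by rw [hn]; exact Module.finrank_pos
  have hnR : (0 : ℝ) < n := by exact_mod_cast hn0
  obtain ⟨B, hB⟩ : ∃ B : ℝ, B = ∑ w : InfinitePlace K, ∑ i,
      2 * ρ * |Real.log (w ((U.ε i : (𝓞 K)ˣ) : K))| := ⟨_, rfl⟩
  have hB0 : 0 ≤ B := by
    rw [hB]
    exact Finset.sum_nonneg fun w _ => Finset.sum_nonneg fun i _ => by positivity
  have hBw : ∀ w : InfinitePlace K, ∑ i, 2 * ρ * |Real.log (w ((U.ε i : (𝓞 K)ˣ) : K))| ≤ B := by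
    intro w
    rw [hB]
    exact Finset.single_le_sum (f := fun w : InfinitePlace K => ∑ i,
      2 * ρ * |Real.log (w ((U.ε i : (𝓞 K)ˣ) : K))|)
      (fun w _ => Finset.sum_nonneg fun i _ => by positivity) (Finset.mem_univ w)
  have hC1 : (1 : ℝ) ≤ (2 * Real.exp B) ^ n := by
    apply one_le_pow₀
    have := Real.one_le_exp hB0
    linarith
  refine ⟨(2 * Real.exp B) ^ n, hC1, fun x x' ζ m hx hx' hζ hm => ?_⟩
  obtain ⟨u, hu⟩ : ∃ u : (𝓞 K)ˣ, u = ζ * ∏ i, U.ε i ^ m i := ⟨_, rfl⟩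
  rw [← hu]
  have hpos : ∀ {z : 𝓞 K}, z ≠ 0 → (1 : ℝ) ≤ (Ideal.absNorm (Ideal.span {z}) : ℝ) := by
    intro z hz
    have : Ideal.absNorm (Ideal.span {z}) ≠ 0 := by
      rw [Ne, Ideal.absNorm_eq_zero_iff, Ideal.span_singleton_eq_bot]; exact hz
    exact_mod_cast Nat.one_le_iff_ne_zero.mpr this
  obtain ⟨M, hM⟩ : ∃ M : ℝ, M = max (Ideal.absNorm (Ideal.span {x}) : ℝ)
      (Ideal.absNorm (Ideal.span {x'}) : ℝ) := ⟨_, rfl⟩
  rw [← hM]
  have hM1 : 1 ≤ M := by rw [hM]; exact (hpos hx).trans (le_max_left _ _)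
  have hM0 : 0 < M := by linarith
  obtain ⟨E, hE⟩ : ∃ E : InfinitePlace K → ℝ, ∀ w, E w = ∑ i, U.yc x' i *
      Real.log (w ((U.ε i : (𝓞 K)ˣ) : K)) := ⟨_, fun _ => rfl⟩
  have hEs : ∑ w : InfinitePlace K, (w.mult : ℝ) * E w = 0 := by
    simp_rw [hE, Finset.mul_sum]
    rw [Finset.sum_comm]
    refine Finset.sum_eq_zero fun i _ => ?_
    calc ∑ w : InfinitePlace K, (w.mult : ℝ) * (U.yc x' i * Real.log (w ((U.ε i : (𝓞 K)ˣ) : K))) =
        U.yc x' i * ∑ w : InfinitePlace K, (w.mult : ℝ) * Real.log (w ((U.ε i : (𝓞 K)ˣ) : K)) := by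
          rw [Finset.mul_sum]
          exact Finset.sum_congr rfl fun w _ => by ring
      _ = 0 := by rw [unit_sum_log (U.ε i), mul_zero]
  -- the two absolute values
  have hxw : ∀ {z : 𝓞 K}, z ≠ 0 → ∀ w : InfinitePlace K, 0 < w (z : K) := fun {z} hz w => by
    rw [InfinitePlace.pos_iff]; simpa using hz
  have h1 : ∀ w : InfinitePlace K, w (x' : K) ≤ Real.exp (Real.log M / n + E w + B) := by
    intro w
    rw [← Real.log_le_iff_le_exp (hxw hx' w)]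
    have h2 := U.ycs x' hx' w
    have h3 : Real.log (Ideal.absNorm (Ideal.span {x'})) / (Module.finrank ℚ K : ℝ) ≤
        Real.log M / n := by
      rw [hn]
      refine div_le_div_of_nonneg_right ?_ (Nat.cast_nonneg _)
      refine Real.log_le_log (by linarith [hpos hx']) ?_
      rw [hM]; exact le_max_right _ _
    rw [← hE w] at h2
    linarith
  have h2 : ∀ w : InfinitePlace K, w ((x * (u : 𝓞 K) : 𝓞 K) : K) ≤
      Real.exp (Real.log M / n + E w + B) := by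
    intro w
    have hu0 : (u : 𝓞 K) ≠ 0 := Units.ne_zero u
    rw [← Real.log_le_iff_le_exp (hxw (mul_ne_zero hx hu0) w)]
    have e1 : ((x * (u : 𝓞 K) : 𝓞 K) : K) = (x : K) * ((u : 𝓞 K) : K) :=
      map_mul (algebraMap (𝓞 K) K) _ _
    rw [e1, map_mul, Real.log_mul (hxw hx w).ne' (hxw hu0 w).ne', hu, log_unit U hζ m w]
    have h2 := U.ycs x hx w
    have h3 : Real.log (Ideal.absNorm (Ideal.span {x})) / (Module.finrank ℚ K : ℝ) ≤
        Real.log M / n := by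
      rw [hn]
      refine div_le_div_of_nonneg_right ?_ (Nat.cast_nonneg _)
      refine Real.log_le_log (by linarith [hpos hx]) ?_
      rw [hM]; exact le_max_left _ _
    have h4 : Real.log (w (x : K)) + ∑ i, (m i : ℝ) * Real.log (w ((U.ε i : (𝓞 K)ˣ) : K)) =
        Real.log (Ideal.absNorm (Ideal.span {x})) / (Module.finrank ℚ K : ℝ) + E w +
          ∑ i, (U.yc x i + m i - U.yc x' i) * Real.log (w ((U.ε i : (𝓞 K)ˣ) : K)) := by
      rw [hE w]
      have : Real.log (w (x : K)) = Real.log (Ideal.absNorm (Ideal.span {x})) /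
        (Module.finrank ℚ K : ℝ) + ∑ i, U.yc x i * Real.log (w ((U.ε i : (𝓞 K)ˣ) : K)) := by
        rw [← h2]; ring
      rw [this]
      simp only [sub_mul, add_mul, Finset.sum_add_distrib, Finset.sum_sub_distrib]
      ring
    rw [h4]
    have h5 : ∑ i, (U.yc x i + m i - U.yc x' i) * Real.log (w ((U.ε i : (𝓞 K)ˣ) : K)) ≤ B := by
      refine le_trans (Finset.sum_le_sum fun i _ => ?_) (hBw w)
      refine (le_abs_self _).trans ?_
      rw [abs_mul]
      exact mul_le_mul_of_nonneg_right (hm i) (abs_nonneg _)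
    linarith
  have h3 : ∀ w : InfinitePlace K, w ((x * (u : 𝓞 K) - x' : 𝓞 K) : K) ≤
      2 * Real.exp (Real.log M / n + E w + B) := by
    intro w
    have e1 : ((x * (u : 𝓞 K) - x' : 𝓞 K) : K) = ((x * (u : 𝓞 K) : 𝓞 K) : K) - (x' : K) :=
      map_sub (algebraMap (𝓞 K) K) _ _
    rw [e1, ← InfinitePlace.norm_embedding_eq w, map_sub]
    refine (norm_sub_le _ _).trans ?_
    rw [InfinitePlace.norm_embedding_eq, InfinitePlace.norm_embedding_eq]
    linarith [h1 w, h2 w]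
  -- the product
  have h4 : (Ideal.absNorm (Ideal.span {x * (u : 𝓞 K) - x'}) : ℝ) =
      ∏ w : InfinitePlace K, w ((x * (u : 𝓞 K) - x' : 𝓞 K) : K) ^ w.mult := by
    have h := InfinitePlace.prod_eq_abs_norm (((x * (u : 𝓞 K) - x' : 𝓞 K)) : K)
    rw [h, Ideal.absNorm_span_singleton]
    have h2 : ((Algebra.norm ℤ (x * (u : 𝓞 K) - x') : ℤ) : ℚ) =
      Algebra.norm ℚ (((x * (u : 𝓞 K) - x' : 𝓞 K)) : K) := Algebra.coe_norm_int _
    rw [← h2, Nat.cast_natAbs]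
    push_cast
    rfl
  rw [h4]
  refine (Finset.prod_le_prod (fun w _ => pow_nonneg (apply_nonneg _ _) _)
    (fun w _ => pow_le_pow_left₀ (apply_nonneg _ _) (h3 w) _)).trans (le_of_eq ?_)
  have h5 : ∀ w : InfinitePlace K, (2 * Real.exp (Real.log M / n + E w + B)) ^ w.mult =
      (2 * Real.exp B) ^ w.mult * Real.exp (w.mult * (Real.log M / n) + w.mult * E w) := by
    intro w
    rw [show Real.log M / n + E w + B = B + (Real.log M / n + E w) by ring, Real.exp_add B,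
      ← mul_assoc, mul_pow]
    congr 1
    rw [← Real.exp_nat_mul, mul_add]
  simp_rw [h5]
  rw [Finset.prod_mul_distrib, Finset.prod_pow_eq_pow_sum, InfinitePlace.sum_mult_eq, ← hn,
    ← Real.exp_sum, Finset.sum_add_distrib, hEs, add_zero, ← Finset.sum_mul, sum_mult, ← hn,
    mul_div_cancel₀ _ hnR.ne', Real.exp_log hM0]

end

end Pool.Agent.Y773.G.GH
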