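import Pool.Agent.Y773.HG.Mel
import Pool.Agent.Y767.HC.Unf2n

/-! # The Mellin transform of the theta series: unfolding, infinity type `ν`, arbitrary signature
(adapted from `Pool.Agent.Y773.HG.Unf2` and `Pool.Agent.Y767.HC.Unf2n`) -/

set_option autoImplicit false
set_option linter.unusedSectionVars false

open NumberField Complex Filter Topology MeasureTheory Set
open NumberField.Units NumberField.Units.dirichletUnitTheorem

namespace Pool.Agent.Y773.G.GH

open Pool.Agent.Y767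

/-- the shift of the gamma factors, indexed by the complex embeddings: `-ν_w` at a real place and
`-ν_w/2` at the two embeddings of a complex place -/
noncomputable def vn {K : Type} [Field K] [NumberField K] (ν : InfinitePlace K → ℝ)
    (φ : K →+* ℂ) : ℝ := -(ν (InfinitePlace.mk φ) / ((InfinitePlace.mk φ).mult : ℝ))

/-- the gamma factor -/
noncomputable def Gn {K : Type} [Field K] [NumberField K] (e : InfinitePlace K → ℕ)
    (ν : InfinitePlace K → ℝ) (s : ℂ) : ℂ :=
  ∏ φ : K →+* ℂ, Complex.Gammaℝ (s + ex e φ + I * vn ν φ)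

/-- the integrand -/
noncomputable def Fxn {K : Type} [Field K] [NumberField K] (e : InfinitePlace K → ℕ)
    (ν : InfinitePlace K → ℝ) (s : ℂ) (b : InfinitePlace K → ℝ) (p : PP K) : ℂ :=
  ((G0 e (fun w => Real.exp (el K p w / 2) * b w) : ℝ) : ℂ) *
    cexp (-(I * ((∑ w, ν w * (el K p w / 2 + Real.log (b w) -
      Real.log (Real.sqrt (w.mult : ℝ))) : ℝ) : ℂ))) *
    cexp (Module.finrank ℚ K * s * p.1 / 2)

variable {K : Type} [Field K] [NumberField K]

lemma norm_Fxn_eq (e : InfinitePlace K → ℕ) (ν : InfinitePlace K → ℝ) (s : ℂ)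
    (b : InfinitePlace K → ℝ) (p : PP K) : ‖Fxn e ν s b p‖ = ‖Fx e s b p‖ := by
  unfold Fxn Fx
  rw [norm_mul, norm_mul, norm_mul]
  have : ‖cexp (-(I * ((∑ w, ν w * (el K p w / 2 + Real.log (b w) -
      Real.log (Real.sqrt (w.mult : ℝ))) : ℝ) : ℂ)))‖ = 1 := by
    rw [← mul_neg, ← Complex.ofReal_neg, mul_comm, Complex.norm_exp_ofReal_mul_I]
  rw [this, mul_one]

lemma continuous_Fxn (e : InfinitePlace K → ℕ) (ν : InfinitePlace K → ℝ) (s : ℂ)
    (b : InfinitePlace K → ℝ) : Continuous (Fxn e ν s b) := by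
  unfold Fxn
  have h1 : Continuous (el K) := (el K).continuous_of_finiteDimensional
  refine ((Complex.continuous_ofReal.comp ((continuous_G0 e).comp
    (continuous_pi fun w => ?_))).mul ?_).mul (by fun_prop)
  · exact (Real.continuous_exp.comp (((continuous_apply w).comp h1).div_const 2)).mul
      continuous_const
  · refine Complex.continuous_exp.comp ?_
    refine (continuous_const.mul (Complex.continuous_ofReal.comp ?_)).neg
    refine continuous_finsetSum _ fun w _ => continuous_const.mul ?_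
    exact ((((continuous_apply w).comp h1).div_const 2).add continuous_const).sub continuous_const

/-- the local gamma factors -/
lemma gam_eqn {e : InfinitePlace K → ℕ} (hc : ∀ w : InfinitePlace K, w.IsComplex → e w = 0)
    (ν : InfinitePlace K → ℝ) (s : ℂ) :
    (∏ w : InfinitePlace K, (((Real.sqrt (w.mult : ℝ) : ℝ) : ℂ)) ^ (-((w.mult : ℂ) * s)) *
      cexp (I * (ν w * Real.log (Real.sqrt (w.mult : ℝ)) : ℝ))) *
      ∏ w : InfinitePlace K, Complex.Gammaℝ ((w.mult : ℂ) * s - I * ν w + e w) =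
      (c2 K : ℂ) * Gn e ν s := by
  classical
  unfold Gn
  rw [prod_emb, ← Finset.prod_mul_distrib]
  unfold c2
  push_cast
  rw [← Finset.prod_mul_distrib]
  refine Finset.prod_congr rfl fun w _ => ?_
  by_cases hw : w.IsReal
  · rw [if_pos hw, hw.mult_eq_one]
    have h1 : ex e w.embedding = e w := by
      unfold ex
      rw [w.mk_embedding, if_pos hw]
    have h2 : vn ν w.embedding = -ν w := by
      unfold vn
      rw [w.mk_embedding, hw.mult_eq_one]
      simp
    rw [h1, h2]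
    simp only [Nat.cast_one, Real.sqrt_one, Complex.ofReal_one, Complex.one_cpow, Real.log_one,
      mul_zero, Complex.ofReal_zero, Complex.exp_zero, mul_one, one_mul, inv_one]
    congr 1
    push_cast
    ring
  · have hc' : w.IsComplex := InfinitePlace.not_isReal_iff_isComplex.mp hw
    rw [if_neg hw, hc w hc', hc'.mult_eq_two]
    have h1 : ex e w.embedding = 0 := by
      unfold ex
      rw [w.mk_embedding, if_neg hw, if_pos rfl]
    have hne : w.embedding ≠ cj w.embedding := by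
      intro h
      apply hw
      rw [InfinitePlace.isReal_iff]
      exact h.symm
    have h2 : ex e (cj w.embedding) = 1 := by
      unfold ex
      rw [mk_cj, w.mk_embedding, if_neg hw, if_neg hne]
    have h3 : vn ν w.embedding = -(ν w / 2) := by
      unfold vn
      rw [w.mk_embedding, hc'.mult_eq_two]
      norm_num
    have h4 : vn ν (cj w.embedding) = -(ν w / 2) := by
      unfold vn
      rw [mk_cj, w.mk_embedding, hc'.mult_eq_two]
      norm_num
    rw [h1, h2, h3, h4]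
    have h5 := loc_gam hw (s - I * ν w / 2)
    rw [hc'.mult_eq_two] at h5
    have hs2 : (0 : ℝ) < Real.sqrt ((2 : ℕ) : ℝ) := Real.sqrt_pos.mpr (by norm_num)
    have h6 : (((Real.sqrt ((2 : ℕ) : ℝ) : ℝ) : ℂ)) ^ (-(((2 : ℕ) : ℂ) * s)) *
        cexp (I * ((ν w * Real.log (Real.sqrt ((2 : ℕ) : ℝ)) : ℝ) : ℂ)) =
        (((Real.sqrt ((2 : ℕ) : ℝ) : ℝ) : ℂ)) ^ (-(((2 : ℕ) : ℂ) * (s - I * ν w / 2))) := by
      rw [Complex.cpow_def_of_ne_zero (by exact_mod_cast hs2.ne'),
        Complex.cpow_def_of_ne_zero (by exact_mod_cast hs2.ne'), ← Complex.exp_add,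
        ← Complex.ofReal_log hs2.le]
      congr 1
      push_cast
      ring
    have h7 : ((2 : ℕ) : ℂ) * (s - I * ν w / 2) = ((2 : ℕ) : ℂ) * s - I * ν w := by
      push_cast
      ring
    rw [h7] at h5
    rw [h7] at h6
    have h8 : s + ((0 : ℕ) : ℂ) + I * ((-(ν w / 2) : ℝ) : ℂ) = s - I * ν w / 2 + ((0 : ℕ) : ℂ) := by
      push_cast
      ring
    have h9 : s + ((1 : ℕ) : ℂ) + I * ((-(ν w / 2) : ℝ) : ℂ) = s - I * ν w / 2 + ((1 : ℕ) : ℂ) := by
      push_cast
      ring
    rw [h8, h9, Nat.cast_zero, add_zero]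
    push_cast at h5 h6 ⊢
    rw [h6, add_zero]
    rw [add_zero] at h5
    exact h5

/-- the total integral -/
lemma int_Fxn0 (K : Type) [Field K] [NumberField K] : ∃ c : ℝ, 0 < c ∧
    ∀ (e : InfinitePlace K → ℕ) (ν : InfinitePlace K → ℝ) (s : ℂ), 0 < s.re →
      ∀ b : InfinitePlace K → ℝ, (∀ w, 0 < b w) →
      Integrable (Fxn e ν s b) ∧
      ∫ p, Fxn e ν s b p = c * ((∏ w, (b w : ℂ) ^ (-((w.mult : ℂ) * s)) *
        cexp (I * (ν w * Real.log (Real.sqrt (w.mult : ℝ)) : ℝ))) *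
        ∏ w, Complex.Gammaℝ ((w.mult : ℂ) * s - I * ν w + e w)) := by
  have := isHaar_PP K
  obtain ⟨c, hc, h1, -, h3⟩ := exists_vol_gen (volume : Measure (PP K))
    (volume : Measure (InfinitePlace K → ℝ)) (elE K)
  refine ⟨c, hc, ?_⟩
  intro e ν s hs b hb
  set f : (InfinitePlace K → ℝ) → ℂ := fun y =>
    ∏ w, (cexp (-(I * (ν w * Real.log (b w) : ℝ))) *
      cexp (I * (ν w * Real.log (Real.sqrt (w.mult : ℝ)) : ℝ)) *
      (((g0 (e w) (Real.exp (y w / 2) * b w) : ℝ) : ℂ) *
        cexp (((w.mult : ℂ) * s - I * ν w) * y w / 2))) with hf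
  have hF : Fxn e ν s b = fun p => f (elE K p) := by
    funext p
    simp only [hf, Fxn]
    rw [Finset.prod_mul_distrib, Finset.prod_mul_distrib, Finset.prod_mul_distrib,
      ← Complex.exp_sum, ← Complex.exp_sum, ← Complex.exp_sum, elE_apply]
    have h4 := sum_el K p
    have h5 : (∑ w : InfinitePlace K, (w.mult : ℂ) * (el K p w : ℂ)) =
        ((Module.finrank ℚ K * p.1 : ℝ) : ℂ) := by
      rw [← h4]
      push_cast
      rfl
    have hG : ((G0 e (fun w => Real.exp (el K p w / 2) * b w) : ℝ) : ℂ) =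
        ∏ w, ((g0 (e w) (Real.exp (el K p w / 2) * b w) : ℝ) : ℂ) := by
      unfold G0
      push_cast
      rfl
    rw [hG]
    have h6 : cexp (-(I * ((∑ w, ν w * (el K p w / 2 + Real.log (b w) -
          Real.log (Real.sqrt (w.mult : ℝ))) : ℝ) : ℂ))) *
        cexp (Module.finrank ℚ K * s * p.1 / 2) =
        (cexp (∑ w, -(I * ((ν w * Real.log (b w) : ℝ) : ℂ))) *
          cexp (∑ w, I * ((ν w * Real.log (Real.sqrt (w.mult : ℝ)) : ℝ) : ℂ))) *
          cexp (∑ w, ((w.mult : ℂ) * s - I * ν w) * (el K p w) / 2) := by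
      rw [← Complex.exp_add, ← Complex.exp_add, ← Complex.exp_add]
      congr 1
      have e1 : (∑ w, ((w.mult : ℂ) * s - I * ν w) * (el K p w : ℂ) / 2) =
          s * (∑ w : InfinitePlace K, (w.mult : ℂ) * (el K p w : ℂ)) / 2 -
            I * ∑ w, (ν w : ℂ) * (el K p w / 2) := by
        rw [Finset.mul_sum, Finset.mul_sum, Finset.sum_div, ← Finset.sum_sub_distrib]
        exact Finset.sum_congr rfl fun w _ => by ring
      rw [e1, h5]
      push_cast
      rw [Finset.sum_neg_distrib, ← Finset.mul_sum, ← Finset.mul_sum]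
      have e2 : ∑ w, (ν w : ℂ) * ((el K p w : ℂ) / 2 + (Real.log (b w) : ℂ) -
          (Real.log (Real.sqrt (w.mult : ℝ)) : ℂ)) =
          ∑ w, (ν w : ℂ) * (el K p w / 2) + ∑ w, (ν w : ℂ) * (Real.log (b w) : ℂ) -
          ∑ w, (ν w : ℂ) * (Real.log (Real.sqrt (w.mult : ℝ)) : ℂ) := by
        rw [← Finset.sum_add_distrib, ← Finset.sum_sub_distrib]
        exact Finset.sum_congr rfl fun w _ => by ring
      rw [e2]
      ring
    rw [mul_assoc, h6]
    ring
  have hre : ∀ w : InfinitePlace K, 0 < ((w.mult : ℂ) * s - I * ν w).re := by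
    intro w
    have h4 : ((w.mult : ℂ) * s - I * ν w).re = (w.mult : ℝ) * s.re := by simp
    rw [h4]
    have : (0 : ℝ) < w.mult := by exact_mod_cast w.mult_pos
    positivity
  have hint : Integrable f := by
    apply Integrable.fintype_prod (f := fun (w : InfinitePlace K) (v : ℝ) =>
      cexp (-(I * (ν w * Real.log (b w) : ℝ))) *
      cexp (I * (ν w * Real.log (Real.sqrt (w.mult : ℝ)) : ℝ)) *
      (((g0 (e w) (Real.exp (v / 2) * b w) : ℝ) : ℂ) *
        cexp (((w.mult : ℂ) * s - I * ν w) * v / 2)))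
    intro w
    exact (local_int (hre w) (hb w)).1.const_mul _
  rw [hF]
  refine ⟨h3 f hint, ?_⟩
  rw [h1 f, hf, integral_fintype_prod_volume_eq_prod (fun (w : InfinitePlace K) (v : ℝ) =>
      cexp (-(I * (ν w * Real.log (b w) : ℝ))) *
      cexp (I * (ν w * Real.log (Real.sqrt (w.mult : ℝ)) : ℝ)) *
      (((g0 (e w) (Real.exp (v / 2) * b w) : ℝ) : ℂ) *
        cexp (((w.mult : ℂ) * s - I * ν w) * v / 2))),
      ← Finset.prod_mul_distrib]
  congr 1
  refine Finset.prod_congr rfl fun w _ => ?_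
  rw [integral_const_mul, (local_int (hre w) (hb w)).2]
  have hbw : (b w : ℂ) ≠ 0 := by exact_mod_cast (hb w).ne'
  have h7 : cexp (-(I * (ν w * Real.log (b w) : ℝ))) *
      (b w : ℂ) ^ (-((w.mult : ℂ) * s - I * ν w)) = (b w : ℂ) ^ (-((w.mult : ℂ) * s)) := by
    rw [Complex.cpow_def_of_ne_zero hbw, Complex.cpow_def_of_ne_zero hbw, ← Complex.exp_add,
      ← Complex.ofReal_log (hb w).le]
    congr 1
    push_cast
    ring
  rw [← h7]
  ring

lemma Fxn_unit (e : InfinitePlace K → ℕ) (ν : InfinitePlace K → ℝ) (s : ℂ) (J : PIdl K)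
    (ζ : torsion K) (m : Fin (rank K) → ℤ) (p : PP K) :
    Fxn e ν s (av (xE K (J, (ζ, m))).1) p =
      Fxn e ν s (av (gen J)) (p.1, p.2 + Pool.Agent.Y773.lp m) := by
  have h0 : ∀ w, av (xE K (J, (ζ, m))).1 w =
      Real.exp (∑ i, (m i : ℝ) * Real.log (w ((fundSystem K i : (𝓞 K)ˣ) : K))) * av (gen J) w := by
    intro w
    unfold av
    rw [xE_apply]
    have : (((unE K (ζ, m) : (𝓞 K)ˣ) * gen J : 𝓞 K) : K) =
      ((unE K (ζ, m) : (𝓞 K)ˣ) : K) * (gen J : K) := map_mul (algebraMap (𝓞 K) K) _ _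
    rw [this, map_mul, place_unE]
    ring
  have h2 : ∀ w, el K (p.1, p.2 + Pool.Agent.Y773.lp m) w = el K p w +
      2 * ∑ i, (m i : ℝ) * Real.log (w ((fundSystem K i : (𝓞 K)ˣ) : K)) := by
    intro w
    simp only [el, LinearMap.coe_mk, AddHom.coe_mk, Pi.add_apply, Pool.Agent.Y773.lp, add_mul,
      Finset.sum_add_distrib]
    have h2 : ∑ i, (m i : ℝ) * (2 * Real.log (w ((fundSystem K i : (𝓞 K)ˣ) : K))) =
        2 * ∑ i, (m i : ℝ) * Real.log (w ((fundSystem K i : (𝓞 K)ˣ) : K)) := by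
      rw [Finset.mul_sum]
      exact Finset.sum_congr rfl fun i _ => by ring
    rw [h2]
    ring
  unfold Fxn
  have h3 : (fun w => Real.exp (el K p w / 2) * av (xE K (J, (ζ, m))).1 w) =
      fun w => Real.exp (el K (p.1, p.2 + Pool.Agent.Y773.lp m) w / 2) * av (gen J) w := by
    funext w
    rw [h0, h2, ← mul_assoc, ← Real.exp_add]
    congr 2
    ring
  have h4 : (∑ w, ν w * (el K p w / 2 + Real.log (av (xE K (J, (ζ, m))).1 w) -
        Real.log (Real.sqrt (w.mult : ℝ)))) =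
      ∑ w, ν w * (el K (p.1, p.2 + Pool.Agent.Y773.lp m) w / 2 + Real.log (av (gen J) w) -
        Real.log (Real.sqrt (w.mult : ℝ))) := by
    refine Finset.sum_congr rfl fun w _ => ?_
    rw [h0, h2, Real.log_mul (Real.exp_pos _).ne' (av_pos (gen_ne_zero J) w).ne', Real.log_exp]
    ring
  rw [h3, h4]

/-- the integral statement -/
def IntN (K : Type) [Field K] [NumberField K] (c : ℝ) : Prop :=
  ∀ (e : InfinitePlace K → ℕ), (∀ w : InfinitePlace K, w.IsComplex → e w = 0) →
    ∀ (ν : InfinitePlace K → ℝ) (s : ℂ), 0 < s.re → ∀ x : 𝓞 K, x ≠ 0 →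
      Integrable (Fxn e ν s (av x)) ∧
      ∫ p, Fxn e ν s (av x) p = c * (((Ideal.absNorm (Ideal.span {x}) : ℕ) : ℂ) ^ (-s) *
        Gn e ν s)

/-- the total integral of an integer -/
lemma int_Fxn (K : Type) [Field K] [NumberField K] : ∃ c : ℝ, 0 < c ∧ IntN K c := by
  obtain ⟨c, hc, h⟩ := int_Fxn0 K
  refine ⟨c * c2 K, mul_pos hc c2_pos, fun e he ν s hs x hx => ?_⟩
  obtain ⟨h1, h2⟩ := h e ν s hs (av x) (av_pos hx)
  refine ⟨h1, ?_⟩
  have h3 := gam_eqn he ν s
  rw [h2, Finset.prod_mul_distrib, prod_av hx]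
  rw [Finset.prod_mul_distrib] at h3
  rw [Complex.ofReal_mul]
  linear_combination (c * ((Ideal.absNorm (Ideal.span {x}) : ℕ) : ℂ) ^ (-s)) * h3

lemma Fxn_zero (e : InfinitePlace K → ℕ) (s : ℂ) (b : InfinitePlace K → ℝ) :
    Fxn e (fun _ => 0) s b = Fx e s b := by
  funext p
  unfold Fxn Fx
  simp

end Pool.Agent.Y773.G.GH
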