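import Pool.Agent.A856.GH.Unf2

/-! # The Mellin transform of the theta series: the main unfolding theorem, infinity type `ν`
and arbitrary signature (adapted from `Pool.Agent.Y767.HC.Unf3n` and `Pool.Agent.Y773.HG.Unf3`) -/

set_option autoImplicit false
set_option maxHeartbeats 4000000
set_option linter.unusedSectionVars false

open NumberField Complex Filter Topology MeasureTheory Set
open NumberField.Units NumberField.Units.dirichletUnitTheorem

namespace Pool.Agent.Y773.G.GH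

open Pool.Agent.Y767

variable {K : Type} [Field K] [NumberField K]

/-- the sum over the units -/
lemma unfold_Jn {c : ℝ} (hint : IntN K c)
    (e : InfinitePlace K → ℕ) (he : ∀ w : InfinitePlace K, w.IsComplex → e w = 0)
    (ν : InfinitePlace K → ℝ) {s : ℂ} (hs : 0 < s.re) (J : PIdl K) :
    HasSum (fun z : torsion K × (Fin (rank K) → ℤ) =>
      ∫ p in S0 K, Fxn e ν s (av (xE K (J, z)).1) p)
      ((Nat.card (torsion K) : ℂ) * (c * (((Ideal.absNorm J.1 : ℕ) : ℂ) ^ (-s) *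
        Gn e ν s))) := by
  classical
  have : Fintype (torsion K) := Fintype.ofFinite _
  obtain ⟨h1, h2⟩ := hint e he ν s hs (gen J) (gen_ne_zero J)
  rw [span_gen] at h2
  have h3 := unfold_P _ h1
  rw [h2] at h3
  set W : ℂ := c * (((Ideal.absNorm J.1 : ℕ) : ℂ) ^ (-s) *
    Gn e ν s) with hW
  have e1 : ∀ ζ m, (∫ p in S0 K, Fxn e ν s (av (xE K (J, (ζ, m))).1) p) =
      ∫ p in {p : PP K | ∀ i, ⌊p.2 i⌋ = 0},
        Fxn e ν s (av (gen J)) (p.1, p.2 + Pool.Agent.Y773.lp m) := by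
    intro ζ m
    exact integral_congr_ae (Eventually.of_forall fun p => Fxn_unit e ν s J ζ m p)
  -- summability
  have h5 : Summable fun z : torsion K × (Fin (rank K) → ℤ) =>
      ∫ p in S0 K, Fxn e ν s (av (xE K (J, z)).1) p := by
    refine Summable.of_norm ?_
    refine (summable_prod_of_nonneg (fun z => norm_nonneg _)).mpr ⟨fun ζ => ?_, Summable.of_finite⟩
    simp only [e1]
    exact h3.summable.norm
  have h6 := h5.hasSum
  rw [h5.tsum_prod] at h6
  have h7 : ∀ ζ : torsion K, ∑' m : Fin (rank K) → ℤ,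
      (∫ p in S0 K, Fxn e ν s (av (xE K (J, (ζ, m))).1) p) = W := by
    intro ζ
    simp only [e1]
    exact h3.tsum_eq
  simp only [h7] at h6
  rw [tsum_fintype, Finset.sum_const, nsmul_eq_mul, Finset.card_univ,
    ← Nat.card_eq_fintype_card] at h6
  exact h6

/-- **Unfolding** -/
theorem unfn (K : Type) [Field K] [NumberField K] : ∃ C : ℝ, 0 < C ∧
    ∀ (e : InfinitePlace K → ℕ), (∀ w : InfinitePlace K, w.IsComplex → e w = 0) →
      ∀ (ν : InfinitePlace K → ℝ) (A : PIdl K → ℂ) (B : ℝ),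
      (∀ J, ‖A J‖ ≤ B) →
      ∀ s : ℂ, 1 < s.re →
      (∀ x : {x : 𝓞 K // x ≠ 0},
        Integrable (fun p => A (toP x) * Fxn e ν s (av x.1) p) (volume.restrict (S0 K))) ∧
      (Summable fun x : {x : 𝓞 K // x ≠ 0} =>
        ∫ p in S0 K, ‖A (toP x) * Fxn e ν s (av x.1) p‖) ∧
      ∫ p in S0 K, ∑' x : {x : 𝓞 K // x ≠ 0}, A (toP x) * Fxn e ν s (av x.1) p =
        C * ((Gn e ν s) *
          ∑' J : PIdl K, A J * ((Ideal.absNorm J.1 : ℕ) : ℂ) ^ (-s)) := by
  classical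
  obtain ⟨c, hc, hint⟩ := int_Fxn K
  have hint0 : ∀ (e : InfinitePlace K → ℕ), (∀ w : InfinitePlace K, w.IsComplex → e w = 0) →
      ∀ (s : ℂ), 0 < s.re → ∀ x : 𝓞 K, x ≠ 0 →
      Integrable (Fx e s (av x)) ∧
      ∫ p, Fx e s (av x) p = c * (((Ideal.absNorm (Ideal.span {x}) : ℕ) : ℂ) ^ (-s) *
        ∏ φ : K →+* ℂ, Complex.Gammaℝ (s + ex e φ)) := by
    intro e he s hs x hx
    have h := hint e he (fun _ => 0) s hs x hx
    rw [Fxn_zero] at h
    have h2 : Gn e (fun _ : InfinitePlace K => 0) s =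
        ∏ φ : K →+* ℂ, Complex.Gammaℝ (s + ex e φ) := by
      unfold Gn vn
      simp
    rw [h2] at h
    exact h
  have htor : 0 < Nat.card (torsion K) := Nat.card_pos
  refine ⟨Nat.card (torsion K) * c, by positivity, fun e he ν A B hA s hs => ?_⟩
  have hs0 : 0 < s.re := by linarith
  have hB : 0 ≤ B := (norm_nonneg _).trans (hA (toP ⟨1, one_ne_zero⟩))
  have hcount : Countable (𝓞 K) := (coE K).countable_iff.mpr inferInstance
  have hi : ∀ x : {x : 𝓞 K // x ≠ 0},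
      Integrable (fun p => A (toP x) * Fxn e ν s (av x.1) p) (volume.restrict (S0 K)) := fun x =>
    ((hint e he ν s hs0 x.1 x.2).1.const_mul _).restrict
  -- the integrals of the norms
  set r : {x : 𝓞 K // x ≠ 0} → ℝ := fun x => ∫ p in S0 K, ‖Fx e s (av x.1) p‖ with hr
  have hrc : ∀ x : {x : 𝓞 K // x ≠ 0}, ((r x : ℝ) : ℂ) = ∫ p in S0 K, Fx e (s.re : ℂ) (av x.1) p := by
    intro x
    rw [hr, ← integral_complex_ofReal]
    refine integral_congr_ae (Eventually.of_forall fun p => ?_)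
    simp only
    rw [norm_Fx e s (av_pos x.2)]
  set R0 : ℝ := ((Nat.card (torsion K) : ℂ) * (c * ∏ φ : K →+* ℂ, Complex.Gammaℝ ((s.re : ℂ) + ex e φ))).re with hR0
  have hrJ : ∀ J : PIdl K, HasSum (fun z : torsion K × (Fin (rank K) → ℤ) => r (xE K (J, z)))
      ((Ideal.absNorm J.1 : ℝ) ^ (-s.re) * R0) := by
    intro J
    have h1 := unfold_J hint0 e he (s := (s.re : ℂ)) (by simpa using hs0) J
    have h2 := Complex.hasSum_re h1
    have h3 : ((Nat.card (torsion K) : ℂ) * (c * (((Ideal.absNorm J.1 : ℕ) : ℂ) ^ (-(s.re : ℂ)) *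
        ∏ φ : K →+* ℂ, Complex.Gammaℝ ((s.re : ℂ) + ex e φ)))).re = (Ideal.absNorm J.1 : ℝ) ^ (-s.re) * R0 := by
      have h4 : (((Ideal.absNorm J.1 : ℕ) : ℂ) ^ (-(s.re : ℂ))) =
          (((Ideal.absNorm J.1 : ℝ) ^ (-s.re) : ℝ) : ℂ) := by
        rw [Complex.ofReal_cpow (Nat.cast_nonneg _)]
        push_cast
        rfl
      rw [h4, hR0, ← Complex.re_ofReal_mul]
      congr 1
      ring
    rw [h3] at h2
    refine h2.congr_fun fun z => ?_
    rw [← hrc, Complex.ofReal_re]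
  have hsum : Summable fun x : {x : 𝓞 K // x ≠ 0} =>
      ∫ p in S0 K, ‖A (toP x) * Fxn e ν s (av x.1) p‖ := by
    have h1 : ∀ x : {x : 𝓞 K // x ≠ 0}, ∫ p in S0 K, ‖A (toP x) * Fxn e ν s (av x.1) p‖ =
        ‖A (toP x)‖ * r x := by
      intro x
      simp_rw [norm_mul, norm_Fxn_eq]
      rw [integral_const_mul]
    simp_rw [h1]
    have hr0 : ∀ x, 0 ≤ r x := fun x => integral_nonneg fun p => norm_nonneg _
    rw [← (xE K).summable_iff]
    refine (summable_prod_of_nonneg (fun z => mul_nonneg (norm_nonneg _) (hr0 _))).mpr ⟨?_, ?_⟩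
    · intro J
      simp only [Function.comp_apply, toP_xE]
      exact (hrJ J).summable.mul_left _
    · have h2 : ∀ J : PIdl K, ∑' z : torsion K × (Fin (rank K) → ℤ),
          ((fun x : {x : 𝓞 K // x ≠ 0} => ‖A (toP x)‖ * r x) ∘ (xE K)) (J, z) =
          ‖A J‖ * ((Ideal.absNorm J.1 : ℝ) ^ (-s.re) * R0) := by
        intro J
        simp only [Function.comp_apply, toP_xE]
        rw [tsum_mul_left, (hrJ J).tsum_eq]
      have hR0n : 0 ≤ R0 := by
        have h3 := (hrJ (toP ⟨1, one_ne_zero⟩)).nonneg (fun z => hr0 _)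
        have h4 : 0 < (Ideal.absNorm (toP (⟨1, one_ne_zero⟩ : {x : 𝓞 K // x ≠ 0})).1 : ℝ) ^ (-s.re) := by
          apply Real.rpow_pos_of_pos
          have : Ideal.absNorm (toP (⟨1, one_ne_zero⟩ : {x : 𝓞 K // x ≠ 0})).1 ≠ 0 := by
            rw [Ne, Ideal.absNorm_eq_zero_iff]
            exact (toP (⟨1, one_ne_zero⟩ : {x : 𝓞 K // x ≠ 0})).2.1
          exact_mod_cast Nat.pos_of_ne_zero this
        by_contra hneg
        push Not at hneg
        have := mul_neg_of_pos_of_neg h4 hneg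
        linarith
      have h8 : Summable fun J : PIdl K => ‖A J‖ * ((Ideal.absNorm J.1 : ℝ) ^ (-s.re) * R0) := by
        refine Summable.of_nonneg_of_le (fun J => by positivity) (fun J => ?_)
          (((summable_PIdl (K := K) hs).mul_right R0).mul_left B)
        exact mul_le_mul_of_nonneg_right (hA J) (by positivity)
      exact h8.congr fun J => (h2 J).symm
  refine ⟨hi, hsum, ?_⟩
  have h5 := hasSum_integral_of_summable_integral_norm hi hsum
  rw [← h5.tsum_eq, ← (xE K).tsum_eq]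
  have h6 : Summable fun z : PIdl K × (torsion K × (Fin (rank K) → ℤ)) =>
      ∫ p in S0 K, A (toP (xE K z)) * Fxn e ν s (av (xE K z).1) p :=
    (xE K).summable_iff.mpr h5.summable
  rw [h6.tsum_prod, ← tsum_mul_left, ← tsum_mul_left]
  refine tsum_congr fun J => ?_
  simp only [toP_xE]
  have h7 : ∀ z : torsion K × (Fin (rank K) → ℤ),
      ∫ p in S0 K, A J * Fxn e ν s (av (xE K (J, z)).1) p =
      A J * ∫ p in S0 K, Fxn e ν s (av (xE K (J, z)).1) p := fun z => integral_const_mul _ _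
  simp_rw [h7]
  rw [tsum_mul_left, (unfold_Jn hint e he ν hs0 J).tsum_eq]
  push_cast
  ring

/-! ## the theta functions -/

/-- the functions `Ψ` under consideration: `Ψ(ux) = sg(u) ∏|u|^{-iν} Ψ(x)` -/
structure Nicen (e : InfinitePlace K → ℕ) (ν : InfinitePlace K → ℝ) (Ψ : 𝓞 K → ℂ) : Prop where
  he : ∀ w, e w ≤ 1
  cpx : ∀ w : InfinitePlace K, w.IsComplex → e w = 0
  bdd : ∃ B : ℝ, ∀ x, ‖Ψ x‖ ≤ B
  zero : Ψ 0 = 0
  unit : ∀ (u : (𝓞 K)ˣ) (x : 𝓞 K), Ψ (u * x) =
    sg e ((u : 𝓞 K) : K) * ax (fun w => -ν w) ((u : 𝓞 K) : K) * Ψ x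

/-- the function on the principal ideals -/
noncomputable def AAn (e : InfinitePlace K → ℕ) (ν : InfinitePlace K → ℝ) (Ψ : 𝓞 K → ℂ)
    (J : PIdl K) : ℂ :=
  Ψ (gen J) * sg e (gen J : K) * ax ν (gen J : K)

lemma norm_AAn_le {e : InfinitePlace K → ℕ} {ν : InfinitePlace K → ℝ} {Ψ : 𝓞 K → ℂ} {B : ℝ}
    (hB : ∀ x, ‖Ψ x‖ ≤ B) (J : PIdl K) : ‖AAn e ν Ψ J‖ ≤ B := by
  unfold AAn
  rw [norm_mul, norm_ax, mul_one, norm_mul]
  calc _ ≤ B * 1 := mul_le_mul (hB _) (norm_sg_le _ _) (norm_nonneg _)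
        ((norm_nonneg _).trans (hB 0))
    _ = B := mul_one B

lemma AAn_toP {e : InfinitePlace K → ℕ} {ν : InfinitePlace K → ℝ} {Ψ : 𝓞 K → ℂ}
    (h : Nicen e ν Ψ) (x : {x : 𝓞 K // x ≠ 0}) :
    Ψ x.1 * sg e ((x.1 : 𝓞 K) : K) * ax ν ((x.1 : 𝓞 K) : K) = AAn e ν Ψ (toP x) := by
  obtain ⟨⟨J, z⟩, rfl⟩ := (xE K).surjective x
  rw [toP_xE]
  have h1 : (xE K (J, z)).1 = (unE K z : 𝓞 K) * gen J := rfl
  have h2 : (((unE K z : (𝓞 K)ˣ) * gen J : 𝓞 K) : K) =
      ((unE K z : (𝓞 K)ˣ) : K) * (gen J : K) := map_mul (algebraMap (𝓞 K) K) _ _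
  have hu0 : ((unE K z : (𝓞 K)ˣ) : K) ≠ 0 := by simp
  have hg0 : (gen J : K) ≠ 0 := RingOfIntegers.coe_ne_zero_iff.mpr (gen_ne_zero J)
  rw [h1, h.unit, h2, sg_mul, ax_mul ν hu0 hg0]
  unfold AAn
  have h3 := sg_sq e (x := ((unE K z : (𝓞 K)ˣ) : K)) hu0
  have h4 := ax_neg_mul ν ((unE K z : (𝓞 K)ˣ) : K)
  calc _ = (sg e ((unE K z : (𝓞 K)ˣ) : K) * sg e ((unE K z : (𝓞 K)ˣ) : K)) *
        (ax (fun w => -ν w) ((unE K z : (𝓞 K)ˣ) : K) * ax ν ((unE K z : (𝓞 K)ˣ) : K)) *
        (Ψ (gen J) * sg e (gen J : K) * ax ν (gen J : K)) := by ring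
    _ = _ := by rw [h3, h4, one_mul, one_mul]

/-- the theta series as a sum over the non-zero integers -/
lemma thn_eq {e : InfinitePlace K → ℕ} {ν : InfinitePlace K → ℝ} {Ψ : 𝓞 K → ℂ}
    (h : Nicen e ν Ψ) (s : ℂ) (p : PP K) :
    th e Ψ (el K p) * ph ν (el K p) * cexp (Module.finrank ℚ K * s * p.1 / 2) =
      ∑' x : {x : 𝓞 K // x ≠ 0}, AAn e ν Ψ (toP x) * Fxn e ν s (av x.1) p := by
  unfold th
  rw [mul_assoc, ← tsum_mul_right]
  have hsupp : Function.support (fun x : 𝓞 K =>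
      Ψ x * ((GM e (fun w => Real.exp (el K p w / 2)) (x : K) : ℝ) : ℂ) *
      (ph ν (el K p) * cexp (Module.finrank ℚ K * s * p.1 / 2))) ⊆ {x | x ≠ 0} := by
    intro x hx h0
    apply hx
    change x = 0 at h0
    simp only
    rw [h0, h.zero, zero_mul, zero_mul]
  rw [← tsum_subtype_eq_of_support_subset hsupp]
  refine tsum_congr fun x => ?_
  rw [← AAn_toP h x]
  unfold Fxn
  rw [GM_sign h.he h.cpx _ x.2]
  have h5 : cexp (-(I * ((∑ w, ν w * (el K p w / 2 + Real.log (av x.1 w) -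
      Real.log (Real.sqrt (w.mult : ℝ))) : ℝ) : ℂ))) *
      ax ν ((x.1 : 𝓞 K) : K) = ph ν (el K p) := by
    unfold ax ph
    rw [← Complex.exp_add]
    congr 1
    have : (∑ w, ν w * (el K p w / 2 + Real.log (av x.1 w) -
          Real.log (Real.sqrt (w.mult : ℝ))) : ℝ) =
        (∑ w, ν w * el K p w) / 2 + ∑ w, ν w * Real.log (w ((x.1 : 𝓞 K) : K)) := by
      rw [Finset.sum_div, ← Finset.sum_add_distrib]
      refine Finset.sum_congr rfl fun w _ => ?_
      unfold av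
      rw [Real.log_mul (sqrt_mult_pos w).ne'
        ((map_ne_zero w).mpr (RingOfIntegers.coe_ne_zero_iff.mpr x.2))]
      ring
    rw [this]
    push_cast
    ring
  rw [← h5]
  ring

/-- the function whose Mellin transform is the completed Dirichlet series -/
noncomputable def hfn (e : InfinitePlace K → ℕ) (ν : InfinitePlace K → ℝ) (Ψ : 𝓞 K → ℂ)
    (t : ℝ) : ℂ :=
  ∫ θ in cube K, th e Ψ (el K ((2 / Module.finrank ℚ K) * Real.log t, θ)) *
    ph ν (el K ((2 / Module.finrank ℚ K) * Real.log t, θ))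

theorem mellin_hfn (K : Type) [Field K] [NumberField K] : ∃ C : ℝ, 0 < C ∧
    ∀ (e : InfinitePlace K → ℕ) (ν : InfinitePlace K → ℝ) (Ψ : 𝓞 K → ℂ), Nicen e ν Ψ →
      ∀ s : ℂ, 1 < s.re →
      MellinConvergent (hfn e ν Ψ) s ∧ (Summable fun J : PIdl K =>
        AAn e ν Ψ J * ((Ideal.absNorm J.1 : ℕ) : ℂ) ^ (-s)) ∧
      mellin (hfn e ν Ψ) s = C * ((Gn e ν s) *
          ∑' J : PIdl K, AAn e ν Ψ J * ((Ideal.absNorm J.1 : ℕ) : ℂ) ^ (-s)) := by
  classical
  obtain ⟨C, hC, hunf⟩ := unfn K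
  have hn : (0 : ℝ) < Module.finrank ℚ K := by exact_mod_cast Module.finrank_pos
  set n : ℝ := ((Module.finrank ℚ K : ℕ) : ℝ) with hn'
  refine ⟨n / 2 * C, by positivity, fun e ν Ψ h s hs => ?_⟩
  obtain ⟨B, hB⟩ := h.bdd
  obtain ⟨h1, h2, h3⟩ := hunf e h.cpx ν (AAn e ν Ψ) B (norm_AAn_le hB) s hs
  have hcount : Countable (𝓞 K) := (coE K).countable_iff.mpr inferInstance
  have hth := thn_eq h s
  have hcont : Continuous fun p : PP K => th e Ψ (el K p) * ph ν (el K p) *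
      cexp (Module.finrank ℚ K * s * p.1 / 2) := by
    have h4 : Continuous (el K) := (el K).continuous_of_finiteDimensional
    exact (((continuous_th h.he hB).comp h4).mul ((continuous_ph ν).comp h4)).mul (by fun_prop)
  have hint : Integrable (fun p : PP K => th e Ψ (el K p) * ph ν (el K p) *
      cexp (Module.finrank ℚ K * s * p.1 / 2)) (volume.restrict (S0 K)) := by
    have h5 := integrable_tsum h1 h2 (by
      simp_rw [← hth]
      exact hcont.aestronglyMeasurable)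
    simp_rw [← hth] at h5
    exact h5
  simp_rw [← hth] at h3
  -- Fubini
  have hrestr : (volume : Measure (PP K)).restrict (S0 K) =
      (volume : Measure ℝ).prod (volume.restrict (cube K)) := by
    rw [S0_eq, Measure.volume_eq_prod, ← Measure.prod_restrict, Measure.restrict_univ]
  rw [hrestr] at hint h3
  rw [integral_prod _ hint] at h3
  have h9 := hint.integral_prod_left
  -- the substitution
  have h6 : ∀ v : ℝ, (Real.exp v : ℂ) * (((Real.exp v : ℝ) : ℂ) ^ (s - 1) • hfn e ν Ψ (Real.exp v)) =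
      (fun τ : ℝ => ∫ θ in cube K, th e Ψ (el K (τ, θ)) * ph ν (el K (τ, θ)) *
        cexp (Module.finrank ℚ K * s * ((τ, θ) : PP K).1 / 2)) (2 / n * v) := by
    intro v
    simp only
    rw [integral_mul_const]
    unfold hfn
    rw [Real.log_exp, smul_eq_mul]
    have hev : ((Real.exp v : ℝ) : ℂ) ≠ 0 := by exact_mod_cast (Real.exp_pos v).ne'
    have h7 : (Real.exp v : ℂ) * (((Real.exp v : ℝ) : ℂ) ^ (s - 1)) =
        cexp (Module.finrank ℚ K * s * ((2 / n * v : ℝ) : ℂ) / 2) := by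
      rw [Complex.cpow_def_of_ne_zero hev, ← Complex.ofReal_log (Real.exp_pos v).le, Real.log_exp,
        Complex.ofReal_exp, ← Complex.exp_add]
      congr 1
      have hnc : (n : ℂ) ≠ 0 := by exact_mod_cast hn.ne'
      have hnn : (Module.finrank ℚ K : ℂ) = (n : ℂ) := by rw [hn']; push_cast; rfl
      rw [hnn]
      push_cast
      field_simp
      ring
    rw [← mul_assoc, h7]
    ring
  have hsumJ : Summable fun J : PIdl K => AAn e ν Ψ J * ((Ideal.absNorm J.1 : ℕ) : ℂ) ^ (-s) := by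
    refine Summable.of_norm_bounded ((summable_PIdl (K := K) hs).mul_left B) fun J => ?_
    rw [norm_mul, norm_absNorm_cpow J.2.1]
    exact mul_le_mul_of_nonneg_right (norm_AAn_le hB J) (by positivity)
  have hconv : MellinConvergent (hfn e ν Ψ) s := by
    unfold MellinConvergent
    rw [← integrable_exp_sub]
    refine (h9.comp_mul_left' (R := 2 / n) (by positivity)).congr (Eventually.of_forall fun v => ?_)
    exact (h6 v).symm
  refine ⟨hconv, hsumJ, ?_⟩
  unfold mellin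
  rw [← integral_exp_sub]
  rw [integral_congr_ae (Eventually.of_forall h6)]
  have h8 := Measure.integral_comp_mul_left (fun τ : ℝ => ∫ θ in cube K,
        th e Ψ (el K (τ, θ)) * ph ν (el K (τ, θ)) *
        cexp (Module.finrank ℚ K * s * ((τ, θ) : PP K).1 / 2)) (2 / n)
  refine h8.trans ?_
  rw [h3, abs_of_pos (by positivity), Complex.real_smul]
  push_cast
  have hnc : (n : ℂ) ≠ 0 := by exact_mod_cast hn.ne'
  field_simp

end Pool.Agent.Y773.G.GH
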