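import Pool.Agent.A856.GH.Sig
import Pool.Agent.Y772.TW.Pos

/-! # The infinity type of a Hecke character is determined by its values on a ray -/

set_option autoImplicit false
set_option linter.unusedSectionVars false

open NumberField Complex Filter Topology

namespace Pool.Agent.Y773.G.GH

open Pool.Agent.Y767 (ax)

section

variable {K : Type} [Field K] [NumberField K]

/-- the derivative of `log |1 + t z|` at `0` -/
lemma hasDerivAt_log_norm (z : ℂ) :
    HasDerivAt (fun t : ℝ => Real.log ‖1 + (t : ℂ) * z‖) z.re 0 := by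
  have h1 : ∀ t : ℝ, ‖1 + (t : ℂ) * z‖ = Real.sqrt ((1 + t * z.re) ^ 2 + (t * z.im) ^ 2) := by
    intro t
    rw [Complex.norm_eq_sqrt_sq_add_sq]
    simp
  have h2 : (fun t : ℝ => Real.log ‖1 + (t : ℂ) * z‖) =
      fun t : ℝ => Real.log ((1 + t * z.re) ^ 2 + (t * z.im) ^ 2) / 2 := by
    funext t
    rw [h1, Real.log_sqrt (by positivity)]
  rw [h2]
  have h3 : HasDerivAt (fun t : ℝ => (1 + t * z.re) ^ 2 + (t * z.im) ^ 2)
      (2 * z.re) 0 := by
    have a1 : HasDerivAt (fun t : ℝ => 1 + t * z.re) z.re 0 := by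
      simpa using ((hasDerivAt_id (0 : ℝ)).mul_const z.re).const_add 1
    have a2 : HasDerivAt (fun t : ℝ => t * z.im) z.im 0 := by
      simpa using (hasDerivAt_id (0 : ℝ)).mul_const z.im
    have a3 := (a1.fun_pow 2).fun_add (a2.fun_pow 2)
    refine a3.congr_deriv ?_
    simp
  have h4 := h3.log (by simp)
  have h5 := h4.div_const 2
  simpa using h5

/-- a family of real numbers indexed by the places, orthogonal to the real parts of the integers -/
lemma eq_zero_of_re {μ : InfinitePlace K → ℝ}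
    (h : ∀ y : 𝓞 K, ∑ w : InfinitePlace K, μ w * (w.embedding (y : K)).re = 0) : μ = 0 := by
  classical
  obtain ⟨c, hc⟩ : ∃ c : (K →+* ℂ) → ℝ, ∀ φ, c φ = μ (InfinitePlace.mk φ) /
      (InfinitePlace.mk φ).mult := ⟨_, fun _ => rfl⟩
  have hre : ∀ (y : K) (φ : K →+* ℂ), (φ y).re = ((InfinitePlace.mk φ).embedding y).re := by
    intro y φ
    rcases (InfinitePlace.mk_eq_iff.mp (InfinitePlace.mk_embedding (InfinitePlace.mk φ))) with h1 | h1
    · rw [h1]
    · rw [← h1]
      simp [ComplexEmbedding.conjugate_coe_eq]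
  have h1 : ∀ y : 𝓞 K, ∑ φ : K →+* ℂ, c φ * (φ (y : K)).re = 0 := by
    intro y
    rw [← h y, ← Finset.sum_fiberwise Finset.univ (fun φ : K →+* ℂ => InfinitePlace.mk φ)]
    refine Finset.sum_congr rfl fun w _ => ?_
    have h2 : ∀ φ ∈ Finset.univ.filter (fun φ : K →+* ℂ => InfinitePlace.mk φ = w),
        c φ * (φ (y : K)).re = μ w / w.mult * (w.embedding (y : K)).re := by
      intro φ hφ
      have h3 := (Finset.mem_filter.mp hφ).2
      rw [hc, hre, h3]
    rw [Finset.sum_congr rfl h2, Finset.sum_const, InfinitePlace.card_filter_mk_eq, nsmul_eq_mul]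
    have h4 : (w.mult : ℝ) ≠ 0 := by
      have := InfinitePlace.mult_pos (w := w)
      positivity
    field_simp
  have hcc : ∀ φ : K →+* ℂ, c (ComplexEmbedding.conjugate φ) = c φ := by
    intro φ
    rw [hc, hc, InfinitePlace.mk_conjugate_eq]
  have h2 : ∀ y : 𝓞 K, ∑ φ : K →+* ℂ, (c φ : ℂ) * φ (y : K) = 0 := by
    intro y
    have h3 : ∑ φ : K →+* ℂ, (c φ : ℂ) * (ComplexEmbedding.conjugate φ) (y : K) =
        ∑ φ : K →+* ℂ, (c φ : ℂ) * φ (y : K) := by
      rw [← Equiv.sum_comp (ComplexEmbedding.involutive_conjugate K).toPerm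
        (fun φ : K →+* ℂ => (c φ : ℂ) * φ (y : K))]
      refine Finset.sum_congr rfl fun φ _ => ?_
      simp only [Function.Involutive.coe_toPerm]
      rw [hcc]
    have h4 : ∑ φ : K →+* ℂ, (c φ : ℂ) * (φ (y : K) + (ComplexEmbedding.conjugate φ) (y : K)) = 0 := by
      have h5 : ∀ φ : K →+* ℂ, (c φ : ℂ) * (φ (y : K) + (ComplexEmbedding.conjugate φ) (y : K)) =
          ((2 * (c φ * (φ (y : K)).re) : ℝ) : ℂ) := by
        intro φ
        rw [ComplexEmbedding.conjugate_coe_eq, Complex.add_conj]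
        push_cast
        ring
      rw [Finset.sum_congr rfl fun φ _ => h5 φ, ← Complex.ofReal_sum, ← Finset.mul_sum, h1 y]
      simp
    simp only [mul_add] at h4
    rw [Finset.sum_add_distrib, h3] at h4
    have h6 : (2 : ℂ) * ∑ φ : K →+* ℂ, (c φ : ℂ) * φ (y : K) = 0 := by rw [two_mul]; exact h4
    exact (mul_eq_zero.mp h6).resolve_left two_ne_zero
  -- linear independence
  have hli := linearIndependent_monoidHom (𝓞 K) ℂ
  have hinj : Function.Injective (fun φ : K →+* ℂ =>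
      ((φ.comp (algebraMap (𝓞 K) K) : 𝓞 K →+* ℂ) : 𝓞 K →* ℂ)) := by
    intro φ φ' hφ
    have h3 : ∀ y : 𝓞 K, φ (y : K) = φ' (y : K) := fun y => DFunLike.congr_fun hφ y
    ext x
    obtain ⟨a, b, hb, rfl⟩ := IsFractionRing.div_surjective (A := 𝓞 K) x
    rw [map_div₀, map_div₀]
    exact congrArg₂ (· / ·) (h3 a) (h3 b)
  have hli' := hli.comp _ hinj
  have h3 := Fintype.linearIndependent_iff.mp hli' (fun φ => (c φ : ℂ)) (by
    funext y
    rw [Finset.sum_apply]
    simp only [Function.comp_apply, Pi.smul_apply, smul_eq_mul, Pi.zero_apply]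
    exact h2 y)
  funext w
  have h4 := h3 w.embedding
  rw [hc, InfinitePlace.mk_embedding] at h4
  have h5 : μ w / (w.mult : ℝ) = 0 := by exact_mod_cast h4
  have h6 : (w.mult : ℝ) ≠ 0 := by
    have := InfinitePlace.mult_pos (w := w)
    positivity
  rw [div_eq_zero_iff] at h5
  exact h5.resolve_right h6

/-- for large `k` the integer `1 + k N + N y` is totally positive -/
lemma tpos_large (y : 𝓞 K) {N : ℕ} (hN : 0 < N) : ∃ k₀ : ℕ, ∀ k : ℕ, k₀ ≤ k →
    TPos K (1 + (k : 𝓞 K) * (N : 𝓞 K) + (N : 𝓞 K) * y) := by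
  classical
  have hfin : Finite (K →+* ℝ) := by
    refine Finite.of_injective (fun σ : K →+* ℝ => (Complex.ofRealHom.comp σ : K →+* ℂ)) ?_
    intro σ τ h
    ext y
    have h1 := congrArg (fun f : K →+* ℂ => f y) h
    exact Complex.ofReal_injective h1
  have hft : Fintype (K →+* ℝ) := Fintype.ofFinite _
  obtain ⟨k, hk⟩ := exists_nat_gt (∑ σ : K →+* ℝ, |σ (y : K)|)
  refine ⟨k, fun l hl σ => ?_⟩
  have h1 : ((1 + (l : 𝓞 K) * (N : 𝓞 K) + (N : 𝓞 K) * y : 𝓞 K) : K) =
      1 + (l : K) * (N : K) + (N : K) * (y : K) := by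
    simp
  rw [h1, map_add, map_add, map_mul, map_mul, map_one, map_natCast, map_natCast]
  have h2 : |σ (y : K)| ≤ ∑ σ : K →+* ℝ, |σ (y : K)| :=
    Finset.single_le_sum (f := fun σ : K →+* ℝ => |σ (y : K)|) (fun _ _ => abs_nonneg _)
      (Finset.mem_univ σ)
  have h3 : (k : ℝ) ≤ l := by exact_mod_cast hl
  have h4 : -|σ (y : K)| ≤ σ (y : K) := neg_abs_le _
  have h5 : (0 : ℝ) < N := by exact_mod_cast hN
  have h6 : 0 ≤ (N : ℝ) * (l + σ (y : K)) := mul_nonneg h5.le (by linarith)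
  nlinarith

/-- **UNIQ** -/
theorem uniq {𝔣 : Ideal (𝓞 K)} (hf : 𝔣 ≠ ⊥) {μ : InfinitePlace K → ℝ} (hs : ∑ w, μ w = 0)
    (h : ∀ x : 𝓞 K, x ≠ 0 → x - 1 ∈ 𝔣 → TPos K x → ax μ (x : K) = 1) : μ = 0 := by
  apply eq_zero_of_re
  intro y
  obtain ⟨N, hN⟩ : ∃ N : ℕ, N = Ideal.absNorm 𝔣 := ⟨_, rfl⟩
  have hN0 : 0 < N := by
    rw [hN]; exact Nat.pos_of_ne_zero (by rwa [Ne, Ideal.absNorm_eq_zero_iff])
  have hNR : (0 : ℝ) < N := by exact_mod_cast hN0
  -- the function
  set g : ℝ → ℂ := fun t => cexp (I * ((∑ w : InfinitePlace K, μ w *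
    Real.log ‖1 + (t : ℂ) * w.embedding (y : K)‖ : ℝ) : ℂ)) with hg
  have hder : HasDerivAt g (I * ((∑ w : InfinitePlace K, μ w * (w.embedding (y : K)).re : ℝ) : ℂ)) 0 := by
    have h1 : HasDerivAt (fun t : ℝ => ∑ w : InfinitePlace K, μ w *
        Real.log ‖1 + (t : ℂ) * w.embedding (y : K)‖)
        (∑ w : InfinitePlace K, μ w * (w.embedding (y : K)).re) 0 := by
      have := HasDerivAt.fun_sum (u := (Finset.univ : Finset (InfinitePlace K)))
        (A := fun (w : InfinitePlace K) (t : ℝ) => μ w * Real.log ‖1 + (t : ℂ) * w.embedding (y : K)‖)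
        (A' := fun w => μ w * (w.embedding (y : K)).re) (x := (0 : ℝ))
        (fun w _ => (hasDerivAt_log_norm _).const_mul (μ w))
      exact this
    have h2 := (h1.ofReal_comp.const_mul I).cexp
    have h3 : cexp (I * (((fun t : ℝ => ∑ w : InfinitePlace K, μ w *
        Real.log ‖1 + (t : ℂ) * w.embedding (y : K)‖) 0 : ℝ) : ℂ)) = 1 := by
      simp
    rw [h3, one_mul] at h2
    exact h2
  have hg0 : g 0 = 1 := by
    rw [hg]; simp
  -- the sequence
  set t : ℕ → ℝ := fun k => N / (1 + k * N) with ht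
  have htpos : ∀ k, 0 < t k := fun k => by rw [ht]; positivity
  obtain ⟨k₀, hk₀⟩ := tpos_large y hN0
  have hlim : Tendsto t atTop (𝓝 0) := by
    rw [ht]
    refine Tendsto.div_atTop (tendsto_const_nhds) ?_
    refine tendsto_atTop_add_const_left _ _ ?_
    exact Tendsto.atTop_mul_const hNR tendsto_natCast_atTop_atTop
  have hval : ∀ᶠ k in atTop, g (t k) = 1 := by
    obtain ⟨k₁, hk₁⟩ : ∃ k₁ : ℕ, ∀ k, k₁ ≤ k →
        (1 + (k : 𝓞 K) * (N : 𝓞 K) + (N : 𝓞 K) * y) ≠ 0 := by
      by_cases hex : ∃ k : ℕ, (1 + (k : 𝓞 K) * (N : 𝓞 K) + (N : 𝓞 K) * y) = 0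
      · obtain ⟨k, hk⟩ := hex
        refine ⟨k + 1, fun l hl h0 => ?_⟩
        have h1 : ((l : 𝓞 K) - (k : 𝓞 K)) * (N : 𝓞 K) = 0 := by linear_combination h0 - hk
        have h2 : (((l : ℤ) - k) * N : ℤ) = 0 := by
          have : ((((l : ℤ) - k) * N : ℤ) : 𝓞 K) = 0 := by push_cast; exact h1
          exact_mod_cast this
        rcases mul_eq_zero.mp h2 with h3 | h3
        · omega
        · omega
      · push Not at hex
        exact ⟨0, fun k _ => hex k⟩
    filter_upwards [eventually_ge_atTop (max k₀ k₁)] with k hk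
    have h1 := h _ (hk₁ k ((le_max_right _ _).trans hk)) (by
      have : (1 + (k : 𝓞 K) * (N : 𝓞 K) + (N : 𝓞 K) * y) - 1 = ((k : 𝓞 K) + y) * (N : 𝓞 K) := by ring
      rw [this]
      exact Ideal.mul_mem_left _ _ (by rw [hN]; exact Ideal.absNorm_mem 𝔣))
      (hk₀ k ((le_max_left _ _).trans hk))
    rw [← h1, hg]
    unfold ax
    simp only
    congr 3
    -- compare the sums
    have hpos : (0 : ℝ) < 1 + k * N := by positivity
    have h2 : ∀ w : InfinitePlace K, Real.log (w ((1 + (k : 𝓞 K) * (N : 𝓞 K) + (N : 𝓞 K) * y : 𝓞 K) : K)) =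
        Real.log (1 + k * N) + Real.log ‖1 + ((t k : ℝ) : ℂ) * w.embedding (y : K)‖ := by
      intro w
      have h3 : w ((1 + (k : 𝓞 K) * (N : 𝓞 K) + (N : 𝓞 K) * y : 𝓞 K) : K) =
          (1 + k * N) * ‖1 + ((t k : ℝ) : ℂ) * w.embedding (y : K)‖ := by
        rw [← InfinitePlace.norm_embedding_eq w]
        have h4 : w.embedding ((1 + (k : 𝓞 K) * (N : 𝓞 K) + (N : 𝓞 K) * y : 𝓞 K) : K) =
            ((1 + k * N : ℝ) : ℂ) * (1 + ((t k : ℝ) : ℂ) * w.embedding (y : K)) := by
          rw [ht]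
          simp only [map_add, map_mul, map_one, map_natCast]
          push_cast
          have h5 : (1 + (k : ℂ) * N) ≠ 0 := by
            have : ((1 + k * N : ℝ) : ℂ) ≠ 0 := by exact_mod_cast hpos.ne'
            push_cast at this
            exact this
          field_simp
        rw [h4, norm_mul, Complex.norm_real, Real.norm_of_nonneg hpos.le]
      rw [h3]
      have h6 : ‖1 + ((t k : ℝ) : ℂ) * w.embedding (y : K)‖ ≠ 0 := by
        intro h7
        rw [h7, mul_zero] at h3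
        rw [map_eq_zero, RingOfIntegers.coe_eq_zero_iff] at h3
        exact hk₁ k ((le_max_right _ _).trans hk) h3
      rw [Real.log_mul hpos.ne' h6]
    simp only [h2, mul_add]
    rw [Finset.sum_add_distrib, ← Finset.sum_mul, hs, zero_mul, zero_add]
  -- the slopes
  have hsl := hasDerivAt_iff_tendsto_slope.mp hder
  have ht0 : Tendsto t atTop (𝓝[≠] 0) := by
    rw [tendsto_nhdsWithin_iff]
    exact ⟨hlim, Eventually.of_forall fun k => (htpos k).ne'⟩
  have h1 := hsl.comp ht0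
  have h2 : Tendsto (slope g 0 ∘ t) atTop (𝓝 0) := by
    refine tendsto_const_nhds.congr' ?_
    filter_upwards [hval] with k hk
    rw [Function.comp_apply, slope_def_module, hk, hg0, sub_self, smul_zero]
  have h3 := tendsto_nhds_unique h1 h2
  have h4 := (mul_eq_zero.mp h3).resolve_left I_ne_zero
  exact_mod_cast h4

end

end Pool.Agent.Y773.G.GH
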